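import Mathlib

set_option autoImplicit false

/-!
# Definitions: higher Gateaux derivatives, equivalent norms, bumps, the space `ℓ_3`
-/

namespace Pool.Agent.Lib.MP_b5ab38_an

open scoped Topology ENNReal
open Set Filter

/-- `IsGateauxDeriv f k x A`: the `k`-th Gateaux derivative `f^{(k)}(x)` of `f` at `x` exists
and is the continuous `k`-linear form `A`.

* `k = 0`: the form `A` is the constant `f x`.
* `k + 1`: the `k`-th derivative `D y = f^{(k)}(y)` exists for all `y` in a neighbourhood of `x`,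
  `A(h_1, …, h_{k+1})` is the limit of `(D (x + t h_{k+1}) - D x)(h_1, …, h_k) / t`, as `t → 0`
  (`t ≠ 0`) when `k = 0` and as `t ↓ 0` when `k ≥ 1`, for all `h_1, …, h_{k+1}`, and the
  continuous `(k+1)`-linear form `A` is symmetric. -/
def IsGateauxDeriv {X : Type*} [NormedAddCommGroup X] [NormedSpace ℝ X] (f : X → ℝ) :
    (k : ℕ) → X → ContinuousMultilinearMap ℝ (fun _ : Fin k => X) ℝ → Prop
  | 0, x, A => ∀ h, A h = f x
  | k + 1, x, A =>
      (∃ D : X → ContinuousMultilinearMap ℝ (fun _ : Fin k => X) ℝ,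
        (∀ᶠ y in 𝓝 x, IsGateauxDeriv f k y (D y)) ∧
        ∀ h : Fin (k + 1) → X,
          Tendsto (fun t : ℝ => t⁻¹ * (D (x + t • h (Fin.last k)) (fun i => h i.castSucc)
            - D x (fun i => h i.castSucc)))
            (if k = 0 then 𝓝[≠] 0 else 𝓝[>] 0) (𝓝 (A h))) ∧
      ∀ (σ : Equiv.Perm (Fin (k + 1))) (h : Fin (k + 1) → X), A (fun i => h (σ i)) = A h

/-- `f` is `k` times Gateaux differentiable at `x`. -/
def GateauxDiffAt {X : Type*} [NormedAddCommGroup X] [NormedSpace ℝ X] (f : X → ℝ) (k : ℕ)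
    (x : X) : Prop := ∃ A, IsGateauxDeriv f k x A

/-- `N` is an equivalent norm on `X`. -/
def IsEquivalentNorm {X : Type*} [NormedAddCommGroup X] [NormedSpace ℝ X] (N : X → ℝ) : Prop :=
  (∀ x y, N (x + y) ≤ N x + N y) ∧ (∀ (a : ℝ) x, N (a • x) = |a| * N x) ∧
    ∃ c C : ℝ, 0 < c ∧ ∀ x, c * ‖x‖ ≤ N x ∧ N x ≤ C * ‖x‖

/-- `b` is a bump on `X`: it is not identically zero and its support is bounded. -/
def IsBump {X : Type*} [NormedAddCommGroup X] (b : X → ℝ) : Prop :=
  (∃ x, b x ≠ 0) ∧ Bornology.IsBounded (closure {x | b x ≠ 0})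

/-- `X` has neither an equivalent norm that is `k` times Gateaux differentiable at every nonzero
point nor a continuous bump that is `k` times Gateaux differentiable at every point. -/
def NoGateauxSmoothNormOrBump (X : Type*) [NormedAddCommGroup X] [NormedSpace ℝ X] (k : ℕ) :
    Prop :=
  (¬ ∃ N : X → ℝ, IsEquivalentNorm N ∧ ∀ x, x ≠ 0 → GateauxDiffAt N k x) ∧
  ¬ ∃ b : X → ℝ, Continuous b ∧ IsBump b ∧ ∀ x, GateauxDiffAt b k x

instance fact_one_le_three : Fact ((1 : ℝ≥0∞) ≤ 3) := ⟨by norm_num⟩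

end Pool.Agent.Lib.MP_b5ab38_an
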