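import Mathlib

section

set_option autoImplicit false
set_option maxSynthPendingDepth 3

/-!
# Symmetry of iterated derivatives of smooth functions
-/

namespace Pool.Agent.Lib.MP_b5ab38_an

open scoped Topology ContDiff
open Set Filter

variable {X : Type*} [NormedAddCommGroup X] [NormedSpace ℝ X]

theorem iteratedFDeriv_differentiable {f : X → ℝ} (hf : ContDiff ℝ ∞ f) (n : ℕ) :
    Differentiable ℝ (iteratedFDeriv ℝ n f) :=
  hf.differentiable_iteratedFDeriv (by exact_mod_cast WithTop.coe_lt_top n)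

theorem fderiv_eval {n : ℕ} {g : X → ContinuousMultilinearMap ℝ (fun _ : Fin n => X) ℝ}
    (hg : Differentiable ℝ g) (x a : X) (u : Fin n → X) :
    fderiv ℝ g x a u = fderiv ℝ (fun y => g y u) x a := by
  have h1 : HasFDerivAt (fun y => g y u)
      ((ContinuousMultilinearMap.apply ℝ (fun _ : Fin n => X) ℝ u).comp (fderiv ℝ g x)) x :=
    ((ContinuousMultilinearMap.apply ℝ (fun _ : Fin n => X) ℝ u).hasFDerivAt).comp x
      (hg x).hasFDerivAt
  rw [h1.fderiv]
  rfl

theorem iteratedFDeriv_two_left {f : X → ℝ} (hf : ContDiff ℝ ∞ f) (n : ℕ) (x : X)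
    (w : Fin (n + 2) → X) :
    iteratedFDeriv ℝ (n + 2) f x w
      = fderiv ℝ (fun y => fderiv ℝ (iteratedFDeriv ℝ n f) y) x (w 0) (w 1)
          (fun i => w i.succ.succ) := by
  rw [iteratedFDeriv_succ_apply_left]
  rw [fderiv_eval (iteratedFDeriv_differentiable hf (n + 1))]
  have h1 : (fun y => iteratedFDeriv ℝ (n + 1) f y (Fin.tail w))
      = fun y => fderiv ℝ (iteratedFDeriv ℝ n f) y (w 1) (fun i => w i.succ.succ) := by
    funext y
    rw [iteratedFDeriv_succ_apply_left]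
    rfl
  rw [h1]
  have hg : ContDiff ℝ ∞ (iteratedFDeriv ℝ n f) :=
    hf.iteratedFDeriv_right (m := ∞) (by exact_mod_cast le_top)
  have hg' : Differentiable ℝ (fun y => fderiv ℝ (iteratedFDeriv ℝ n f) y) :=
    (hg.fderiv_right (m := ∞) (by exact_mod_cast le_top)).differentiable (by simp)
  have h2 : HasFDerivAt (fun y => fderiv ℝ (iteratedFDeriv ℝ n f) y (w 1)
      (fun i => w i.succ.succ))
      ((ContinuousMultilinearMap.apply ℝ (fun _ : Fin n => X) ℝ (fun i => w i.succ.succ)).comp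
        ((ContinuousLinearMap.apply ℝ (ContinuousMultilinearMap ℝ (fun _ : Fin n => X) ℝ)
          (w 1)).comp (fderiv ℝ (fun y => fderiv ℝ (iteratedFDeriv ℝ n f) y) x))) x :=
    (ContinuousMultilinearMap.apply ℝ (fun _ : Fin n => X) ℝ _).hasFDerivAt.comp x
      ((ContinuousLinearMap.apply ℝ (ContinuousMultilinearMap ℝ (fun _ : Fin n => X) ℝ)
          (w 1)).hasFDerivAt.comp x (hg' x).hasFDerivAt)
  rw [h2.fderiv]
  rfl

theorem iteratedFDeriv_swap {f : X → ℝ} (hf : ContDiff ℝ ∞ f) : ∀ (n : ℕ) (i : Fin n) (x : X)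
    (v : Fin (n + 1) → X),
    iteratedFDeriv ℝ (n + 1) f x (fun j => v (Equiv.swap i.castSucc i.succ j))
      = iteratedFDeriv ℝ (n + 1) f x v := by
  intro n
  induction n with
  | zero => intro i; exact i.elim0
  | succ n ih =>
    intro i x v
    refine Fin.cases ?_ (fun j => ?_) i
    · rw [iteratedFDeriv_two_left hf, iteratedFDeriv_two_left hf]
      have e0 : Equiv.swap (Fin.castSucc (0 : Fin (n + 1))) (Fin.succ 0) (0 : Fin (n + 2)) = 1 := by
        simp
      have e1 : Equiv.swap (Fin.castSucc (0 : Fin (n + 1))) (Fin.succ 0) (1 : Fin (n + 2)) = 0 := by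
        simp
      have e2 : ∀ k : Fin n, Equiv.swap (Fin.castSucc (0 : Fin (n + 1))) (Fin.succ 0)
          (k.succ.succ : Fin (n + 2)) = k.succ.succ := by
        intro k
        refine Equiv.swap_apply_of_ne_of_ne ?_ ?_
        · exact Fin.succ_ne_zero _
        · intro h
          have := Fin.succ_injective _ h
          exact Fin.succ_ne_zero _ this
      rw [e0, e1]
      simp only [e2]
      have hg : ContDiff ℝ ∞ (iteratedFDeriv ℝ n f) :=
        hf.iteratedFDeriv_right (m := ∞) (by exact_mod_cast le_top)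
      have hsymm : IsSymmSndFDerivAt ℝ (iteratedFDeriv ℝ n f) x :=
        hg.contDiffAt.isSymmSndFDerivAt (by rw [minSmoothness_of_isRCLikeNormedField]; exact ENat.LEInfty.out)
      have := hsymm (v 1) (v 0)
      exact congrArg (fun (A : ContinuousMultilinearMap ℝ (fun _ : Fin n => X) ℝ) =>
        A (fun i => v i.succ.succ)) this
    · rw [iteratedFDeriv_succ_apply_left, iteratedFDeriv_succ_apply_left]
      rw [fderiv_eval (iteratedFDeriv_differentiable hf (n + 1)),
        fderiv_eval (iteratedFDeriv_differentiable hf (n + 1))]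
      have e0 : Equiv.swap (Fin.castSucc j.succ) (Fin.succ j.succ) (0 : Fin (n + 2)) = 0 := by
        refine Equiv.swap_apply_of_ne_of_ne ?_ ?_
        · intro h
          have : (0 : Fin (n + 2)) = (j.castSucc).succ := h
          exact Fin.succ_ne_zero _ this.symm
        · exact (Fin.succ_ne_zero _).symm
      have e1 : (Fin.tail fun k => v (Equiv.swap (Fin.castSucc j.succ) (Fin.succ j.succ) k))
          = fun k => (Fin.tail v) (Equiv.swap j.castSucc j.succ k) := by
        funext k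
        show v (Equiv.swap (Fin.castSucc j.succ) (Fin.succ j.succ) k.succ)
          = v (Fin.succ (Equiv.swap j.castSucc j.succ k))
        congr 1
        rw [show Fin.castSucc j.succ = Fin.succ j.castSucc from rfl]
        exact ((Fin.succ_injective (n + 1)).swap_apply _ _ _)
      rw [e0, e1]
      congr 1
      congr 1
      funext y
      exact ih j y (Fin.tail v)

theorem iteratedFDeriv_perm {f : X → ℝ} (hf : ContDiff ℝ ∞ f) (n : ℕ) (x : X)
    (σ : Equiv.Perm (Fin n)) (v : Fin n → X) :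
    iteratedFDeriv ℝ n f x (fun i => v (σ i)) = iteratedFDeriv ℝ n f x v := by
  cases n with
  | zero => congr 1; funext i; exact i.elim0
  | succ n =>
    have hmem : σ ∈ Submonoid.closure
        (Set.range fun i : Fin n => Equiv.swap i.castSucc i.succ) := by
      rw [Equiv.Perm.mclosure_swap_castSucc_succ]; trivial
    revert v
    induction hmem using Submonoid.closure_induction with
    | mem τ hτ =>
      obtain ⟨i, rfl⟩ := hτ
      intro v
      exact iteratedFDeriv_swap hf n i x v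
    | one => intro v; rfl
    | mul a b _ _ ha hb =>
      intro v
      have h1 := hb (fun i => v (a i))
      have h2 := ha v
      rw [← h2, ← h1]
      rfl

end Pool.Agent.Lib.MP_b5ab38_an
end

section

set_option autoImplicit false
set_option maxSynthPendingDepth 3

/-!
# Gluing smooth functions given near finitely many subspaces of a finite-dimensional subspace
-/

namespace Pool.Agent.Lib.MP_b5ab38_an

open scoped Topology ContDiff Manifold
open Set Filter

variable {X : Type*} [NormedAddCommGroup X] [NormedSpace ℝ X]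

/-- Smooth cut-offs on `X` near a finite-dimensional subspace. -/
theorem exists_cutoff (E : Submodule ℝ X) [FiniteDimensional ℝ E] (H K : Set E)
    (hH : IsClosed H) (hK : IsClosed K) (hd : Disjoint K H) :
    ∃ χ : X → ℝ, ContDiff ℝ ∞ χ ∧ (∀ x : E, x ∈ K → χ =ᶠ[𝓝 (x : X)] fun _ => 0) ∧
      (∀ x : E, x ∈ H → χ =ᶠ[𝓝 (x : X)] fun _ => 1) := by
  obtain ⟨π, hπ⟩ := Submodule.ClosedComplemented.of_finiteDimensional (𝕜 := ℝ) E
  obtain ⟨f, hf0, hf1, _⟩ := exists_contMDiffMap_zero_one_nhds_of_isClosed (n := ⊤)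
    (𝓘(ℝ, E)) hK hH hd
  have hfs : ContDiff ℝ ∞ f := f.contMDiff.contDiff
  refine ⟨fun x => f (π x), hfs.comp π.contDiff, fun x hx => ?_, fun x hx => ?_⟩
  · have h1 : ∀ᶠ y in 𝓝 x, f y = 0 := (eventually_nhdsSet_iff_forall.1 hf0) x hx
    have h2 : Tendsto π (𝓝 (x : X)) (𝓝 x) := by
      have := π.continuous.tendsto (x : X)
      rwa [hπ x] at this
    exact h2.eventually h1
  · have h1 : ∀ᶠ y in 𝓝 x, f y = 1 := (eventually_nhdsSet_iff_forall.1 hf1) x hx
    have h2 : Tendsto π (𝓝 (x : X)) (𝓝 x) := by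
      have := π.continuous.tendsto (x : X)
      rwa [hπ x] at this
    exact h2.eventually h1

/-- The gluing step. -/
theorem ext_step (E : Submodule ℝ X) [FiniteDimensional ℝ E] {ι : Type*} (S : Finset ι)
    (H : ι → Submodule ℝ X) (hHE : ∀ b ∈ S, H b ≤ E) (ψ : ι → X → ℝ)
    (hψ : ∀ b ∈ S, ContDiff ℝ ∞ (ψ b))
    (h1 : ∀ a ∈ S, ∀ b ∈ S, ∀ x ∈ H a, x ∈ H b → ψ a =ᶠ[𝓝 x] ψ b)
    (h2 : ∀ b ∈ S, ∀ x ∈ H b, 1 ≤ ‖x‖ → ψ b =ᶠ[𝓝 x] fun _ => 0) :
    ∃ Φ : X → ℝ, ContDiff ℝ ∞ Φ ∧ (∀ a ∈ S, ∀ x ∈ H a, Φ =ᶠ[𝓝 x] ψ a) ∧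
      ∀ x ∈ E, 1 ≤ ‖x‖ → Φ =ᶠ[𝓝 x] fun _ => 0 := by
  classical
  -- the cut-offs
  have hχ : ∀ b : ι, ∃ χ : X → ℝ, b ∈ S → (ContDiff ℝ ∞ χ ∧
      (∀ x ∈ H b, χ =ᶠ[𝓝 x] fun _ => 1) ∧
      (∀ a ∈ S, ∀ x ∈ H a, (χ =ᶠ[𝓝 x] fun _ => 0) ∨ ψ b =ᶠ[𝓝 x] ψ a) ∧
      (∀ x ∈ E, 1 ≤ ‖x‖ → (χ =ᶠ[𝓝 x] fun _ => 0) ∨ ψ b =ᶠ[𝓝 x] fun _ => 0)) := by
    intro b
    by_cases hb : b ∈ S
    swap
    · exact ⟨0, fun h => absurd h hb⟩
    set H' : Set E := {x | (x : X) ∈ H b} with hH'
    set K' : Set E := (⋃ a ∈ S, {x : E | (x : X) ∈ H a ∧ ¬ (ψ b =ᶠ[𝓝 (x : X)] ψ a)}) ∪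
      {x : E | 1 ≤ ‖(x : X)‖ ∧ ¬ (ψ b =ᶠ[𝓝 (x : X)] fun _ => 0)} with hK'
    have hcl : ∀ a ∈ S, IsClosed {x : E | (x : X) ∈ H a} := by
      intro a ha
      have hfin : FiniteDimensional ℝ (H a) := Submodule.finiteDimensional_of_le (hHE a ha)
      have : IsClosed ((H a : Submodule ℝ X) : Set X) := Submodule.closed_of_finiteDimensional _
      exact this.preimage continuous_subtype_val
    have hop : ∀ φ : X → ℝ, IsClosed {x : E | ¬ (ψ b =ᶠ[𝓝 (x : X)] φ)} := by
      intro φ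
      have h3 : IsOpen {x : X | ψ b =ᶠ[𝓝 x] φ} := isOpen_setOfPred_eventually_nhds
      have h4 : IsOpen {x : E | ψ b =ᶠ[𝓝 (x : X)] φ} := h3.preimage continuous_subtype_val
      exact h4.isClosed_compl
    have hK'c : IsClosed K' := by
      refine IsClosed.union ?_ ?_
      · exact S.finite_toSet.isClosed_biUnion (fun a ha => (hcl a ha).inter (hop (ψ a)))
      · exact (isClosed_le continuous_const continuous_subtype_val.norm).inter (hop _)
    have hdisj : Disjoint K' H' := by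
      rw [Set.disjoint_left]
      rintro x (hx | hx) hxH
      · simp only [mem_iUnion] at hx
        obtain ⟨a, ha, hxa, hne⟩ := hx
        exact hne (h1 b hb a ha x hxH hxa)
      · exact hx.2 (h2 b hb x hxH hx.1)
    obtain ⟨χ, hχs, hχ0, hχ1⟩ := exists_cutoff E H' K' (hcl b hb) hK'c hdisj
    refine ⟨χ, fun _ => ⟨hχs, fun x hx => hχ1 ⟨x, hHE b hb hx⟩ hx, fun a ha x hx => ?_,
      fun x hx hn => ?_⟩⟩
    · by_cases hc : ψ b =ᶠ[𝓝 x] ψ a
      · exact Or.inr hc
      · refine Or.inl (hχ0 ⟨x, hHE a ha hx⟩ (Or.inl ?_))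
        simp only [mem_iUnion]
        exact ⟨a, ha, hx, hc⟩
    · by_cases hc : ψ b =ᶠ[𝓝 x] fun _ => 0
      · exact Or.inr hc
      · exact Or.inl (hχ0 ⟨x, hx⟩ (Or.inr ⟨hn, hc⟩))
  choose χ hχ using hχ
  -- induction over subsets
  have main : ∀ T : Finset ι, T ⊆ S → ∃ Φ c : X → ℝ, ContDiff ℝ ∞ Φ ∧
      (∀ a ∈ S, ∀ x ∈ H a, Φ =ᶠ[𝓝 x] fun y => c y * ψ a y) ∧
      (∀ a ∈ T, ∀ x ∈ H a, c =ᶠ[𝓝 x] fun _ => 1) ∧
      ∀ x ∈ E, 1 ≤ ‖x‖ → Φ =ᶠ[𝓝 x] fun _ => 0 := by
    intro T
    induction T using Finset.induction_on with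
    | empty =>
      intro _
      refine ⟨fun _ => 0, fun _ => 0, contDiff_const, fun a _ x _ => ?_, by simp, fun x _ _ => ?_⟩
      · exact Eventually.of_forall (fun y => by simp)
      · exact Eventually.of_forall (fun y => rfl)
    | insert b T hbT ih =>
      intro hTS
      obtain ⟨Φ, c, hΦ, hΦc, hc1, hΦ0⟩ := ih (fun a ha => hTS (Finset.mem_insert_of_mem ha))
      have hbS : b ∈ S := hTS (Finset.mem_insert_self _ _)
      obtain ⟨hχs, hχ1, hχa, hχn⟩ := hχ b hbS
      refine ⟨fun y => χ b y * ψ b y + (1 - χ b y) * Φ y, fun y => χ b y + (1 - χ b y) * c y,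
        (hχs.mul (hψ b hbS)).add ((contDiff_const.sub hχs).mul hΦ), ?_, ?_, ?_⟩
      · intro a ha x hx
        rcases hχa a ha x hx with h | h
        · filter_upwards [h, hΦc a ha x hx] with y hy1 hy2
          rw [hy1, hy2]; ring
        · filter_upwards [h, hΦc a ha x hx] with y hy1 hy2
          rw [hy1, hy2]; ring
      · intro a ha x hx
        rcases Finset.mem_insert.1 ha with rfl | ha'
        · filter_upwards [hχ1 x hx] with y hy
          rw [hy]; ring
        · filter_upwards [hc1 a ha' x hx] with y hy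
          rw [hy]; ring
      · intro x hx hn
        rcases hχn x hx hn with h | h
        · filter_upwards [h, hΦ0 x hx hn] with y hy1 hy2
          rw [hy1, hy2]; ring
        · filter_upwards [h, hΦ0 x hx hn] with y hy1 hy2
          rw [hy1, hy2]; ring
  obtain ⟨Φ, c, hΦ, hΦc, hc1, hΦ0⟩ := main S (fun _ h => h)
  refine ⟨Φ, hΦ, fun a ha x hx => ?_, hΦ0⟩
  filter_upwards [hΦc a ha x hx, hc1 a ha x hx] with y hy1 hy2
  rw [hy1, hy2, one_mul]

end Pool.Agent.Lib.MP_b5ab38_an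
end
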