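import Pool.Agent.Lib.MP_b5ab38_an.Ext
import Pool.Agent.Lib.MP_b5ab38_an.Defs

set_option autoImplicit false
set_option maxSynthPendingDepth 3

/-!
# A discontinuous bump with all Gateaux derivatives
-/

namespace Pool.Agent.Lib.MP_b5ab38_an

open scoped Topology ContDiff
open Set Filter

variable {X : Type*} [NormedAddCommGroup X] [NormedSpace ℝ X]
variable {ι : Type*} (e : Module.Basis ι ℝ X)

/-- Span of finitely many basis vectors. -/
def spanF (F : Finset ι) : Submodule ℝ X := Submodule.span ℝ (e '' (F : Set ι))

theorem mem_spanF {F : Finset ι} {x : X} : x ∈ spanF e F ↔ (e.repr x).support ⊆ F := by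
  rw [spanF, Module.Basis.mem_span_image]
  exact Finset.coe_subset

theorem spanF_mono {F G : Finset ι} (h : F ⊆ G) : spanF e F ≤ spanF e G := fun x hx => by
  rw [mem_spanF] at hx ⊢
  exact hx.trans h

instance spanF_finite (F : Finset ι) : FiniteDimensional ℝ (spanF e F) :=
  FiniteDimensional.span_of_finite ℝ (F.finite_toSet.image e)

open Classical in
/-- The extension property. -/
def ExtProp (F : Finset ι) (ψ : ι → X → ℝ) (Φ : X → ℝ) : Prop :=
  ContDiff ℝ ∞ Φ ∧ (∀ a ∈ F, ∀ x ∈ spanF e (F.erase a), Φ =ᶠ[𝓝 x] ψ a) ∧
    ∀ x ∈ spanF e F, 1 ≤ ‖x‖ → Φ =ᶠ[𝓝 x] fun _ => 0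

open Classical in
/-- A choice of extension. -/
noncomputable def pickExt (F : Finset ι) (ψ : ι → X → ℝ) : X → ℝ :=
  if h : ∃ Φ, ExtProp e F ψ Φ then h.choose else 0

open Classical in
/-- The coherent family. -/
noncomputable def fam : Finset ι → X → ℝ :=
  Finset.strongInduction (fun F rec =>
    if F = ∅ then fun _ => 1
    else pickExt e F (fun b => if h : b ∈ F then rec (F.erase b) (Finset.erase_ssubset h)
      else fun _ => 0))

open Classical in
theorem fam_empty : fam e ∅ = fun _ => 1 := by
  rw [fam, Finset.strongInduction_eq]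
  simp

open Classical in
theorem fam_eq (F : Finset ι) (hF : F ≠ ∅) :
    fam e F = pickExt e F (fun b => if b ∈ F then fam e (F.erase b) else fun _ => 0) := by
  conv_lhs => rw [fam, Finset.strongInduction_eq]
  rw [if_neg hF]
  congr 1

/-- Coherence of the family. -/
theorem fam_spec (F : Finset ι) : ContDiff ℝ ∞ (fam e F) ∧
    (∀ G, G ⊆ F → ∀ x ∈ spanF e G, fam e F =ᶠ[𝓝 x] fam e G) ∧
    ∀ x ∈ spanF e F, 1 ≤ ‖x‖ → fam e F =ᶠ[𝓝 x] fun _ => 0 := by
  classical
  induction F using Finset.strongInduction with
  | H F ih =>
  by_cases hF : F = ∅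
  · subst hF
    refine ⟨?_, ?_, ?_⟩
    · rw [fam_empty]; exact contDiff_const
    · intro G hG x _
      have : G = ∅ := Finset.subset_empty.1 hG
      rw [this]
    · intro x hx hn
      rw [mem_spanF] at hx
      have h1 : (e.repr x).support = ∅ := Finset.subset_empty.1 hx
      have h2 : x = 0 := by
        have := Finsupp.support_eq_empty.1 h1
        exact (LinearEquiv.map_eq_zero_iff e.repr).1 this
      rw [h2, norm_zero] at hn
      norm_num at hn
  · set ψ : ι → X → ℝ := fun b => if b ∈ F then fam e (F.erase b) else fun _ => 0 with hψ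
    have hψb : ∀ b ∈ F, ψ b = fam e (F.erase b) := fun b hb => by rw [hψ]; simp only [if_pos hb]
    have hex : ∃ Φ, ExtProp e F ψ Φ := by
      refine ext_step (spanF e F) F (fun a => spanF e (F.erase a))
        (fun b _ => spanF_mono e (Finset.erase_subset _ _)) ψ (fun b hb => ?_) ?_ ?_
      · rw [hψb b hb]
        exact (ih _ (Finset.erase_ssubset hb)).1
      · intro a ha b hb x hxa hxb
        rw [hψb a ha, hψb b hb]
        set G : Finset ι := F.erase a ∩ F.erase b with hG
        have hxG : x ∈ spanF e G := by
          rw [mem_spanF] at hxa hxb ⊢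
          exact Finset.subset_inter hxa hxb
        have h1 := (ih _ (Finset.erase_ssubset ha)).2.1 G Finset.inter_subset_left x hxG
        have h2 := (ih _ (Finset.erase_ssubset hb)).2.1 G Finset.inter_subset_right x hxG
        exact h1.trans h2.symm
      · intro b hb x hx hn
        rw [hψb b hb]
        exact (ih _ (Finset.erase_ssubset hb)).2.2 x hx hn
    have hspec : ExtProp e F ψ (fam e F) := by
      rw [fam_eq e F hF, pickExt, dif_pos hex]
      exact hex.choose_spec
    refine ⟨hspec.1, fun G hG x hx => ?_, hspec.2.2⟩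
    by_cases hGF : G = F
    · rw [hGF]
    · obtain ⟨a, haF, haG⟩ := Finset.exists_of_ssubset (Finset.ssubset_iff_subset_ne.2 ⟨hG, hGF⟩)
      have hGe : G ⊆ F.erase a := fun b hb => by
        rw [Finset.mem_erase]
        exact ⟨fun h => haG (h ▸ hb), hG hb⟩
      have h1 := hspec.2.1 a haF x (spanF_mono e hGe hx)
      rw [hψb a haF] at h1
      exact h1.trans ((ih _ (Finset.erase_ssubset haF)).2.1 G hGe x hx)

/-- The bump. -/
noncomputable def wildBump (x : X) : ℝ := fam e (e.repr x).support x

theorem mem_spanF_support (x : X) : x ∈ spanF e (e.repr x).support := by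
  rw [mem_spanF]

theorem fam_germ {F : Finset ι} {x : X} (h : (e.repr x).support ⊆ F) :
    fam e F =ᶠ[𝓝 x] fam e (e.repr x).support :=
  (fam_spec e F).2.1 _ h x (mem_spanF_support e x)

theorem isBump_wildBump : IsBump (wildBump e) := by
  constructor
  · refine ⟨0, ?_⟩
    have : (e.repr (0 : X)).support = ∅ := by simp
    rw [wildBump, this, fam_empty]
    norm_num
  · refine Metric.isBounded_closedBall.subset (closure_minimal (t := Metric.closedBall (0 : X) 1)
      (fun x hx => ?_) Metric.isClosed_closedBall)
    rw [mem_closedBall_zero_iff]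
    by_contra hcon
    rw [not_le] at hcon
    have h1 := (fam_spec e (e.repr x).support).2.2 x (mem_spanF_support e x) hcon.le
    exact hx h1.self_of_nhds

theorem wildBump_deriv : ∀ (k : ℕ) (x : X),
    IsGateauxDeriv (wildBump e) k x (iteratedFDeriv ℝ k (fam e (e.repr x).support) x) := by
  classical
  intro k
  induction k with
  | zero =>
    intro x h
    rw [iteratedFDeriv_zero_apply]
    rfl
  | succ k ih =>
    intro x
    refine ⟨⟨fun y => iteratedFDeriv ℝ k (fam e (e.repr y).support) y,
      Eventually.of_forall ih, fun h => ?_⟩, fun σ h => ?_⟩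
    · set w : X := h (Fin.last k) with hw
      set u : Fin k → X := fun i => h i.castSucc with hu
      set F : Finset ι := (e.repr x).support ∪ (e.repr w).support with hF
      have hsub : ∀ t : ℝ, (e.repr (x + t • w)).support ⊆ F := by
        intro t
        rw [map_add, map_smul]
        refine Finsupp.support_add.trans ?_
        refine Finset.union_subset_union le_rfl ?_
        exact Finsupp.support_smul
      have heq : ∀ t : ℝ, iteratedFDeriv ℝ k (fam e (e.repr (x + t • w)).support) (x + t • w)
          = iteratedFDeriv ℝ k (fam e F) (x + t • w) := fun t =>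
        ((fam_germ e (hsub t)).symm.iteratedFDeriv ℝ k).self_of_nhds
      have heq0 : iteratedFDeriv ℝ k (fam e (e.repr x).support) x
          = iteratedFDeriv ℝ k (fam e F) x := by
        have := heq 0
        rwa [zero_smul, add_zero] at this
      have heq1 : iteratedFDeriv ℝ (k + 1) (fam e (e.repr x).support) x
          = iteratedFDeriv ℝ (k + 1) (fam e F) x := by
        have h0 : (e.repr x).support ⊆ F := Finset.subset_union_left
        exact ((fam_germ e h0).symm.iteratedFDeriv ℝ (k + 1)).self_of_nhds
      rw [heq1]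
      beta_reduce
      rw [heq0]
      simp only [heq]
      have hsm : ContDiff ℝ ∞ (fam e F) := (fam_spec e F).1
      have hdiff := iteratedFDeriv_differentiable hsm k
      -- the derivative along the line
      have hval : iteratedFDeriv ℝ (k + 1) (fam e F) x h
          = fderiv ℝ (iteratedFDeriv ℝ k (fam e F)) x w u := by
        have h1 : h = fun i => (Fin.cons w u : Fin (k + 1) → X) (finRotate (k + 1) i) := by
          have h2 := Fin.snoc_eq_cons_rotate u w
          rw [← h2]
          exact (Fin.snoc_init_self h).symm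
        conv_lhs => rw [h1]
        rw [iteratedFDeriv_perm hsm, iteratedFDeriv_succ_apply_left]
        simp
      rw [hval]
      have hline : HasDerivAt (fun t : ℝ => iteratedFDeriv ℝ k (fam e F) (x + t • w) u)
          (fderiv ℝ (iteratedFDeriv ℝ k (fam e F)) x w u) 0 := by
        have h1 : HasDerivAt (fun t : ℝ => x + t • w) w 0 := by
          have := ((hasDerivAt_id (0 : ℝ)).smul_const w).const_add x
          simpa using this
        have h2 : HasFDerivAt (fun y => iteratedFDeriv ℝ k (fam e F) y u)
            ((ContinuousMultilinearMap.apply ℝ (fun _ : Fin k => X) ℝ u).comp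
              (fderiv ℝ (iteratedFDeriv ℝ k (fam e F)) x)) (x + (0 : ℝ) • w) := by
          rw [zero_smul, add_zero]
          exact ((ContinuousMultilinearMap.apply ℝ (fun _ : Fin k => X) ℝ u).hasFDerivAt).comp x
            (hdiff x).hasFDerivAt
        exact h2.comp_hasDerivAt (0 : ℝ) h1
      rw [hasDerivAt_iff_tendsto_slope_zero] at hline
      simp only [zero_add, zero_smul, add_zero, smul_eq_mul] at hline
      refine hline.mono_left ?_
      split_ifs
      · exact le_rfl
      · exact nhdsWithin_mono _ (fun t ht => ne_of_gt ht)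
    · exact iteratedFDeriv_perm (fam_spec e _).1 (k + 1) x σ h

/-- `X` has a bump (no continuity required) that is `k` times Gateaux differentiable at every
point, for every `k`. -/
def HasInfinitelyGateauxBump (X : Type*) [NormedAddCommGroup X] [NormedSpace ℝ X] : Prop :=
  ∃ b : X → ℝ, IsBump b ∧ ∀ (k : ℕ) (x : X), GateauxDiffAt b k x

/-- Every real normed space has a bump that is `k` times Gateaux differentiable for all `k`. -/
theorem exists_wild_bump (X : Type*) [NormedAddCommGroup X] [NormedSpace ℝ X] :
    HasInfinitelyGateauxBump X :=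
  ⟨wildBump (Module.Basis.ofVectorSpace ℝ X), isBump_wildBump _,
    fun k x => ⟨_, wildBump_deriv (Module.Basis.ofVectorSpace ℝ X) k x⟩⟩

end Pool.Agent.Lib.MP_b5ab38_an
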