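import Pool.Agent.Lib.MP_b5ab38_an.Weak

section

set_option autoImplicit false

/-!
# A variational principle
-/

namespace Pool.Agent.Lib.MP_b5ab38_an

open scoped Topology ENNReal
open Set Filter

section

variable {X : Type*}

open Classical in
/-- An `ε`-minimiser of `φ` on `K`. -/
noncomputable def pick [Nonempty X] (K : Set X) (φ : X → ℝ) (ε : ℝ) : X :=
  if h : ∃ x ∈ K, ∀ y ∈ K, φ x ≤ φ y + ε then h.choose else Classical.arbitrary X

theorem pick_spec [Nonempty X] (K : Set X) (φ : X → ℝ) (ε : ℝ) (hK : K.Nonempty) (hε : 0 < ε)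
    (hb : ∃ m, ∀ x ∈ K, m ≤ φ x) :
    pick K φ ε ∈ K ∧ ∀ y ∈ K, φ (pick K φ ε) ≤ φ y + ε := by
  have h : ∃ x ∈ K, ∀ y ∈ K, φ x ≤ φ y + ε := by
    obtain ⟨m, hm⟩ := hb
    have hne : (φ '' K).Nonempty := hK.image φ
    have hbd : BddBelow (φ '' K) := ⟨m, by rintro _ ⟨x, hx, rfl⟩; exact hm x hx⟩
    obtain ⟨_, ⟨x, hx, rfl⟩, hlt⟩ := exists_lt_of_csInf_lt hne
      (show sInf (φ '' K) < sInf (φ '' K) + ε by linarith)
    refine ⟨x, hx, fun y hy => ?_⟩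
    have := csInf_le hbd ⟨y, hy, rfl⟩
    linarith
  rw [pick, dif_pos h]
  exact h.choose_spec

end

/-- The perturbed functions. -/
noncomputable def phi (K : Set X3) (F : X3 → ℝ) (c ε : ℕ → ℝ) : ℕ → X3 → ℝ
  | 0 => F
  | k + 1 => fun x => phi K F c ε k x + c k * ‖x - pick K (phi K F c ε k) (ε k)‖ ^ 3

theorem phi_eq (K : Set X3) (F : X3 → ℝ) (c ε : ℕ → ℝ) (k : ℕ) (x : X3) :
    phi K F c ε k x
      = F x + ∑ i ∈ Finset.range k, c i * ‖x - pick K (phi K F c ε i) (ε i)‖ ^ 3 := by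
  induction k with
  | zero => simp [phi]
  | succ k ih =>
    rw [Finset.sum_range_succ, ← add_assoc, ← ih]
    rfl

theorem exists_perturbed_min (F : X3 → ℝ) (x₀ : X3) (D : ℝ) (hD : 0 ≤ D)
    (hF : ContinuousOn F (Metric.closedBall x₀ D))
    (hbdd : ∃ m, ∀ x ∈ Metric.closedBall x₀ D, m ≤ F x) (θ : ℝ) (hθ : 0 < θ) :
    ∃ (c : ℕ → ℝ) (b : ℕ → X3) (z : X3), (∀ i, 0 ≤ c i) ∧ HasSum c θ ∧
      (∀ i, b i ∈ Metric.closedBall x₀ D) ∧ z ∈ Metric.closedBall x₀ D ∧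
      ∀ x ∈ Metric.closedBall x₀ D,
        F z + ∑' i, c i * ‖z - b i‖ ^ 3 ≤ F x + ∑' i, c i * ‖x - b i‖ ^ 3 := by
  set K : Set X3 := Metric.closedBall x₀ D with hKdef
  have hKne : K.Nonempty := ⟨x₀, Metric.mem_closedBall_self hD⟩
  have hKc : IsClosed K := Metric.isClosed_closedBall
  set c : ℕ → ℝ := fun k => θ / 2 / 2 ^ k with hc
  set ε : ℕ → ℝ := fun k => c k * (1 / 8) ^ k with hε
  have hcpos : ∀ k, 0 < c k := fun k => by simp only [hc]; positivity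
  have hεpos : ∀ k, 0 < ε k := fun k => by
    have := hcpos k
    simp only [hε]; positivity
  have hcsum : HasSum c θ := hasSum_geometric_two' θ
  set φ : ℕ → X3 → ℝ := phi K F c ε with hφ
  set b : ℕ → X3 := fun k => pick K (φ k) (ε k) with hb
  have hφeq : ∀ k x, φ k x = F x + ∑ i ∈ Finset.range k, c i * ‖x - b i‖ ^ 3 :=
    fun k x => phi_eq K F c ε k x
  have hφsucc : ∀ k x, φ (k + 1) x = φ k x + c k * ‖x - b k‖ ^ 3 := fun k x => rfl
  have hterm : ∀ i x, 0 ≤ c i * ‖x - b i‖ ^ 3 := fun i x => by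
    have := (hcpos i).le
    positivity
  have hFφ : ∀ k x, F x ≤ φ k x := fun k x => by
    rw [hφeq]
    have := Finset.sum_nonneg (s := Finset.range k) (fun i _ => hterm i x)
    linarith
  have hmono : ∀ x, Monotone (fun k => φ k x) := fun x =>
    monotone_nat_of_le_succ (fun k => by
      show φ k x ≤ φ (k + 1) x
      rw [hφsucc]; have := hterm k x; linarith)
  have hspec : ∀ k, b k ∈ K ∧ ∀ y ∈ K, φ k (b k) ≤ φ k y + ε k := fun k =>
    pick_spec K (φ k) (ε k) hKne (hεpos k) (by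
      obtain ⟨m, hm⟩ := hbdd
      exact ⟨m, fun x hx => (hm x hx).trans (hFφ k x)⟩)
  have hεle : ∀ k, ε (k + 1) ≤ ε k := by
    intro k
    have h1 : c (k + 1) ≤ c k := by
      simp only [hc]
      gcongr <;> norm_num
    have h2 : ((1 : ℝ) / 8) ^ (k + 1) ≤ (1 / 8) ^ k :=
      pow_le_pow_of_le_one (by norm_num) (by norm_num) (Nat.le_succ k)
    have := (hcpos k).le
    simp only [hε]
    gcongr
  have hdist : ∀ k, dist (b k) (b (k + 1)) ≤ 2 * (1 / 2) ^ k := by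
    intro k
    have h1 := (hspec (k + 1)).2 (b k) (hspec k).1
    have h2 := (hspec k).2 (b (k + 1)) (hspec (k + 1)).1
    rw [hφsucc, hφsucc, sub_self, norm_zero] at h1
    have h3 : c k * ‖b (k + 1) - b k‖ ^ 3 ≤ 2 * ε k := by
      have := hεle k
      nlinarith
    have h4 : ‖b (k + 1) - b k‖ ^ 3 ≤ 2 * (1 / 8) ^ k := by
      have h5 : c k * ‖b (k + 1) - b k‖ ^ 3 ≤ c k * (2 * (1 / 8) ^ k) := by
        refine h3.trans (le_of_eq ?_)
        simp only [hε]; ring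
      exact le_of_mul_le_mul_left h5 (hcpos k)
    rw [dist_comm, dist_eq_norm]
    by_contra hcon
    rw [not_le] at hcon
    have h6 : (2 * (1 / 2 : ℝ) ^ k) ^ 3 < ‖b (k + 1) - b k‖ ^ 3 :=
      pow_lt_pow_left₀ hcon (by positivity) (by norm_num)
    have h7 : (2 * (1 / 2 : ℝ) ^ k) ^ 3 = 8 * (1 / 8) ^ k := by
      rw [mul_pow, ← pow_mul, mul_comm k 3, pow_mul]; norm_num
    have h8 : (0 : ℝ) < (1 / 8) ^ k := by positivity
    rw [h7] at h6
    linarith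
  have hcauchy : CauchySeq b := cauchySeq_of_le_geometric (1 / 2) 2 (by norm_num) hdist
  obtain ⟨z, hz⟩ := cauchySeq_tendsto_of_complete hcauchy
  have hzK : z ∈ K := hKc.mem_of_tendsto hz (Eventually.of_forall (fun k => (hspec k).1))
  have hsummable : ∀ x ∈ K, Summable (fun i => c i * ‖x - b i‖ ^ 3) := by
    intro x hx
    refine Summable.of_nonneg_of_le (fun i => hterm i x) (fun i => ?_)
      (hcsum.summable.mul_right ((2 * D) ^ 3))
    have h1 : ‖x - b i‖ ≤ 2 * D := by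
      have h2 : ‖x - x₀‖ ≤ D := by rw [← dist_eq_norm]; exact hx
      have h3 : ‖b i - x₀‖ ≤ D := by rw [← dist_eq_norm]; exact (hspec i).1
      calc ‖x - b i‖ = ‖(x - x₀) - (b i - x₀)‖ := by congr 1; abel
        _ ≤ ‖x - x₀‖ + ‖b i - x₀‖ := norm_sub_le _ _
        _ ≤ 2 * D := by linarith
    have := (hcpos i).le
    gcongr
  have hφlim : ∀ x ∈ K, Tendsto (fun k => φ k x) atTop (𝓝 (F x + ∑' i, c i * ‖x - b i‖ ^ 3)) := by
    intro x hx
    have h1 := (hsummable x hx).hasSum.tendsto_sum_nat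
    have h2 := h1.const_add (F x)
    exact h2.congr (fun k => (hφeq k x).symm)
  refine ⟨c, b, z, fun i => (hcpos i).le, hcsum, fun i => (hspec i).1, hzK, fun x hx => ?_⟩
  have hεlim : Tendsto ε atTop (𝓝 0) := by
    have h1 : Tendsto (fun k : ℕ => θ * (1 / 8 : ℝ) ^ k) atTop (𝓝 0) := by
      have := (tendsto_pow_atTop_nhds_zero_of_lt_one (r := (1 / 8 : ℝ)) (by norm_num)
        (by norm_num)).const_mul θ
      simpa using this
    refine squeeze_zero (fun k => (hεpos k).le) (fun k => ?_) h1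
    have h2 : c k ≤ θ := by
      have := hcsum.summable.sum_le_tsum {k} (fun i _ => (hcpos i).le)
      rw [hcsum.tsum_eq, Finset.sum_singleton] at this
      exact this
    simp only [hε]
    gcongr
  refine le_of_tendsto (hφlim z hzK) (Eventually.of_forall (fun j => ?_))
  -- `φ j z ≤ Φ x`
  have hcontj : ContinuousOn (φ j) K := by
    have : (φ j) = fun x => F x + ∑ i ∈ Finset.range j, c i * ‖x - b i‖ ^ 3 :=
      funext (fun x => hφeq j x)
    rw [this]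
    refine hF.add (Continuous.continuousOn ?_)
    refine continuous_finsetSum _ (fun i _ => ?_)
    fun_prop
  have hlim1 : Tendsto (fun k => φ j (b k)) atTop (𝓝 (φ j z)) := by
    have h1 : Tendsto b atTop (𝓝[K] z) :=
      tendsto_nhdsWithin_iff.2 ⟨hz, Eventually.of_forall (fun k => (hspec k).1)⟩
    exact (hcontj z hzK).tendsto.comp h1
  have hlim2 : Tendsto (fun k => (F x + ∑' i, c i * ‖x - b i‖ ^ 3) + ε k) atTop
      (𝓝 (F x + ∑' i, c i * ‖x - b i‖ ^ 3)) := by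
    have := hεlim.const_add (F x + ∑' i, c i * ‖x - b i‖ ^ 3)
    simpa using this
  refine le_of_tendsto_of_tendsto hlim1 hlim2 ?_
  filter_upwards [eventually_ge_atTop j] with k hk
  have h1 : φ j (b k) ≤ φ k (b k) := hmono (b k) hk
  have h2 := (hspec k).2 x hx
  have h3 : φ k x ≤ F x + ∑' i, c i * ‖x - b i‖ ^ 3 := by
    rw [hφeq]
    have := (hsummable x hx).sum_le_tsum (Finset.range k) (fun i _ => hterm i x)
    linarith
  linarith

/-- Upper second order expansion of the perturbation. -/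
theorem pert_upper (c : ℕ → ℝ) (b : ℕ → X3) (z : X3) (θ D : ℝ) (hc : ∀ i, 0 ≤ c i)
    (hsum : HasSum c θ) (hD : 0 ≤ D) (hb : ∀ i, ‖z - b i‖ ≤ D) :
    ∃ (Λ : X3 →L[ℝ] ℝ) (w : X3), ‖Λ‖ ≤ 3 * θ * D ^ 2 ∧ ‖w‖ ≤ 3 * θ * D ∧ ∀ v,
      ∑' i, c i * ‖z + v - b i‖ ^ 3 ≤ ∑' i, c i * ‖z - b i‖ ^ 3 + Λ v + M w v v + θ * ‖v‖ ^ 3 := by
  have hw0 : ∀ i, ‖(3 * c i) • absX (z - b i)‖ ≤ (3 * D) * c i := by
    intro i
    rw [norm_smul, norm_absX, Real.norm_eq_abs, abs_of_nonneg (by have := hc i; linarith)]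
    have := hb i
    have := hc i
    nlinarith
  have hw : Summable (fun i => (3 * c i) • absX (z - b i)) :=
    Summable.of_norm_bounded (hsum.summable.mul_left (3 * D)) hw0
  have hΛ0 : ∀ i, ‖(3 * c i) • M (absX (z - b i)) (z - b i)‖ ≤ (3 * D ^ 2) * c i := by
    intro i
    rw [norm_smul, Real.norm_eq_abs, abs_of_nonneg (by have := hc i; linarith)]
    have h1 : ‖M (absX (z - b i)) (z - b i)‖ ≤ D ^ 2 := by
      refine ContinuousLinearMap.opNorm_le_bound _ (by positivity) (fun v => ?_)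
      rw [Real.norm_eq_abs]
      refine (abs_M_le _ _ _).trans ?_
      rw [norm_absX]
      have := hb i
      have h2 : ‖z - b i‖ * ‖z - b i‖ ≤ D ^ 2 := by nlinarith [norm_nonneg (z - b i)]
      exact mul_le_mul_of_nonneg_right h2 (norm_nonneg _)
    have := hc i
    calc 3 * c i * ‖M (absX (z - b i)) (z - b i)‖ ≤ 3 * c i * D ^ 2 := by gcongr
      _ = _ := by ring
  have hΛ : Summable (fun i => (3 * c i) • M (absX (z - b i)) (z - b i)) :=
    Summable.of_norm_bounded (hsum.summable.mul_left (3 * D ^ 2)) hΛ0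
  refine ⟨∑' i, (3 * c i) • M (absX (z - b i)) (z - b i), ∑' i, (3 * c i) • absX (z - b i),
    ?_, ?_, fun v => ?_⟩
  · have := tsum_of_norm_bounded (hsum.mul_left (3 * D ^ 2)) hΛ0
    refine this.trans (le_of_eq (by ring))
  · have := tsum_of_norm_bounded (hsum.mul_left (3 * D)) hw0
    refine this.trans (le_of_eq (by ring))
  · have hs0 : ∀ (u : X3) (E : ℝ), (∀ i, ‖u - b i‖ ≤ E) → Summable (fun i => c i * ‖u - b i‖ ^ 3) := by
      intro u E hE
      refine Summable.of_nonneg_of_le (fun i => by have := hc i; positivity) (fun i => ?_)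
        (hsum.summable.mul_right (E ^ 3))
      have h1 := hc i
      have h2 := hE i
      gcongr
    have hs1 : Summable (fun i => c i * ‖z + v - b i‖ ^ 3) :=
      hs0 (z + v) (D + ‖v‖) (fun i => by
        have : z + v - b i = (z - b i) + v := by abel
        rw [this]
        exact (norm_add_le _ _).trans (by have := hb i; linarith))
    have hs2 : Summable (fun i => c i * ‖z - b i‖ ^ 3) := hs0 z D hb
    have hΛv : HasSum (fun i => 3 * c i * M (absX (z - b i)) (z - b i) v)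
        ((∑' i, (3 * c i) • M (absX (z - b i)) (z - b i)) v) := by
      have h1 := (ContinuousLinearMap.apply ℝ ℝ v).hasSum hΛ.hasSum
      simpa [mul_assoc] using h1
    have hwv : HasSum (fun i => 3 * c i * M (absX (z - b i)) v v)
        (M (∑' i, (3 * c i) • absX (z - b i)) v v) := by
      have h1 := M.hasSum hw.hasSum
      have h2 := (ContinuousLinearMap.apply ℝ (X3 →L[ℝ] ℝ) v).hasSum h1
      have h3 := (ContinuousLinearMap.apply ℝ ℝ v).hasSum h2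
      simpa [mul_assoc] using h3
    refine hasSum_le (fun i => ?_) hs1.hasSum
      (((hs2.hasSum.add hΛv).add hwv).add (hsum.mul_right (‖v‖ ^ 3)))
    have h1 := cube_taylor_le (z - b i) v
    have h2 : z + v - b i = (z - b i) + v := by abel
    rw [h2]
    have h3 := mul_le_mul_of_nonneg_left h1 (hc i)
    refine h3.trans (le_of_eq ?_)
    ring

end Pool.Agent.Lib.MP_b5ab38_an
end

section

set_option autoImplicit false
set_option maxSynthPendingDepth 3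

/-!
# The asymptotic inequalities
-/

namespace Pool.Agent.Lib.MP_b5ab38_an

open scoped Topology ENNReal
open Set Filter

/-- The unit vectors of `ℓ_3`. -/
noncomputable def e3 (n : ℕ) : X3 := lp.single 3 n (1 : ℝ)

theorem norm_e3 (n : ℕ) : ‖e3 n‖ = 1 := by
  rw [e3, lp.norm_single (by norm_num)]; simp

theorem e3_self (n : ℕ) : e3 n n = 1 := by
  rw [e3, lp.single_apply, Pi.single_eq_same]

theorem e3_ne (n i : ℕ) (h : i ≠ n) : e3 n i = 0 := by
  rw [e3, lp.single_apply, Pi.single_apply, if_neg h]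

theorem null_e3 (l : Filter ℕ) (hl : l ≤ atTop) : Null l e3 := by
  refine ⟨⟨1, fun n => (norm_e3 n).le⟩, fun i => ?_⟩
  have h : ∀ᶠ n in l, i < n := hl (eventually_gt_atTop i)
  refine tendsto_const_nhds.congr' ?_
  filter_upwards [h] with n hn
  exact (e3_ne n i hn.ne).symm

theorem tendsto_coord (w : X3) (l : Filter ℕ) (hl : l ≤ atTop) :
    Tendsto (fun n => w n) l (𝓝 0) := by
  have h := tendsto_M w (a := e3) ⟨1, fun n => (norm_e3 n).le⟩ (null_e3 l hl)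
  refine h.congr (fun n => ?_)
  rw [M_apply, tsum_eq_single n]
  · rw [e3_self]; ring
  · intro j hj
    rw [e3_ne n j hj]; ring

theorem seq_core (T : X3 →L[ℝ] X3 →L[ℝ] X3 →L[ℝ] ℝ) (hT1 : ∀ a b c, T a b c = T b a c)
    (hT2 : ∀ a b c, T a b c = T a c b) (Bh Bt : X3 →L[ℝ] X3 →L[ℝ] ℝ) (κ C r τ : ℝ)
    (hκ : 0 < κ) (hC : 0 ≤ C) (hr : 0 ≤ r) (z₁ z₂ : ℕ → X3)
    (hz₁ : ∀ n, ‖z₁ n‖ ≤ r) (hz₂ : ∀ n, ‖z₂ n‖ ≤ r) (θ : ℕ → ℝ)
    (hθ : Tendsto θ atTop (𝓝 0)) (hθ0 : ∀ n, 0 ≤ θ n)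
    (hE1 : ∀ n w, |3 * T (z₁ n) (z₁ n) w + Bh (z₁ n) w - 3 * κ * M (absX (z₁ n)) (z₁ n) w
      - τ * w n| ≤ (C * r ^ 3 + θ n) * ‖w‖)
    (hE2 : ∀ n w, |3 * T (z₂ n) (z₂ n) w + Bh (z₂ n) w - 3 * κ * M (absX (z₂ n)) (z₂ n) w
      + τ * w n| ≤ (C * r ^ 3 + θ n) * ‖w‖)
    (hS2 : ∀ n v, 3 * κ * M (absX (z₂ n)) v v - (C * r ^ 2 + θ n) * ‖v‖ ^ 2
      ≤ 3 * T (z₂ n) v v + Bt v v)
    (hM2 : ∀ n, κ * ‖z₂ n‖ ^ 3 ≤ -(τ * (z₂ n) n) + θ n) :
    ∃ s, 0 ≤ s ∧ κ * s ^ 3 ≤ 6 * C * r ^ 4 ∧ τ ≤ 3 * (‖T‖ + κ) * s ^ 2 + C * r ^ 3 := by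
  set l : Ultrafilter ℕ := hyperfilter ℕ with hl
  have hltop : (l : Filter ℕ) ≤ atTop := by
    rw [hl]; exact Nat.hyperfilter_le_atTop
  have hθl : Tendsto θ l (𝓝 0) := hθ.mono_left hltop
  obtain ⟨w₁, hw₁, hlim₁⟩ := exists_weak_limit l z₁ r hz₁
  obtain ⟨w₂, hw₂, hlim₂⟩ := exists_weak_limit l z₂ r hz₂
  set u₁ : ℕ → X3 := fun n => z₁ n - w₁ with hu₁
  set u₂ : ℕ → X3 := fun n => z₂ n - w₂ with hu₂
  have hn₁ : Null (l : Filter ℕ) u₁ := null_sub r hz₁ hlim₁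
  have hn₂ : Null (l : Filter ℕ) u₂ := null_sub r hz₂ hlim₂
  have hne : Null (l : Filter ℕ) e3 := null_e3 l hltop
  have hb₁ : ∀ n, ‖u₁ n‖ ≤ 2 * r := fun n => (norm_sub_le _ _).trans (by
    have := hz₁ n; linarith)
  have hb₂ : ∀ n, ‖u₂ n‖ ≤ 2 * r := fun n => (norm_sub_le _ _).trans (by
    have := hz₂ n; linarith)
  have hz₁eq : ∀ n, z₁ n = w₁ + u₁ n := fun n => by simp only [hu₁]; abel
  have hz₂eq : ∀ n, z₂ n = w₂ + u₂ n := fun n => by simp only [hu₂]; abel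
  -- the limit of the norms
  obtain ⟨s, hs0, hs⟩ : ∃ s, 0 ≤ s ∧ Tendsto (fun n => ‖u₂ n‖) l (𝓝 s) := by
    have hK : IsCompact (Icc (0 : ℝ) (2 * r)) := isCompact_Icc
    have hmem : Icc (0 : ℝ) (2 * r) ∈ (l.map (fun n => ‖u₂ n‖)) := by
      refine Filter.mem_map.2 (Filter.univ_mem' (fun n => ?_))
      exact ⟨norm_nonneg _, hb₂ n⟩
    obtain ⟨c, hcm, hc⟩ := hK.ultrafilter_le_nhds' _ hmem
    exact ⟨c, hcm.1, hc⟩
  refine ⟨s, hs0, ?_, ?_⟩
  · -- first inequality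
    have p1 : Tendsto (fun n => T w₁ w₁ (u₂ n)) l (𝓝 0) := tendsto_functional _ hn₂
    have p2 : Tendsto (fun n => T w₁ (u₁ n) (u₂ n)) l (𝓝 0) := tendsto_bilin _ hn₁ hn₂
    have p3 : Tendsto (fun n => Bh w₁ (u₂ n)) l (𝓝 0) := tendsto_functional _ hn₂
    have p4 : Tendsto (fun n => Bh (u₁ n) (u₂ n)) l (𝓝 0) := tendsto_bilin _ hn₁ hn₂
    have p5 := tendsto_M_abs₁ w₁ hn₂
    have p6 := tendsto_M_abs₂ w₁ hn₁.bdd hn₂
    have p7 := tendsto_M_abs₁ w₂ hn₂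
    have p8 := tendsto_M_abs₂ w₂ hn₂.bdd hn₂
    have p9 := tendsto_M_abs₂ w₂ hn₁.bdd hn₁
    have p10 : Tendsto (fun n => Bt (u₁ n) (u₁ n)) l (𝓝 0) := tendsto_bilin _ hn₁ hn₁
    have p11 : Tendsto (fun n => T w₂ (u₁ n) (u₁ n)) l (𝓝 0) := tendsto_bilin _ hn₁ hn₁
    have p12 : Tendsto (fun n => w₂ n) l (𝓝 0) := tendsto_coord w₂ l hltop
    set err : ℕ → ℝ := fun n =>
      κ * (3 * M (absX w₂) (absX w₂) (absX (u₂ n)) + 3 * M (absX w₂) (absX (u₂ n)) (absX (u₂ n)))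
      - τ * w₂ n + θ n - 3 * (T w₁ w₁ (u₂ n) + 2 * T w₁ (u₁ n) (u₂ n)) - Bh w₁ (u₂ n)
      - Bh (u₁ n) (u₂ n)
      + 3 * κ * (2 * M (absX w₁) (absX w₁) (absX (u₂ n))
          + 2 * M (absX w₁) (absX (u₁ n)) (absX (u₂ n)))
      + 2 * r * θ n + 4 * r ^ 2 * θ n + 3 * κ * M (absX w₂) (absX (u₁ n)) (absX (u₁ n))
      + Bt (u₁ n) (u₁ n) + 3 * T w₂ (u₁ n) (u₁ n) with herr
    have herr0 : Tendsto err l (𝓝 0) := by
      have h := ((((((((((((p7.const_mul 3).add (p8.const_mul 3)).const_mul κ).sub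
        (p12.const_mul τ)).add hθl).sub ((p1.add (p2.const_mul 2)).const_mul 3)).sub p3).sub
        p4).add (((p5.const_mul 2).add (p6.const_mul 2)).const_mul (3 * κ))).add
        (hθl.const_mul (2 * r))).add (hθl.const_mul (4 * r ^ 2))).add
        (p9.const_mul (3 * κ))).add p10 |>.add (p11.const_mul 3)
      simpa only [mul_zero, add_zero, sub_zero, zero_add] using h
    have hineq : ∀ n, κ * ‖u₂ n‖ ^ 3 ≤ 6 * C * r ^ 4 + err n := by
      intro n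
      have h1 := hM2 n
      have h2 := cube_add_ge w₂ (u₂ n)
      rw [← hz₂eq n] at h2
      have h3 : z₂ n n = w₂ n + u₂ n n := by rw [hz₂eq n]; rfl
      have h4 := (abs_le.1 (hE1 n (u₂ n))).2
      have h5 : (C * r ^ 3 + θ n) * ‖u₂ n‖ ≤ (C * r ^ 3 + θ n) * (2 * r) := by
        have := hθ0 n
        have := hb₂ n
        have : 0 ≤ C * r ^ 3 + θ n := by positivity
        gcongr
      have h6 : T (z₁ n) (z₁ n) (u₂ n) = T w₁ w₁ (u₂ n) + 2 * T w₁ (u₁ n) (u₂ n)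
          + T (u₁ n) (u₁ n) (u₂ n) := by
        rw [hz₁eq n]
        simp only [map_add, _root_.add_apply]
        rw [hT1 (u₁ n) w₁ (u₂ n)]
        ring
      have h7 : Bh (z₁ n) (u₂ n) = Bh w₁ (u₂ n) + Bh (u₁ n) (u₂ n) := by
        rw [hz₁eq n]
        simp only [map_add, _root_.add_apply]
      have h8 := (abs_le.1 (J_diff w₁ (u₁ n) (u₂ n))).2
      rw [← hz₁eq n] at h8
      have h9 := hS2 n (u₁ n)
      have h10 : (C * r ^ 2 + θ n) * ‖u₁ n‖ ^ 2 ≤ (C * r ^ 2 + θ n) * (4 * r ^ 2) := by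
        have h0 := hθ0 n
        have h1 := hb₁ n
        have h2 : ‖u₁ n‖ ^ 2 ≤ (2 * r) ^ 2 := pow_le_pow_left₀ (norm_nonneg _) h1 2
        have h3 : 0 ≤ C * r ^ 2 + θ n := by positivity
        have h4 : (2 * r) ^ 2 = 4 * r ^ 2 := by ring
        rw [← h4]
        gcongr
      have h11 := G_diff w₂ (u₂ n) (u₁ n)
      rw [← hz₂eq n] at h11
      have h12 : T (z₂ n) (u₁ n) (u₁ n) = T w₂ (u₁ n) (u₁ n) + T (u₁ n) (u₁ n) (u₂ n) := by
        rw [hz₂eq n]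
        simp only [map_add, _root_.add_apply]
        rw [hT1 (u₂ n) (u₁ n) (u₁ n), hT2 (u₁ n) (u₂ n) (u₁ n)]
      have h13 := J_le_G (u₁ n) (u₂ n)
      rw [h6, h7] at h4
      rw [h12] at h9
      rw [h3] at h1
      have h14 : κ * (‖u₂ n‖ ^ 3 - 3 * M (absX w₂) (absX w₂) (absX (u₂ n))
          - 3 * M (absX w₂) (absX (u₂ n)) (absX (u₂ n))) ≤ κ * ‖z₂ n‖ ^ 3 :=
        mul_le_mul_of_nonneg_left h2 hκ.le
      have h15 : 3 * κ * M (absX (z₁ n)) (z₁ n) (u₂ n) ≤ 3 * κ * (M (absX (u₁ n)) (u₁ n) (u₂ n)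
          + (2 * M (absX w₁) (absX w₁) (absX (u₂ n))
          + 2 * M (absX w₁) (absX (u₁ n)) (absX (u₂ n)))) :=
        mul_le_mul_of_nonneg_left (by linarith) (by positivity)
      have h16 : 3 * κ * (M (absX (u₂ n)) (u₁ n) (u₁ n)
          - M (absX w₂) (absX (u₁ n)) (absX (u₁ n))) ≤ 3 * κ * M (absX (z₂ n)) (u₁ n) (u₁ n) :=
        mul_le_mul_of_nonneg_left h11 (by positivity)
      have h17 : 3 * κ * M (absX (u₁ n)) (u₁ n) (u₂ n) ≤ 3 * κ * M (absX (u₂ n)) (u₁ n) (u₁ n) :=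
        mul_le_mul_of_nonneg_left h13 (by positivity)
      simp only [herr]
      linarith
    have hlimL : Tendsto (fun n => κ * ‖u₂ n‖ ^ 3) l (𝓝 (κ * s ^ 3)) := (hs.pow 3).const_mul κ
    have hlimR : Tendsto (fun n => 6 * C * r ^ 4 + err n) l (𝓝 (6 * C * r ^ 4 + 0)) :=
      herr0.const_add _
    rw [add_zero] at hlimR
    exact le_of_tendsto_of_tendsto' hlimL hlimR hineq
  · -- second inequality
    have q1 : Tendsto (fun n => T w₂ w₂ (e3 n)) l (𝓝 0) := tendsto_functional _ hne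
    have q2 : Tendsto (fun n => T w₂ (u₂ n) (e3 n)) l (𝓝 0) := tendsto_bilin _ hn₂ hne
    have q3 : Tendsto (fun n => Bh w₂ (e3 n)) l (𝓝 0) := tendsto_functional _ hne
    have q4 : Tendsto (fun n => Bh (u₂ n) (e3 n)) l (𝓝 0) := tendsto_bilin _ hn₂ hne
    have q5 := tendsto_M_abs₁ w₂ hne
    have q6 := tendsto_M_abs₂ w₂ hn₂.bdd hne
    set err : ℕ → ℝ := fun n =>
      -(3 * (T w₂ w₂ (e3 n) + 2 * T w₂ (u₂ n) (e3 n))) - Bh w₂ (e3 n) - Bh (u₂ n) (e3 n)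
      + 3 * κ * (2 * M (absX w₂) (absX w₂) (absX (e3 n))
        + 2 * M (absX w₂) (absX (u₂ n)) (absX (e3 n))) + θ n with herr
    have herr0 : Tendsto err l (𝓝 0) := by
      have h := ((((((q1.add (q2.const_mul 2)).const_mul 3).neg).sub q3).sub q4).add
        (((q5.const_mul 2).add (q6.const_mul 2)).const_mul (3 * κ))).add hθl
      simpa only [mul_zero, add_zero, sub_zero, zero_add, neg_zero] using h
    have hineq : ∀ n, τ ≤ (3 * (‖T‖ + κ) * ‖u₂ n‖ ^ 2 + C * r ^ 3) + err n := by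
      intro n
      have h4 := (abs_le.1 (hE2 n (e3 n))).2
      rw [e3_self, norm_e3, mul_one, mul_one] at h4
      have h6 : T (z₂ n) (z₂ n) (e3 n) = T w₂ w₂ (e3 n) + 2 * T w₂ (u₂ n) (e3 n)
          + T (u₂ n) (u₂ n) (e3 n) := by
        rw [hz₂eq n]
        simp only [map_add, _root_.add_apply]
        rw [hT1 (u₂ n) w₂ (e3 n)]
        ring
      have h7 : Bh (z₂ n) (e3 n) = Bh w₂ (e3 n) + Bh (u₂ n) (e3 n) := by
        rw [hz₂eq n]
        simp only [map_add, _root_.add_apply]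
      have h8 := (abs_le.1 (J_diff w₂ (u₂ n) (e3 n))).2
      rw [← hz₂eq n] at h8
      have h9 : -(‖T‖ * ‖u₂ n‖ ^ 2) ≤ T (u₂ n) (u₂ n) (e3 n) := by
        have h10 : |T (u₂ n) (u₂ n) (e3 n)| ≤ ‖T‖ * ‖u₂ n‖ ^ 2 := by
          have h11 := (T (u₂ n) (u₂ n)).le_opNorm (e3 n)
          have h12 := T.le_opNorm₂ (u₂ n) (u₂ n)
          rw [norm_e3, mul_one, Real.norm_eq_abs] at h11
          refine h11.trans (h12.trans (le_of_eq ?_))
          ring
        exact (abs_le.1 h10).1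
      have h10 : M (absX (u₂ n)) (u₂ n) (e3 n) ≤ ‖u₂ n‖ ^ 2 := by
        have h11 := (le_abs_self _).trans (abs_M_le (absX (u₂ n)) (u₂ n) (e3 n))
        rw [norm_absX, norm_e3, mul_one] at h11
        refine h11.trans (le_of_eq ?_)
        ring
      have h11 : 3 * κ * M (absX (z₂ n)) (z₂ n) (e3 n) ≤ 3 * κ * (‖u₂ n‖ ^ 2
          + (2 * M (absX w₂) (absX w₂) (absX (e3 n))
          + 2 * M (absX w₂) (absX (u₂ n)) (absX (e3 n)))) :=
        mul_le_mul_of_nonneg_left (by linarith) (by positivity)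
      rw [h6, h7] at h4
      simp only [herr]
      linarith
    have hlimR : Tendsto (fun n => (3 * (‖T‖ + κ) * ‖u₂ n‖ ^ 2 + C * r ^ 3) + err n) l
        (𝓝 ((3 * (‖T‖ + κ) * s ^ 2 + C * r ^ 3) + 0)) :=
      (((hs.pow 2).const_mul (3 * (‖T‖ + κ))).add_const _).add herr0
    rw [add_zero] at hlimR
    exact ge_of_tendsto' hlimR hineq

end Pool.Agent.Lib.MP_b5ab38_an
end

section

set_option autoImplicit false
set_option maxSynthPendingDepth 3

/-!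
# Touching points and perturbed minimisers
-/

namespace Pool.Agent.Lib.MP_b5ab38_an

open scoped Topology ENNReal
open Set Filter

theorem nonneg_of_small (a Q δ : ℝ) (hδ : 0 < δ) (h : ∀ t, 0 < t → t ≤ δ → 0 ≤ a + t * Q) :
    0 ≤ a := by
  by_contra hneg
  rw [not_le] at hneg
  have hpos : 0 < min δ (-a / (2 * (|Q| + 1))) := by
    refine lt_min hδ ?_
    have : 0 < -a := by linarith
    positivity
  have h1 := h _ hpos (min_le_left _ _)
  have h2 : min δ (-a / (2 * (|Q| + 1))) * Q ≤ min δ (-a / (2 * (|Q| + 1))) * (|Q| + 1) := by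
    have := le_abs_self Q
    gcongr
    linarith
  have h3 : min δ (-a / (2 * (|Q| + 1))) * (|Q| + 1) ≤ (-a / (2 * (|Q| + 1))) * (|Q| + 1) := by
    gcongr
    exact min_le_right _ _
  have h4 : (-a / (2 * (|Q| + 1))) * (|Q| + 1) = -a / 2 := by
    field_simp
  linarith

/-- First and second order conditions at a point where `f` has a quadratic minorant with cubic
error. -/
theorem touch_conditions {X : Type*} [NormedAddCommGroup X] [NormedSpace ℝ X] (f : X → ℝ) (x : X)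
    (L : X →L[ℝ] ℝ) (E : X →L[ℝ] X →L[ℝ] ℝ)
    (C δ : ℝ) (hδ : 0 < δ) (hmin : ∀ z, ‖z‖ ≤ δ → f x + L z + E z z - C * ‖z‖ ^ 3 ≤ f (x + z))
    (Lx : X →L[ℝ] ℝ) (Bx : X →L[ℝ] X →L[ℝ] ℝ) (Tx : X →L[ℝ] X →L[ℝ] X →L[ℝ] ℝ)
    (hPE : PE f x Lx Bx Tx) : Lx = L ∧ ∀ v, E v v ≤ Bx v v := by
  have key : ∀ v : X, ∃ δ' Q : ℝ, 0 < δ' ∧ δ' ≤ 1 ∧ ∀ t, 0 < t → t ≤ δ' →
      0 ≤ t * (Lx v - L v) + t ^ 2 * (Bx v v - E v v) + t ^ 3 * Q := by
    intro v
    obtain ⟨K, δ1, hδ1, hK⟩ := hPE v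
    refine ⟨min (min δ1 1) (δ / (‖v‖ + 1)), Tx v v v + |K| + |C| * ‖v‖ ^ 3, by positivity,
      (min_le_left _ _).trans (min_le_right _ _), fun t ht ht' => ?_⟩
    have h1 : t ≤ δ1 := ht'.trans ((min_le_left _ _).trans (min_le_left _ _))
    have h2 : t ≤ 1 := ht'.trans ((min_le_left _ _).trans (min_le_right _ _))
    have h3 : t * ‖v‖ ≤ δ := by
      have h4 : t ≤ δ / (‖v‖ + 1) := ht'.trans (min_le_right _ _)
      rw [le_div_iff₀ (by positivity)] at h4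
      nlinarith [norm_nonneg v]
    have h5 := hmin (t • v) (by rw [norm_smul, Real.norm_eq_abs, abs_of_pos ht]; exact h3)
    have h6 := hK t (by rw [abs_of_pos ht]; exact h1)
    rw [norm_smul, Real.norm_eq_abs, abs_of_pos ht] at h5
    simp only [map_smul, _root_.smul_apply, smul_eq_mul] at h5
    have h7 := (abs_le.1 h6).2
    have h8 : K * t ^ 4 ≤ |K| * t ^ 3 := by
      have h9 : t ^ 4 ≤ t ^ 3 := pow_le_pow_of_le_one ht.le h2 (by norm_num)
      have h10 := le_abs_self K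
      have h11 := abs_nonneg K
      calc K * t ^ 4 ≤ |K| * t ^ 4 := by gcongr
        _ ≤ |K| * t ^ 3 := by gcongr
    have h9 : C * (t * ‖v‖) ^ 3 ≤ |C| * (t * ‖v‖) ^ 3 := by
      have h10 := le_abs_self C
      gcongr
    nlinarith
  have hge : ∀ v, 0 ≤ Lx v - L v := by
    intro v
    obtain ⟨δ', Q, hδ', hδ1, h⟩ := key v
    refine nonneg_of_small _ (|Bx v v - E v v| + |Q|) δ' hδ' (fun t ht ht' => ?_)
    have h1 := h t ht ht'
    have h2 : t ^ 2 * (Bx v v - E v v) ≤ t ^ 2 * |Bx v v - E v v| := by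
      have := le_abs_self (Bx v v - E v v)
      gcongr
    have h3 : t ^ 3 * Q ≤ t ^ 2 * |Q| := by
      have h4 : t ^ 3 ≤ t ^ 2 := pow_le_pow_of_le_one ht.le (ht'.trans hδ1) (by norm_num)
      have := le_abs_self Q
      calc t ^ 3 * Q ≤ t ^ 3 * |Q| := by gcongr
        _ ≤ t ^ 2 * |Q| := by gcongr
    have h4 : 0 ≤ t * ((Lx v - L v) + t * (|Bx v v - E v v| + |Q|)) := by nlinarith
    exact nonneg_of_mul_nonneg_right h4 ht
  have hL : ∀ v, Lx v = L v := by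
    intro v
    have h1 := hge v
    have h2 := hge (-v)
    rw [map_neg, map_neg] at h2
    linarith
  refine ⟨ContinuousLinearMap.ext hL, fun v => ?_⟩
  obtain ⟨δ', Q, hδ', hδ1, h⟩ := key v
  have : 0 ≤ Bx v v - E v v := by
    refine nonneg_of_small _ Q δ' hδ' (fun t ht ht' => ?_)
    have h1 := h t ht ht'
    rw [hL v, sub_self, mul_zero, zero_add] at h1
    have h4 : 0 ≤ t ^ 2 * ((Bx v v - E v v) + t * Q) := by nlinarith
    exact nonneg_of_mul_nonneg_right h4 (by positivity)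
  linarith

/-- `x` is a touching point of `f`: a quadratic minorant with a cubic gain. -/
def Touch (f : X3 → ℝ) (x : X3) (L : X3 →L[ℝ] ℝ) (B : X3 →L[ℝ] X3 →L[ℝ] ℝ) (κ δ : ℝ) : Prop :=
  0 < κ ∧ 0 < δ ∧ ∀ z, ‖z‖ ≤ δ → f x + L z - B z z + κ * ‖z‖ ^ 3 ≤ f (x + z)

theorem Touch.conditions {f : X3 → ℝ} {x : X3} {L : X3 →L[ℝ] ℝ} {B : X3 →L[ℝ] X3 →L[ℝ] ℝ}
    {κ δ : ℝ} (h : Touch f x L B κ δ)
    {Lx : X3 →L[ℝ] ℝ} {Bx : X3 →L[ℝ] X3 →L[ℝ] ℝ} {Tx : X3 →L[ℝ] X3 →L[ℝ] X3 →L[ℝ] ℝ}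
    (hPE : PE f x Lx Bx Tx) : Lx = L := by
  refine (touch_conditions f x L (-B) 0 δ h.2.1 (fun z hz => ?_) Lx Bx Tx hPE).1
  have h1 := h.2.2 z hz
  have h2 : 0 ≤ κ * ‖z‖ ^ 3 := by
    have := h.1
    positivity
  rw [_root_.neg_apply, _root_.neg_apply]
  linarith

/-- The perturbed minimisers near a touching point. -/
theorem perturb (f : X3 → ℝ) (hf : Continuous f) (x : X3) (L : X3 →L[ℝ] ℝ)
    (B : X3 →L[ℝ] X3 →L[ℝ] ℝ) (κ δ : ℝ) (hT : Touch f x L B (2 * κ) δ) (r : ℝ) (hr : 0 < r)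
    (hrδ : r < δ) (η : X3 →L[ℝ] ℝ) (hη : ∀ z, |η z| ≤ ‖z‖) (θ : ℝ) (hθ : 0 < θ)
    (hθ1 : θ ≤ κ / 8) (hθ2 : θ * δ ^ 3 ≤ 3 / 4 * κ * r ^ 3) :
    ∃ (z : X3) (Λ : X3 →L[ℝ] ℝ) (w : X3), ‖z‖ ≤ r ∧ ‖Λ‖ ≤ 12 * θ * δ ^ 2 ∧ ‖w‖ ≤ 6 * θ * δ ∧
      κ * ‖z‖ ^ 3 ≤ κ * r ^ 2 / 4 * η z + θ * δ ^ 3 ∧
      (∀ v, ‖v‖ ≤ δ - r → f (x + z)
        + (L v - B z v - B v z + 3 * κ * M (absX z) z v + κ * r ^ 2 / 4 * η v - Λ v)
        - (B v v + M w v v) + (κ / 8) * ‖v‖ ^ 3 ≤ f (x + z + v)) ∧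
      (∀ v, ‖v‖ ≤ δ - r → f (x + z)
        + (L v - B z v - B v z + 3 * κ * M (absX z) z v + κ * r ^ 2 / 4 * η v - Λ v)
        + (3 * κ * M (absX z) v v - B v v - M w v v) - (2 * κ) * ‖v‖ ^ 3 ≤ f (x + z + v)) := by
  obtain ⟨hκ2, hδ, hmin⟩ := hT
  have hκ : 0 < κ := by linarith
  set τ : ℝ := κ * r ^ 2 / 4 with hτ
  have hτ0 : 0 < τ := by positivity
  set F : X3 → ℝ := fun z => f (x + z) - L z + B z z - κ * ‖z‖ ^ 3 - τ * η z with hF
  have hFc : Continuous F := by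
    simp only [hF]
    have : Continuous fun z : X3 => B z z := by fun_prop
    fun_prop
  have hFlow : ∀ z, ‖z‖ ≤ δ → f x + κ * ‖z‖ ^ 3 - τ * η z ≤ F z := by
    intro z hz
    have := hmin z hz
    simp only [hF]
    linarith
  obtain ⟨c, b, z, hc, hsum, hb, hz, hzmin⟩ := exists_perturbed_min F 0 δ hδ.le hFc.continuousOn
    ⟨f x - τ * δ, fun z hz => by
      rw [mem_closedBall_zero_iff] at hz
      have h1 := hFlow z hz
      have h2 : η z ≤ δ := (le_abs_self _).trans ((hη z).trans hz)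
      have h3 : 0 ≤ κ * ‖z‖ ^ 3 := by positivity
      nlinarith⟩ θ hθ
  rw [mem_closedBall_zero_iff] at hz
  have hb' : ∀ i, ‖b i‖ ≤ δ := fun i => by
    have := hb i
    rwa [mem_closedBall_zero_iff] at this
  obtain ⟨Λ, w, hΛ, hw, hup⟩ := pert_upper c b z θ (2 * δ) hc hsum (by positivity)
    (fun i => (norm_sub_le _ _).trans (by have := hb' i; linarith))
  have hpert0 : ∑' i, c i * ‖0 - b i‖ ^ 3 ≤ θ * δ ^ 3 := by
    have h1 : ∀ i, c i * ‖0 - b i‖ ^ 3 ≤ c i * δ ^ 3 := fun i => by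
      have h2 := hb' i
      have h3 := hc i
      rw [zero_sub, norm_neg]
      gcongr
    have h2 : Summable fun i => c i * ‖0 - b i‖ ^ 3 :=
      Summable.of_nonneg_of_le (fun i => by have := hc i; positivity) h1
        (hsum.summable.mul_right _)
    exact hasSum_le h1 h2.hasSum (hsum.mul_right _)
  have hpertz : 0 ≤ ∑' i, c i * ‖z - b i‖ ^ 3 :=
    tsum_nonneg (fun i => by have := hc i; positivity)
  have hd : κ * ‖z‖ ^ 3 ≤ τ * η z + θ * δ ^ 3 := by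
    have h1 := hzmin 0 (Metric.mem_closedBall_self hδ.le)
    have h2 : F 0 = f x := by simp [hF]
    have h3 := hFlow z hz
    rw [h2] at h1
    linarith
  have hzr : ‖z‖ ≤ r := by
    by_contra hcon
    rw [not_le] at hcon
    have h1 : η z ≤ ‖z‖ := (le_abs_self _).trans (hη z)
    have h2 : τ * η z ≤ τ * ‖z‖ := by gcongr
    have h3 : r ^ 2 < ‖z‖ ^ 2 := pow_lt_pow_left₀ hcon hr.le (by norm_num)
    have h4 : r ^ 3 < ‖z‖ ^ 3 := pow_lt_pow_left₀ hcon hr.le (by norm_num)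
    have hzpos : 0 < ‖z‖ := hr.trans hcon
    have h5 : τ * ‖z‖ ≤ κ / 4 * ‖z‖ ^ 3 := by
      have e : κ / 4 * ‖z‖ ^ 3 = κ / 4 * ‖z‖ ^ 2 * ‖z‖ := by ring
      rw [e, hτ]
      have : κ * r ^ 2 / 4 ≤ κ / 4 * ‖z‖ ^ 2 := by nlinarith
      gcongr
    nlinarith
  have hlow : ∀ v, ‖v‖ ≤ δ - r → f (x + z)
      + (L v - B z v - B v z - B v v + κ * (‖z + v‖ ^ 3 - ‖z‖ ^ 3) + τ * η v)
      - (Λ v + M w v v + θ * ‖v‖ ^ 3) ≤ f (x + z + v) := by
    intro v hv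
    have hzv : ‖z + v‖ ≤ δ := (norm_add_le _ _).trans (by linarith)
    have h1 := hzmin (z + v) (by rw [mem_closedBall_zero_iff]; exact hzv)
    have h2 := hup v
    have h3 : F (z + v) = f (x + z + v) - (L z + L v) + (B z z + B z v + B v z + B v v)
        - κ * ‖z + v‖ ^ 3 - τ * (η z + η v) := by
      simp only [hF, map_add, _root_.add_apply]
      rw [show x + (z + v) = x + z + v from (add_assoc _ _ _).symm]
      ring
    have h4 : F z = f (x + z) - L z + B z z - κ * ‖z‖ ^ 3 - τ * η z := rfl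
    rw [h3, h4] at h1
    linarith
  refine ⟨z, Λ, w, hzr, hΛ.trans (le_of_eq (by ring)), hw.trans (le_of_eq (by ring)), hd, ?_, ?_⟩
  · intro v hv
    have h1 := hlow v hv
    have h2 := cube_lower z v
    have h3 : κ * (3 * M (absX z) z v + ‖v‖ ^ 3 / 4) ≤ κ * (‖z + v‖ ^ 3 - ‖z‖ ^ 3) :=
      mul_le_mul_of_nonneg_left (by linarith) hκ.le
    have h4 : θ * ‖v‖ ^ 3 ≤ κ / 8 * ‖v‖ ^ 3 := by gcongr
    linarith
  · intro v hv
    have h1 := hlow v hv
    have h2 := cube_taylor_ge z v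
    have h3 : κ * (3 * M (absX z) z v + 3 * M (absX z) v v - ‖v‖ ^ 3)
        ≤ κ * (‖z + v‖ ^ 3 - ‖z‖ ^ 3) :=
      mul_le_mul_of_nonneg_left (by linarith) hκ.le
    have h4 : θ * ‖v‖ ^ 3 ≤ κ / 8 * ‖v‖ ^ 3 := by gcongr
    have h5 : 0 ≤ κ * ‖v‖ ^ 3 := by positivity
    linarith

end Pool.Agent.Lib.MP_b5ab38_an
end

section

set_option autoImplicit false
set_option maxSynthPendingDepth 3

/-!
# No touching point in the interior of the set of fourth order Peano expansions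
-/

namespace Pool.Agent.Lib.MP_b5ab38_an

open scoped Topology ENNReal
open Set Filter

/-- `ℓ_3` is separable. -/
instance separable_X3 : TopologicalSpace.SeparableSpace X3 := by
  have h1 : TopologicalSpace.IsSeparable
      ((Submodule.span ℝ (range e3) : Submodule ℝ X3) : Set X3) :=
    TopologicalSpace.IsSeparable.span (countable_range _).isSeparable
  have h2 : (univ : Set X3) ⊆ closure
      ((Submodule.span ℝ (range e3) : Submodule ℝ X3) : Set X3) := by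
    intro x _
    have hs := lp.hasSum_single (E := fun _ : ℕ => ℝ) (p := 3) (by norm_num) x
    refine mem_closure_of_tendsto hs (Eventually.of_forall fun s => ?_)
    refine Submodule.sum_mem _ (fun k _ => ?_)
    have h3 : (lp.single 3 k (x k) : X3) = (x k) • e3 k := by
      rw [e3, ← lp.single_smul]
      simp
    rw [h3]
    exact Submodule.smul_mem _ _ (Submodule.subset_span ⟨k, rfl⟩)
  exact TopologicalSpace.isSeparable_univ_iff.1 (h1.closure.mono h2)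

instance secondCountable_X3 : SecondCountableTopology X3 :=
  UniformSpace.secondCountable_of_separable X3

/-- Coordinate functional. -/
noncomputable def coordL (n : ℕ) : X3 →L[ℝ] ℝ := M (e3 n) (e3 n)

theorem coordL_apply (n : ℕ) (z : X3) : coordL n z = z n := by
  rw [coordL, M_apply, tsum_eq_single n]
  · rw [e3_self]; ring
  · intro j hj
    rw [e3_ne n j hj]; ring

theorem abs_coord_le (n : ℕ) (z : X3) : |z n| ≤ ‖z‖ :=
  lp.norm_apply_le_norm (by norm_num : (3 : ℝ≥0∞) ≠ 0) z n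

/-- Symmetric Peano expansions. -/
def SymPE (f : X3 → ℝ) (x : X3) (L : X3 →L[ℝ] ℝ) (B : X3 →L[ℝ] X3 →L[ℝ] ℝ)
    (T : X3 →L[ℝ] X3 →L[ℝ] X3 →L[ℝ] ℝ) : Prop :=
  PE f x L B T ∧ (∀ a b, B a b = B b a) ∧ (∀ a b c, T a b c = T b a c) ∧
    (∀ a b c, T a b c = T a c b)

/-- The numerical contradiction. -/
theorem numeric (κ C A r s : ℝ) (hκ : 0 < κ) (hC : 0 < C) (hA : 0 < A) (hr : 0 < r)
    (h1 : κ * s ^ 3 ≤ 6 * C * r ^ 4)
    (h2 : κ * r ^ 2 / 4 ≤ A * s ^ 2 + C * r ^ 3) (hs : 0 ≤ s)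
    (hr1 : r ≤ κ / (8 * C)) (hr2 : r ^ 2 * (36 * C ^ 2) < (κ / (8 * A)) ^ 3 * κ ^ 2) : False := by
  have h3 : C * r ^ 3 ≤ κ * r ^ 2 / 8 := by
    have h4 : C * r ≤ κ / 8 := by
      rw [le_div_iff₀ (by positivity)] at hr1
      linarith
    have e : C * r ^ 3 = (C * r) * r ^ 2 := by ring
    rw [e]
    nlinarith [sq_nonneg r]
  have h4 : κ / (8 * A) * r ^ 2 ≤ s ^ 2 := by
    have h5 : κ * r ^ 2 / 8 ≤ A * s ^ 2 := by linarith
    rw [div_mul_eq_mul_div, div_le_iff₀ (by positivity)]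
    linarith
  have h5 : (κ / (8 * A) * r ^ 2) ^ 3 ≤ (s ^ 2) ^ 3 := pow_le_pow_left₀ (by positivity) h4 3
  have h6 : (κ * s ^ 3) ^ 2 ≤ (6 * C * r ^ 4) ^ 2 := pow_le_pow_left₀ (by positivity) h1 2
  have h7 : (κ / (8 * A)) ^ 3 * κ ^ 2 * r ^ 6 ≤ 36 * C ^ 2 * r ^ 8 := by
    calc (κ / (8 * A)) ^ 3 * κ ^ 2 * r ^ 6 = κ ^ 2 * (κ / (8 * A) * r ^ 2) ^ 3 := by ring
      _ ≤ κ ^ 2 * (s ^ 2) ^ 3 := by gcongr
      _ = (κ * s ^ 3) ^ 2 := by ring
      _ ≤ (6 * C * r ^ 4) ^ 2 := h6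
      _ = _ := by ring
  have h8 : r ^ 2 * (36 * C ^ 2) * r ^ 6 < (κ / (8 * A)) ^ 3 * κ ^ 2 * r ^ 6 := by
    gcongr
  have e : r ^ 2 * (36 * C ^ 2) * r ^ 6 = 36 * C ^ 2 * r ^ 8 := by ring
  linarith

theorem core (f : X3 → ℝ) (hf : Continuous f) (x₁ : X3) (R₁ : ℝ) (hR₁ : 0 < R₁)
    (hPE : ∀ y ∈ Metric.closedBall x₁ R₁, ∃ L B T, SymPE f y L B T)
    (hT : ∃ L B κ δ, Touch f x₁ L B κ δ) : False := by
  classical
  -- data functions
  have hdata : ∀ y : X3, ∃ (L : X3 →L[ℝ] ℝ) (B : X3 →L[ℝ] X3 →L[ℝ] ℝ)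
      (T : X3 →L[ℝ] X3 →L[ℝ] X3 →L[ℝ] ℝ), y ∈ Metric.closedBall x₁ R₁ → SymPE f y L B T := by
    intro y
    by_cases hy : y ∈ Metric.closedBall x₁ R₁
    · obtain ⟨L, B, T, h⟩ := hPE y hy
      exact ⟨L, B, T, fun _ => h⟩
    · exact ⟨0, 0, 0, fun h => absurd h hy⟩
  choose L B T hLBT using hdata
  set S : Set X3 := {y | y ∈ Metric.ball x₁ R₁ ∧ ∃ L B κ δ, Touch f y L B κ δ} with hS
  have hSne : S.Nonempty := ⟨x₁, Metric.mem_ball_self hR₁, hT⟩
  have hScl : closure S ⊆ Metric.closedBall x₁ R₁ :=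
    closure_minimal (fun y hy => Metric.ball_subset_closedBall hy.1) Metric.isClosed_closedBall
  obtain ⟨m, h₀, ρ, xs, r₁, hm, hρ, hr₁, hxsS, hunif⟩ :=
    exists_uniform f hf S hSne L B T (fun y hy => (hLBT y (hScl hy)).1)
  obtain ⟨C, s₀, hC, hs₀, hwhit⟩ := whitney f L B T m hm h₀ ρ hρ
  obtain ⟨hxsball, Ls, Bs, κs, δs, hTs⟩ := hxsS
  have hxsS : xs ∈ S := ⟨hxsball, Ls, Bs, κs, δs, hTs⟩
  have hxsPE := hLBT xs (Metric.ball_subset_closedBall hxsball)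
  have hLxs : L xs = Ls := hTs.conditions hxsPE.1
  set κ : ℝ := κs / 2 with hκdef
  have hκspos := hTs.1
  have hδs := hTs.2.1
  have hκ : 0 < κ := by positivity
  have hTs' : Touch f xs Ls Bs (2 * κ) δs := by
    have : 2 * κ = κs := by rw [hκdef]; ring
    rw [this]; exact hTs
  set A : ℝ := 3 * (‖T xs‖ + κ) with hA
  have hApos : 0 < A := by positivity
  have hgap : 0 < R₁ - ‖xs - x₁‖ := by
    rw [Metric.mem_ball, dist_eq_norm] at hxsball
    linarith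
  -- the small radius
  obtain ⟨r, hr, hrδ, hrr₁, hrgap, hrs₀, hrC, hrfin⟩ : ∃ r : ℝ, 0 < r ∧ r < δs ∧ r < r₁ ∧
      r < R₁ - ‖xs - x₁‖ ∧ r ≤ s₀ ∧ r ≤ κ / (8 * C) ∧
      r ^ 2 * (36 * C ^ 2) < (κ / (8 * A)) ^ 3 * κ ^ 2 := by
    have hlim : Tendsto (fun r : ℝ => r ^ 2 * (36 * C ^ 2)) (𝓝[>] 0) (𝓝 0) := by
      have h1 : Tendsto (fun r : ℝ => r ^ 2 * (36 * C ^ 2)) (𝓝 0) (𝓝 (0 ^ 2 * (36 * C ^ 2))) :=
        ((continuous_pow 2).mul continuous_const).tendsto 0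
      have h2 : (0 : ℝ) ^ 2 * (36 * C ^ 2) = 0 := by ring
      rw [h2] at h1
      exact h1.mono_left nhdsWithin_le_nhds
    have hpos : 0 < (κ / (8 * A)) ^ 3 * κ ^ 2 := by positivity
    have e1 := hlim.eventually (gt_mem_nhds hpos)
    have e2 : ∀ a : ℝ, 0 < a → ∀ᶠ r in 𝓝[>] (0 : ℝ), r < a := fun a ha =>
      (nhdsWithin_le_nhds (gt_mem_nhds ha) : ∀ᶠ r in 𝓝[>] (0 : ℝ), r < a)
    have e3 : ∀ᶠ r in 𝓝[>] (0 : ℝ), 0 < r := self_mem_nhdsWithin
    obtain ⟨r, h1, h2, h3, h4, h5, h6, h7⟩ := (e3.and ((e2 δs hδs).and ((e2 r₁ hr₁).and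
      ((e2 _ hgap).and ((e2 s₀ hs₀).and ((e2 (κ / (8 * C)) (by positivity)).and e1)))))).exists
    exact ⟨r, h1, h2, h3, h4, h5.le, h6.le, h7⟩
  set τ : ℝ := κ * r ^ 2 / 4 with hτ
  set θ₀ : ℝ := min (κ / 8) (3 / 4 * κ * r ^ 3 / δs ^ 3) with hθ₀
  have hθ₀pos : 0 < θ₀ := by positivity
  set D : ℝ := 12 * δs ^ 2 + 6 * δs + δs ^ 3 with hD
  have hDpos : 0 < D := by positivity
  set θ' : ℕ → ℝ := fun n => θ₀ / ((n : ℝ) + 1) with hθ'
  have hθ'pos : ∀ n, 0 < θ' n := fun n => by simp only [hθ']; positivity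
  have hθ'le : ∀ n, θ' n ≤ θ₀ := fun n => by
    simp only [hθ']
    rw [div_le_iff₀ (by positivity)]
    have : (0 : ℝ) ≤ n := Nat.cast_nonneg n
    nlinarith
  set Bh : X3 →L[ℝ] X3 →L[ℝ] ℝ := Bs + Bs.flip + (2 : ℝ) • B xs with hBh
  set Bt : X3 →L[ℝ] X3 →L[ℝ] ℝ := B xs + Bs with hBt
  -- perturbed minimisers
  have hmain : ∀ (σ : ℝ), |σ| = 1 → ∀ n : ℕ, ∃ z : X3, ‖z‖ ≤ r ∧
      (∀ w, |3 * T xs z z w + Bh z w - 3 * κ * M (absX z) z w - τ * (σ * w n)|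
        ≤ (C * r ^ 3 + θ' n * D) * ‖w‖) ∧
      (∀ v, 3 * κ * M (absX z) v v - (C * r ^ 2 + θ' n * D) * ‖v‖ ^ 2
        ≤ 3 * T xs z v v + Bt v v) ∧
      κ * ‖z‖ ^ 3 ≤ τ * (σ * z n) + θ' n * D := by
    intro σ hσ n
    set η : X3 →L[ℝ] ℝ := σ • coordL n with hη
    have hηapp : ∀ z, η z = σ * z n := fun z => by
      rw [hη, _root_.smul_apply, coordL_apply, smul_eq_mul]
    have hηle : ∀ z, |η z| ≤ ‖z‖ := fun z => by
      rw [hηapp, abs_mul, hσ, one_mul]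
      exact abs_coord_le n z
    have hθpos := hθ'pos n
    have hθle := hθ'le n
    obtain ⟨z, Λ, w₀, hzr, hΛ, hw₀, hM, hlow1, hlow2⟩ := perturb f hf xs Ls Bs κ δs hTs' r hr hrδ
      η hηle (θ' n) hθpos (hθle.trans (min_le_left _ _)) (by
        have h1 : θ' n ≤ 3 / 4 * κ * r ^ 3 / δs ^ 3 := hθle.trans (min_le_right _ _)
        rw [le_div_iff₀ (by positivity)] at h1
        exact h1)
    rw [← hτ] at hM hlow1 hlow2
    set Lb : X3 →L[ℝ] ℝ := Ls - Bs z - Bs.flip z + (3 * κ) • M (absX z) z + τ • η - Λ with hLb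
    have hLbapp : ∀ v, Lb v = Ls v - Bs z v - Bs v z + 3 * κ * M (absX z) z v + τ * η v - Λ v := by
      intro v
      simp only [hLb, _root_.add_apply, _root_.sub_apply, _root_.smul_apply, smul_eq_mul,
        ContinuousLinearMap.flip_apply]
    -- the new point is a touching point
    have hyS : xs + z ∈ S := by
      refine ⟨?_, Lb, Bs + M w₀, κ / 8, δs - r, by positivity, by linarith, ?_⟩
      · rw [Metric.mem_ball, dist_eq_norm]
        have : xs + z - x₁ = (xs - x₁) + z := by abel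
        rw [this]
        calc ‖(xs - x₁) + z‖ ≤ ‖xs - x₁‖ + ‖z‖ := norm_add_le _ _
          _ < R₁ := by linarith
      · intro v hv
        have h1 := hlow1 v hv
        rw [hLbapp, _root_.add_apply, _root_.add_apply]
        linarith
    have hyball := hyS.1
    have hyPE := hLBT (xs + z) (Metric.ball_subset_closedBall hyball)
    obtain ⟨hLy, hBy⟩ := touch_conditions f (xs + z) Lb
      ((3 * κ) • M (absX z) - Bs - M w₀) (2 * κ) (δs - r) (by linarith) (fun v hv => by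
        have h1 := hlow2 v hv
        rw [hLbapp]
        simp only [_root_.sub_apply, _root_.smul_apply, smul_eq_mul]
        linarith) (L (xs + z)) (B (xs + z)) (T (xs + z)) hyPE.1
    have hGx := hunif xs hxsS (by simpa using hr₁)
    have hGy := hunif (xs + z) hyS (by rw [add_sub_cancel_left]; linarith)
    obtain ⟨hW1, hW2⟩ := hwhit xs (xs + z) hGx hGy hxsPE.2.1 hxsPE.2.2.1 hxsPE.2.2.2
      (by rw [add_sub_cancel_left]; linarith)
    rw [add_sub_cancel_left] at hW1 hW2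
    have hzr3 : ‖z‖ ^ 3 ≤ r ^ 3 := pow_le_pow_left₀ (norm_nonneg _) hzr 3
    have hzr2 : ‖z‖ ^ 2 ≤ r ^ 2 := pow_le_pow_left₀ (norm_nonneg _) hzr 2
    refine ⟨z, hzr, fun w => ?_, fun v => ?_, ?_⟩
    · have h1 := hW1 w
      rw [hLy, hLxs, hLbapp, hηapp] at h1
      have h2 : |Λ w| ≤ θ' n * D * ‖w‖ := by
        have h3 := Λ.le_opNorm w
        rw [Real.norm_eq_abs] at h3
        refine h3.trans ?_
        have h4 : ‖Λ‖ ≤ θ' n * D := by
          refine hΛ.trans ?_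
          rw [hD]
          have : 0 ≤ θ' n * (6 * δs + δs ^ 3) := by positivity
          linarith
        gcongr
      have h3 : C * ‖z‖ ^ 3 * ‖w‖ ≤ C * r ^ 3 * ‖w‖ := by gcongr
      have h4 : Bh z w = Bs z w + Bs w z + 2 * B xs z w := by
        simp only [hBh, _root_.add_apply, _root_.smul_apply, smul_eq_mul,
          ContinuousLinearMap.flip_apply]
      have e : 3 * T xs z z w + Bh z w - 3 * κ * M (absX z) z w - τ * (σ * w n)
          = -(Ls w - Bs z w - Bs w z + 3 * κ * M (absX z) z w + τ * (σ * w n) - Λ w - Ls w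
            - 2 * B xs z w - 3 * T xs z z w) - Λ w := by
        rw [h4]; ring
      rw [e]
      refine (abs_sub _ _).trans ?_
      rw [abs_neg]
      calc _ ≤ C * ‖z‖ ^ 3 * ‖w‖ + θ' n * D * ‖w‖ := add_le_add h1 h2
        _ ≤ _ := by rw [add_mul]; linarith
    · have h1 := (abs_le.1 (hW2 v)).2
      have h2 := hBy v
      simp only [_root_.sub_apply, _root_.smul_apply, smul_eq_mul] at h2
      have h3 : C * ‖z‖ ^ 2 * ‖v‖ ^ 2 ≤ C * r ^ 2 * ‖v‖ ^ 2 := by gcongr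
      have h4 : Bt v v = B xs v v + Bs v v := by
        simp only [hBt, _root_.add_apply]
      have h5 : M w₀ v v ≤ θ' n * D * ‖v‖ ^ 2 := by
        have h6 := (le_abs_self _).trans (abs_M_le w₀ v v)
        refine h6.trans ?_
        have h7 : ‖w₀‖ ≤ θ' n * D := by
          refine hw₀.trans ?_
          rw [hD]
          have : 0 ≤ θ' n * (12 * δs ^ 2 + δs ^ 3) := by positivity
          linarith
        have e : ‖w₀‖ * ‖v‖ * ‖v‖ = ‖w₀‖ * ‖v‖ ^ 2 := by ring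
        rw [e]
        gcongr
      rw [h4]
      have e2 : (C * r ^ 2 + θ' n * D) * ‖v‖ ^ 2
          = C * r ^ 2 * ‖v‖ ^ 2 + θ' n * D * ‖v‖ ^ 2 := by ring
      rw [e2]
      linarith
    · rw [hηapp] at hM
      have h1 : θ' n * δs ^ 3 ≤ θ' n * D := by
        rw [hD]
        have : 0 ≤ θ' n * (12 * δs ^ 2 + 6 * δs) := by positivity
        linarith
      linarith
  choose z₁ hz₁r hE1 _ _ using hmain 1 (by simp)
  choose z₂ hz₂r hE2 hS2 hM2 using hmain (-1) (by simp)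
  obtain ⟨s, hs0, hs1, hs2⟩ := seq_core (T xs) hxsPE.2.2.1 hxsPE.2.2.2 Bh Bt κ C r τ hκ hC.le hr.le
    z₁ z₂ hz₁r hz₂r (fun n => θ' n * D)
    (by
      have h1 : Tendsto (fun n : ℕ => θ₀ * D * (1 / ((n : ℝ) + 1))) atTop (𝓝 (θ₀ * D * 0)) :=
        tendsto_one_div_add_atTop_nhds_zero_nat.const_mul _
      rw [mul_zero] at h1
      refine h1.congr (fun n => ?_)
      simp only [hθ']
      ring)
    (fun n => by have := hθ'pos n; positivity)
    (fun n w => by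
      have := hE1 n w
      rwa [one_mul] at this)
    (fun n w => by
      have := hE2 n w
      have e : 3 * T xs (z₂ n) (z₂ n) w + Bh (z₂ n) w - 3 * κ * M (absX (z₂ n)) (z₂ n) w
        - τ * (-1 * w n) = 3 * T xs (z₂ n) (z₂ n) w + Bh (z₂ n) w
          - 3 * κ * M (absX (z₂ n)) (z₂ n) w + τ * w n := by ring
      rwa [e] at this)
    hS2
    (fun n => by
      have := hM2 n
      linarith)
  exact numeric κ C A r s hκ hC hApos hr hs1 hs2 hs0 hrC hrfin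

end Pool.Agent.Lib.MP_b5ab38_an
end

section

set_option autoImplicit false
set_option maxSynthPendingDepth 3

/-!
# Existence of touching points; the general non-existence theorem
-/

namespace Pool.Agent.Lib.MP_b5ab38_an

open scoped Topology ENNReal
open Set Filter

theorem theoremG (f : X3 → ℝ) (hf : Continuous f) (x₀ : X3) (D c : ℝ) (hD : 0 < D) (hc : 0 < c)
    (hb : ∃ m, ∀ y ∈ Metric.closedBall x₀ D, m ≤ f y)
    (hco : ∀ y ∈ Metric.closedBall x₀ D, f y < f x₀ + c → ‖y - x₀‖ < D ∧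
      ∃ R, 0 < R ∧ ∀ y' ∈ Metric.closedBall y R, ∃ L B T, SymPE f y' L B T) : False := by
  set ε : ℝ := c / (4 * D ^ 3) with hε
  have hεpos : 0 < ε := by positivity
  set θ : ℝ := ε / 8 with hθ
  have hθpos : 0 < θ := by positivity
  set F : X3 → ℝ := fun y => f y - ε * ‖y - x₀‖ ^ 3 with hF
  have hFc : Continuous F := by
    simp only [hF]; fun_prop
  obtain ⟨c', b, z, hc', hsum, hbK, hz, hzmin⟩ := exists_perturbed_min F x₀ D hD.le
    hFc.continuousOn (by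
      obtain ⟨m, hm⟩ := hb
      refine ⟨m - ε * D ^ 3, fun y hy => ?_⟩
      have h1 := hm y hy
      rw [Metric.mem_closedBall, dist_eq_norm] at hy
      have h2 : ‖y - x₀‖ ^ 3 ≤ D ^ 3 := pow_le_pow_left₀ (norm_nonneg _) hy 3
      simp only [hF]
      nlinarith) θ hθpos
  have hbn : ∀ i, ‖b i - x₀‖ ≤ D := fun i => by
    have := hbK i
    rwa [Metric.mem_closedBall, dist_eq_norm] at this
  have hzn : ‖z - x₀‖ ≤ D := by
    have := hz
    rwa [Metric.mem_closedBall, dist_eq_norm] at this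
  have hpert0 : ∑' i, c' i * ‖x₀ - b i‖ ^ 3 ≤ θ * D ^ 3 := by
    have h1 : ∀ i, c' i * ‖x₀ - b i‖ ^ 3 ≤ c' i * D ^ 3 := fun i => by
      have h2 := hbn i
      have h3 := hc' i
      rw [norm_sub_rev]
      gcongr
    have h2 : Summable fun i => c' i * ‖x₀ - b i‖ ^ 3 :=
      Summable.of_nonneg_of_le (fun i => by have := hc' i; positivity) h1
        (hsum.summable.mul_right _)
    exact hasSum_le h1 h2.hasSum (hsum.mul_right _)
  have hpertz : 0 ≤ ∑' i, c' i * ‖z - b i‖ ^ 3 :=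
    tsum_nonneg (fun i => by have := hc' i; positivity)
  have hfz : f z < f x₀ + c := by
    have h1 := hzmin x₀ (Metric.mem_closedBall_self hD.le)
    simp only [hF, sub_self, norm_zero] at h1
    have h2 : ‖z - x₀‖ ^ 3 ≤ D ^ 3 := pow_le_pow_left₀ (norm_nonneg _) hzn 3
    have h3 : ε * ‖z - x₀‖ ^ 3 ≤ ε * D ^ 3 := by gcongr
    have h4 : ε * D ^ 3 = c / 4 := by rw [hε]; field_simp
    have h5 : θ * D ^ 3 = c / 32 := by rw [hθ, div_mul_eq_mul_div, h4]; ring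
    have h6 : ε * (0 : ℝ) ^ 3 = 0 := by ring
    rw [h6] at h1
    linarith
  obtain ⟨hzD, R, hR, hPE⟩ := hco z hz hfz
  obtain ⟨Λ, w, hΛ, hw, hup⟩ := pert_upper c' b z θ (2 * D) hc' hsum (by positivity)
    (fun i => by
      have e : z - b i = (z - x₀) - (b i - x₀) := by abel
      rw [e]
      exact (norm_sub_le _ _).trans (by have := hbn i; linarith))
  refine core f hf z R hR hPE ⟨(3 * ε) • M (absX (z - x₀)) (z - x₀) - Λ, M w, ε / 8,
    D - ‖z - x₀‖, by positivity, by linarith, fun v hv => ?_⟩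
  have h1 := hzmin (z + v) (by
    rw [Metric.mem_closedBall, dist_eq_norm]
    have e : z + v - x₀ = (z - x₀) + v := by abel
    rw [e]
    exact (norm_add_le _ _).trans (by linarith))
  have h2 := hup v
  have h3 := cube_lower (z - x₀) v
  have e : z + v - x₀ = (z - x₀) + v := by abel
  simp only [hF] at h1
  rw [e] at h1
  have h4 : ε * (‖z - x₀‖ ^ 3 + 3 * M (absX (z - x₀)) (z - x₀) v + ‖v‖ ^ 3 / 4)
      ≤ ε * ‖(z - x₀) + v‖ ^ 3 := mul_le_mul_of_nonneg_left h3 hεpos.le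
  rw [_root_.sub_apply, _root_.smul_apply, smul_eq_mul]
  have h5 : θ * ‖v‖ ^ 3 = ε / 8 * ‖v‖ ^ 3 := by rw [hθ]
  rw [h5] at h2
  linarith

end Pool.Agent.Lib.MP_b5ab38_an
end

section

set_option autoImplicit false
set_option maxSynthPendingDepth 3

/-!
# Symmetrisation and composition of Peano expansions
-/

namespace Pool.Agent.Lib.MP_b5ab38_an

open scoped Topology ENNReal
open Set Filter

section

variable {X : Type*} [NormedAddCommGroup X] [NormedSpace ℝ X]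

/-- Swap of the last two variables. -/
noncomputable def F23 (T : X →L[ℝ] X →L[ℝ] X →L[ℝ] ℝ) : X →L[ℝ] X →L[ℝ] X →L[ℝ] ℝ :=
  ((ContinuousLinearMap.flipₗᵢ ℝ X X ℝ).toContinuousLinearEquiv : (X →L[ℝ] X →L[ℝ] ℝ) →L[ℝ]
    (X →L[ℝ] X →L[ℝ] ℝ)).comp T

theorem F23_apply (T : X →L[ℝ] X →L[ℝ] X →L[ℝ] ℝ) (a b c : X) : F23 T a b c = T a c b := rfl

theorem flip3_apply (T : X →L[ℝ] X →L[ℝ] X →L[ℝ] ℝ) (a b c : X) : T.flip a b c = T b a c := rfl

theorem exists_symm {f : X → ℝ} {x : X} {L : X →L[ℝ] ℝ} {B : X →L[ℝ] X →L[ℝ] ℝ}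
    {T : X →L[ℝ] X →L[ℝ] X →L[ℝ] ℝ} (h : PE f x L B T) :
    ∃ (B' : X →L[ℝ] X →L[ℝ] ℝ) (T' : X →L[ℝ] X →L[ℝ] X →L[ℝ] ℝ), PE f x L B' T' ∧
      (∀ a b, B' a b = B' b a) ∧ (∀ a b c, T' a b c = T' b a c) ∧
      (∀ a b c, T' a b c = T' a c b) := by
  set B' : X →L[ℝ] X →L[ℝ] ℝ := (1 / 2 : ℝ) • (B + B.flip) with hB'
  set T' : X →L[ℝ] X →L[ℝ] X →L[ℝ] ℝ := (1 / 6 : ℝ) • (T + T.flip + F23 T + F23 T.flip
    + (F23 T).flip + F23 ((F23 T).flip)) with hT'
  have hBa : ∀ a b, B' a b = (1 / 2) * (B a b + B b a) := by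
    intro a b
    simp only [hB', _root_.smul_apply, _root_.add_apply, smul_eq_mul,
      ContinuousLinearMap.flip_apply]
  have hTa : ∀ a b c, T' a b c = (1 / 6) * (T a b c + T b a c + T a c b + T c a b
      + T b c a + T c b a) := by
    intro a b c
    simp only [hT', _root_.smul_apply, _root_.add_apply, smul_eq_mul, F23_apply, flip3_apply]
  refine ⟨B', T', ?_, ?_, ?_, ?_⟩
  · intro v
    obtain ⟨K, δ, hδ, hK⟩ := h v
    refine ⟨K, δ, hδ, fun t ht => ?_⟩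
    have h1 := hK t ht
    rw [hBa, hTa]
    refine le_trans (le_of_eq ?_) h1
    congr 1
    ring
  · intro a b
    rw [hBa, hBa]; ring
  · intro a b c
    rw [hTa, hTa]; ring
  · intro a b c
    rw [hTa, hTa]; ring

/-- One variable composition. -/
theorem comp_one_var (φ : ℝ → ℝ) (u L B T K p1 p2 p3 K' η δ : ℝ) (s : ℝ → ℝ) (hδ : 0 < δ)
    (hη : 0 < η)
    (hs : ∀ t, |t| ≤ δ → |s t - t * L - t ^ 2 * B - t ^ 3 * T| ≤ K * t ^ 4)
    (hφ : ∀ v, |v| ≤ η → |φ (u + v) - φ u - v * p1 - v ^ 2 * p2 - v ^ 3 * p3| ≤ K' * v ^ 4) :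
    ∃ K'' δ'', 0 < δ'' ∧ ∀ t, |t| ≤ δ'' → |φ (u + s t) - φ u - t * (p1 * L)
      - t ^ 2 * (p1 * B + p2 * (L * L)) - t ^ 3 * (p1 * T + 2 * p2 * (L * B)
        + p3 * (L * (L * L)))| ≤ K'' * t ^ 4 := by
  set Q : ℝ := |L| + |B| + |T| + |K| + 1 with hQ
  have hQpos : 0 < Q := by positivity
  refine ⟨|K'| * Q ^ 4 + |p1| * |K| + |p2| * (|B| ^ 2 + 2 * (|L| + |B|) * Q + Q ^ 2)
    + |p3| * (3 * Q ^ 3), min (min δ 1) (η / Q), by positivity, fun t ht => ?_⟩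
  have ht1 : |t| ≤ 1 := ht.trans ((min_le_left _ _).trans (min_le_right _ _))
  have htδ : |t| ≤ δ := ht.trans ((min_le_left _ _).trans (min_le_left _ _))
  have htη : |t| * Q ≤ η := by
    have h1 : |t| ≤ η / Q := ht.trans (min_le_right _ _)
    rwa [le_div_iff₀ hQpos] at h1
  have habs : ∀ k, |t| ^ (k + 1) ≤ |t| ^ k := fun k =>
    pow_le_pow_of_le_one (abs_nonneg _) ht1 (Nat.le_succ k)
  have h2le : |t| ^ 2 ≤ |t| := by simpa using habs 1
  have h3le : |t| ^ 3 ≤ |t| ^ 2 := habs 2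
  have h4le : |t| ^ 4 ≤ |t| ^ 3 := habs 3
  have h4eq : |t| ^ 4 = t ^ 4 := by
    rw [show (4 : ℕ) = 2 * 2 by norm_num, pow_mul, pow_mul, sq_abs]
  have h0 := abs_nonneg t
  set R : ℝ := s t - t * L - t ^ 2 * B - t ^ 3 * T with hR
  have hRle : |R| ≤ |K| * |t| ^ 4 := by
    refine (hs t htδ).trans ?_
    rw [h4eq]
    have := le_abs_self K
    have : 0 ≤ t ^ 4 := by positivity
    gcongr
  -- first order remainder
  set ρ2 : ℝ := t ^ 3 * T + R with hρ2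
  have hρ2le : |ρ2| ≤ Q * |t| ^ 3 := by
    calc |ρ2| ≤ |t ^ 3 * T| + |R| := abs_add_le _ _
      _ = |t| ^ 3 * |T| + |R| := by rw [abs_mul, abs_pow]
      _ ≤ |t| ^ 3 * |T| + |K| * |t| ^ 3 := by
          have : |K| * |t| ^ 4 ≤ |K| * |t| ^ 3 := by gcongr
          linarith
      _ ≤ Q * |t| ^ 3 := by
          have : 0 ≤ |t| ^ 3 * (|L| + |B| + 1) := by positivity
          rw [hQ]; linarith
  set ρ1 : ℝ := t ^ 2 * B + ρ2 with hρ1
  have hρ1le : |ρ1| ≤ Q * |t| ^ 2 := by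
    have h5 : |R| ≤ |K| * |t| ^ 2 := by
      refine hRle.trans ?_
      have := h4le.trans h3le
      gcongr
    calc |ρ1| = |t ^ 2 * B + (t ^ 3 * T + R)| := by rw [hρ1, hρ2]
      _ ≤ |t ^ 2 * B| + (|t ^ 3 * T| + |R|) :=
          (abs_add_le _ _).trans (by gcongr; exact abs_add_le _ _)
      _ = |t| ^ 2 * |B| + (|t| ^ 3 * |T| + |R|) := by
          rw [abs_mul, abs_pow, abs_mul, abs_pow]
      _ ≤ |t| ^ 2 * |B| + (|t| ^ 2 * |T| + |K| * |t| ^ 2) := by gcongr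
      _ ≤ Q * |t| ^ 2 := by
          have : 0 ≤ |t| ^ 2 * (|L| + 1) := by positivity
          rw [hQ]; linarith
  have hs1 : s t = t * L + ρ1 := by rw [hρ1, hρ2, hR]; ring
  have hs2 : s t = t * L + t ^ 2 * B + ρ2 := by rw [hρ2, hR]; ring
  have hsle : |s t| ≤ Q * |t| := by
    have h5 : |R| ≤ |K| * |t| := by
      refine hRle.trans ?_
      have := (h4le.trans h3le).trans h2le
      gcongr
    have e : s t = t * L + (t ^ 2 * B + (t ^ 3 * T + R)) := by rw [hR]; ring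
    calc |s t| = |t * L + (t ^ 2 * B + (t ^ 3 * T + R))| := by rw [← e]
      _ ≤ |t * L| + (|t ^ 2 * B| + (|t ^ 3 * T| + |R|)) :=
          (abs_add_le _ _).trans (by
            gcongr
            exact (abs_add_le _ _).trans (by gcongr; exact abs_add_le _ _))
      _ = |t| * |L| + (|t| ^ 2 * |B| + (|t| ^ 3 * |T| + |R|)) := by
          rw [abs_mul, abs_mul, abs_pow, abs_mul, abs_pow]
      _ ≤ |t| * |L| + (|t| * |B| + (|t| * |T| + |K| * |t|)) := by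
          have := h3le.trans h2le
          gcongr
      _ ≤ Q * |t| := by
          rw [hQ]; linarith
  have hφs := hφ (s t) (hsle.trans (by rw [mul_comm]; exact htη))
  -- the four error terms
  have E1 : |(φ (u + s t) - φ u - s t * p1 - s t ^ 2 * p2 - s t ^ 3 * p3)| ≤ |K'| * Q ^ 4 * t ^ 4 := by
    refine hφs.trans ?_
    have h5 : s t ^ 4 ≤ Q ^ 4 * t ^ 4 := by
      have h6 : |s t| ^ 4 ≤ (Q * |t|) ^ 4 := pow_le_pow_left₀ (abs_nonneg _) hsle 4
      have h7 : |s t| ^ 4 = s t ^ 4 := by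
        rw [show (4 : ℕ) = 2 * 2 by norm_num, pow_mul, pow_mul, sq_abs]
      rw [h7, mul_pow, h4eq] at h6
      exact h6
    have h6 := le_abs_self K'
    have h7 : 0 ≤ s t ^ 4 := by positivity
    calc K' * s t ^ 4 ≤ |K'| * s t ^ 4 := by gcongr
      _ ≤ |K'| * (Q ^ 4 * t ^ 4) := by gcongr
      _ = _ := by ring
  have E2 : |p1 * R| ≤ |p1| * |K| * t ^ 4 := by
    rw [abs_mul, mul_assoc, ← h4eq]
    gcongr
  have E3 : |p2 * (s t ^ 2 - (t ^ 2 * (L * L) + t ^ 3 * (2 * (L * B))))|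
      ≤ |p2| * (|B| ^ 2 + 2 * (|L| + |B|) * Q + Q ^ 2) * t ^ 4 := by
    have e : s t ^ 2 - (t ^ 2 * (L * L) + t ^ 3 * (2 * (L * B)))
        = t ^ 4 * B ^ 2 + 2 * (t * L + t ^ 2 * B) * ρ2 + ρ2 ^ 2 := by rw [hs2]; ring
    rw [abs_mul, mul_assoc, e]
    have h5 : |t ^ 4 * B ^ 2| = |t| ^ 4 * |B| ^ 2 := by rw [abs_mul, abs_pow, abs_pow]
    have h6 : |2 * (t * L + t ^ 2 * B) * ρ2| ≤ 2 * (|L| + |B|) * Q * |t| ^ 4 := by
      rw [abs_mul, abs_mul]
      have h7 : |t * L + t ^ 2 * B| ≤ (|L| + |B|) * |t| := by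
        calc |t * L + t ^ 2 * B| ≤ |t * L| + |t ^ 2 * B| := abs_add_le _ _
          _ = |t| * |L| + |t| ^ 2 * |B| := by rw [abs_mul, abs_mul, abs_pow]
          _ ≤ |t| * |L| + |t| * |B| := by gcongr
          _ = _ := by ring
      calc |(2 : ℝ)| * |t * L + t ^ 2 * B| * |ρ2| ≤ 2 * ((|L| + |B|) * |t|) * (Q * |t| ^ 3) := by
            rw [abs_two]; gcongr
        _ = _ := by ring
    have h7 : |ρ2 ^ 2| ≤ Q ^ 2 * |t| ^ 4 := by
      rw [abs_pow]
      calc |ρ2| ^ 2 ≤ (Q * |t| ^ 3) ^ 2 := by gcongr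
        _ = Q ^ 2 * (|t| ^ 4 * |t| ^ 2) := by ring
        _ ≤ Q ^ 2 * (|t| ^ 4 * 1) := by
            have : |t| ^ 2 ≤ 1 := pow_le_one₀ (abs_nonneg _) ht1
            gcongr
        _ = _ := by ring
    have h8 : |t ^ 4 * B ^ 2 + 2 * (t * L + t ^ 2 * B) * ρ2 + ρ2 ^ 2|
        ≤ (|B| ^ 2 + 2 * (|L| + |B|) * Q + Q ^ 2) * t ^ 4 := by
      refine (abs_add_three _ _ _).trans ?_
      rw [h5, ← h4eq]
      linarith
    gcongr
  have E4 : |p3 * (s t ^ 3 - t ^ 3 * (L * (L * L)))| ≤ |p3| * (3 * Q ^ 3) * t ^ 4 := by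
    have e : s t ^ 3 - t ^ 3 * (L * (L * L)) = ρ1 * (s t ^ 2 + s t * (t * L) + (t * L) ^ 2) := by
      rw [hs1]; ring
    rw [abs_mul, mul_assoc, e]
    have h5 : |t * L| ≤ Q * |t| := by
      rw [abs_mul]
      have : |L| ≤ Q := by
        have h1 := abs_nonneg B
        have h2 := abs_nonneg T
        have h3 := abs_nonneg K
        rw [hQ]; linarith
      nlinarith
    have h6 : |s t ^ 2 + s t * (t * L) + (t * L) ^ 2| ≤ 3 * (Q ^ 2 * |t| ^ 2) := by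
      refine (abs_add_three _ _ _).trans ?_
      rw [abs_pow, abs_mul, abs_pow]
      have h7 : |s t| ^ 2 ≤ (Q * |t|) ^ 2 := by gcongr
      have h8 : |t * L| ^ 2 ≤ (Q * |t|) ^ 2 := by gcongr
      have h9 : |s t| * |t * L| ≤ (Q * |t|) * (Q * |t|) := by gcongr
      nlinarith
    have h7 : |ρ1 * (s t ^ 2 + s t * (t * L) + (t * L) ^ 2)| ≤ 3 * Q ^ 3 * t ^ 4 := by
      rw [abs_mul, ← h4eq]
      calc |ρ1| * |s t ^ 2 + s t * (t * L) + (t * L) ^ 2|
          ≤ (Q * |t| ^ 2) * (3 * (Q ^ 2 * |t| ^ 2)) := by gcongr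
        _ = _ := by ring
    gcongr
  have etot : φ (u + s t) - φ u - t * (p1 * L)
      - t ^ 2 * (p1 * B + p2 * (L * L)) - t ^ 3 * (p1 * T + 2 * p2 * (L * B)
        + p3 * (L * (L * L)))
      = (φ (u + s t) - φ u - s t * p1 - s t ^ 2 * p2 - s t ^ 3 * p3) + p1 * R
        + p2 * (s t ^ 2 - (t ^ 2 * (L * L) + t ^ 3 * (2 * (L * B))))
        + p3 * (s t ^ 3 - t ^ 3 * (L * (L * L))) := by
    rw [hR]; ring
  rw [etot]
  refine (abs_add_le _ _).trans ?_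
  refine (add_le_add (abs_add_three _ _ _) le_rfl).trans ?_
  linarith

theorem PE.comp {g : X → ℝ} {x : X} {L : X →L[ℝ] ℝ} {B : X →L[ℝ] X →L[ℝ] ℝ}
    {T : X →L[ℝ] X →L[ℝ] X →L[ℝ] ℝ} (h : PE g x L B T) (φ : ℝ → ℝ) (p1 p2 p3 K' η : ℝ)
    (hη : 0 < η) (hφ : ∀ v, |v| ≤ η →
      |φ (g x + v) - φ (g x) - v * p1 - v ^ 2 * p2 - v ^ 3 * p3| ≤ K' * v ^ 4) :
    PE (fun y => φ (g y)) x (p1 • L) (p1 • B + p2 • L.smulRight L)
      (p1 • T + (2 * p2) • L.smulRight B + p3 • L.smulRight (L.smulRight L)) := by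
  intro v
  obtain ⟨K, δ, hδ, hK⟩ := h v
  obtain ⟨K'', δ'', hδ'', h''⟩ := comp_one_var φ (g x) (L v) (B v v) (T v v v) K p1 p2 p3 K' η δ
    (fun t => g (x + t • v) - g x) hδ hη hK hφ
  refine ⟨K'', δ'', hδ'', fun t ht => ?_⟩
  have h1 := h'' t ht
  refine le_trans (le_of_eq ?_) h1
  have e : g x + (g (x + t • v) - g x) = g (x + t • v) := by ring
  rw [e]
  simp only [_root_.add_apply, _root_.smul_apply, smul_eq_mul, ContinuousLinearMap.smulRight_apply]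

end

/-- The general non-existence theorem. -/
theorem theoremG' (g : X3 → ℝ) (hg : Continuous g) (x₀ : X3) (D : ℝ) (hD : 0 < D)
    (hx₀ : g x₀ ≠ 0) (hco : ∀ y, g y ≠ 0 → g y ^ 2 < 2 * g x₀ ^ 2 → ‖y - x₀‖ < D)
    (hPE : ∀ y, g y ≠ 0 → ∃ L B T, PE g y L B T) : False := by
  set c : ℝ := g x₀ with hc
  set φ : ℝ → ℝ := fun u => (u ^ 2 - c ^ 2) ^ 2 with hφ
  set f : X3 → ℝ := fun y => φ (g y) with hf
  have hfc : Continuous f := by
    simp only [hf, hφ]; fun_prop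
  have hfx₀ : f x₀ = 0 := by simp only [hf, hφ, ← hc]; ring
  have hc2 : 0 < c ^ 2 := by positivity
  refine theoremG f hfc x₀ D (c ^ 4) hD (by positivity) ⟨0, fun y _ => by
    simp only [hf, hφ]; positivity⟩ (fun y _ hy => ?_)
  rw [hfx₀, zero_add] at hy
  have hy' : (g y ^ 2 - c ^ 2) ^ 2 < (c ^ 2) ^ 2 := by
    have : (c ^ 2) ^ 2 = c ^ 4 := by ring
    rw [this]; exact hy
  have h1 := abs_lt_of_sq_lt_sq hy' hc2.le
  rw [abs_lt] at h1
  have hgy0 : g y ≠ 0 := by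
    intro h0
    rw [h0] at h1
    have : (0 : ℝ) ^ 2 = 0 := by ring
    rw [this] at h1
    linarith [h1.1]
  refine ⟨hco y hgy0 (by linarith [h1.2]), ?_⟩
  have hopen : IsOpen {y | g y ≠ 0} := isOpen_ne_fun hg continuous_const
  obtain ⟨R, hR, hRsub⟩ := Metric.isOpen_iff.1 hopen y hgy0
  refine ⟨R / 2, by positivity, fun y' hy' => ?_⟩
  have hgy' : g y' ≠ 0 := hRsub (by
    rw [Metric.mem_closedBall] at hy'
    rw [Metric.mem_ball]
    linarith)
  obtain ⟨L, B, T, hLBT⟩ := hPE y' hgy'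
  have hcomp := hLBT.comp φ (4 * g y' * (g y' ^ 2 - c ^ 2))
    (2 * (g y' ^ 2 - c ^ 2) + 4 * g y' ^ 2) (4 * g y') 1 1 one_pos (fun v _ => by
      have e : φ (g y' + v) - φ (g y') - v * (4 * g y' * (g y' ^ 2 - c ^ 2))
          - v ^ 2 * (2 * (g y' ^ 2 - c ^ 2) + 4 * g y' ^ 2) - v ^ 3 * (4 * g y') = v ^ 4 := by
        simp only [hφ]; ring
      rw [e, one_mul, abs_of_nonneg (by positivity)])
  obtain ⟨B', T', hs⟩ := exists_symm hcomp
  exact ⟨_, B', T', hs⟩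

end Pool.Agent.Lib.MP_b5ab38_an
end

section

set_option autoImplicit false

/-!
# The negative results for `ℓ_3`
-/

namespace Pool.Agent.Lib.MP_b5ab38_an

open scoped Topology ENNReal
open Set Filter

theorem IsEquivalentNorm.continuous {X : Type*} [NormedAddCommGroup X] [NormedSpace ℝ X]
    {N : X → ℝ} (h : IsEquivalentNorm N) : Continuous N := by
  obtain ⟨hadd, _, c, C, hc, hcC⟩ := h
  have hC : ∀ x, N x ≤ |C| * ‖x‖ := fun x => by
    refine (hcC x).2.trans ?_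
    have := le_abs_self C
    gcongr
  have hlip : ∀ x y, |N x - N y| ≤ |C| * ‖x - y‖ := by
    intro x y
    rw [abs_sub_le_iff]
    constructor
    · have h1 := hadd y (x - y)
      have h2 := hC (x - y)
      rw [add_sub_cancel] at h1
      linarith
    · have h1 := hadd x (y - x)
      have h2 := hC (y - x)
      rw [add_sub_cancel] at h1
      rw [norm_sub_rev] at h2
      linarith
  rw [Metric.continuous_iff]
  intro x ε hε
  refine ⟨ε / (|C| + 1), by positivity, fun y hy => ?_⟩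
  rw [Real.dist_eq]
  rw [dist_eq_norm, lt_div_iff₀ (by positivity)] at hy
  have := hlip y x
  nlinarith [norm_nonneg (y - x)]

theorem no_norm : ¬ ∃ N : X3 → ℝ, IsEquivalentNorm N ∧ ∀ x, x ≠ 0 → GateauxDiffAt N 4 x := by
  rintro ⟨N, hN, hdiff⟩
  have hcont := hN.continuous
  obtain ⟨hadd, hhom, c, C, hc, hcC⟩ := hN
  have hN0 : N 0 = 0 := by
    have := hhom 0 0
    simpa using this
  have hNnn : ∀ x, 0 ≤ N x := fun x => le_trans (by positivity) (hcC x).1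
  have he : e3 0 ≠ 0 := by
    intro h
    have := norm_e3 0
    rw [h, norm_zero] at this
    norm_num at this
  have hpos : 0 < N (e3 0) := lt_of_lt_of_le (by
    have := norm_pos_iff.2 he
    positivity) (hcC (e3 0)).1
  refine theoremG' N hcont (e3 0) (2 * N (e3 0) / c + 2) (by positivity) hpos.ne' ?_ ?_
  · intro y _ hy
    have h1 : N y < 2 * N (e3 0) := by
      by_contra hcon
      rw [not_lt] at hcon
      have h2 : (2 * N (e3 0)) ^ 2 ≤ N y ^ 2 := pow_le_pow_left₀ (by positivity) hcon 2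
      nlinarith
    have h2 : ‖y‖ ≤ 2 * N (e3 0) / c := by
      rw [le_div_iff₀ hc]
      have := (hcC y).1
      linarith
    calc ‖y - e3 0‖ ≤ ‖y‖ + ‖e3 0‖ := norm_sub_le _ _
      _ < 2 * N (e3 0) / c + 2 := by rw [norm_e3]; linarith
  · intro y hy
    refine PE_of_gateaux (hdiff y ?_)
    rintro rfl
    exact hy hN0

theorem no_bump : ¬ ∃ b : X3 → ℝ, Continuous b ∧ IsBump b ∧ ∀ x, GateauxDiffAt b 4 x := by
  rintro ⟨b, hcont, ⟨⟨x₀, hx₀⟩, hbdd⟩, hdiff⟩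
  obtain ⟨R, hR⟩ := (Metric.isBounded_iff_subset_closedBall x₀).1 hbdd
  refine theoremG' b hcont x₀ (|R| + 1) (by positivity) hx₀ ?_ ?_
  · intro y hy _
    have h1 : y ∈ Metric.closedBall x₀ R := hR (subset_closure hy)
    rw [Metric.mem_closedBall, dist_eq_norm] at h1
    have := le_abs_self R
    linarith
  · intro y _
    exact PE_of_gateaux (hdiff y)

end Pool.Agent.Lib.MP_b5ab38_an
end
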