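import Mathlib
import Pool.Agent.Lib.MP_b5ab38_an.Defs

section

section

set_option autoImplicit false

/-!
# Scalar inequalities
-/

namespace Pool.Agent.Lib.MP_b5ab38_an

theorem abs_cube_lower (a h : ℝ) :
    |a| ^ 3 + 3 * (|a| * a * h) + |h| ^ 3 / 4 ≤ |a + h| ^ 3 := by
  rcases abs_cases a with ⟨ha, ha'⟩ | ⟨ha, ha'⟩ <;>
  rcases abs_cases h with ⟨hh, hh'⟩ | ⟨hh, hh'⟩ <;>
  rcases abs_cases (a + h) with ⟨hs, hs'⟩ | ⟨hs, hs'⟩ <;>
  rw [ha, hh, hs]
  · nlinarith [mul_nonneg ha' (sq_nonneg h), pow_nonneg hh' 3]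
  · nlinarith
  · -- a ≥ 0, h < 0, a + h ≥ 0
    have h1 : 0 ≤ (a + h) * h ^ 2 := mul_nonneg hs' (sq_nonneg h)
    have h2 : 0 < (-h) ^ 3 := pow_pos (by linarith) 3
    nlinarith
  · -- a ≥ 0, h < 0, a + h < 0
    have h1 : 0 < -(a+h) := by linarith
    nlinarith [mul_nonneg ha' (sq_nonneg (a + h)), mul_nonneg ha' (sq_nonneg (3 * a + 2 * h)),
      mul_nonneg ha' ha', pow_pos h1 3, mul_pos h1 (pow_pos h1 2), mul_nonneg ha' h1.le,
      mul_nonneg (mul_nonneg ha' ha') h1.le, mul_nonneg (mul_nonneg ha' h1.le) h1.le,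
      mul_nonneg ha' (sq_nonneg (a - (-(a+h)))), mul_nonneg h1.le (sq_nonneg (a - (-(a+h)))),
      pow_nonneg ha' 3]
  · -- a < 0, h ≥ 0, a + h ≥ 0
    have h1 : 0 < -a := by linarith
    have h2 : 0 ≤ a + h := hs'
    nlinarith [mul_nonneg h1.le (sq_nonneg ((-a) - (a+h))), mul_nonneg h2 (sq_nonneg ((-a) - (a+h))),
      pow_pos h1 3, pow_nonneg h2 3, mul_nonneg (mul_nonneg h1.le h1.le) h2,
      mul_nonneg (mul_nonneg h1.le h2) h2]
  · -- a < 0, h ≥ 0, a + h < 0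
    have h1 : 0 ≤ -(a + h) * h ^ 2 := mul_nonneg (by linarith) (sq_nonneg h)
    have h2 : 0 ≤ h ^ 3 := pow_nonneg hh' 3
    nlinarith
  · nlinarith
  · -- a<0, h<0
    have h1 : 0 < -a := by linarith
    have h2 : 0 < -h := by linarith
    nlinarith [mul_pos h1 (pow_pos h2 2), pow_pos h2 3]

theorem abs_cube_taylor (a h : ℝ) :
    |(|a + h| ^ 3 - |a| ^ 3 - 3 * (|a| * a * h) - 3 * (|a| * h * h))| ≤ |h| ^ 3 := by
  rw [abs_le]
  constructor
  · rcases abs_cases a with ⟨ha, ha'⟩ | ⟨ha, ha'⟩ <;>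
    rcases abs_cases h with ⟨hh, hh'⟩ | ⟨hh, hh'⟩ <;>
    rcases abs_cases (a + h) with ⟨hs, hs'⟩ | ⟨hs, hs'⟩ <;>
    rw [ha, hh, hs]
    · nlinarith [mul_nonneg ha' (sq_nonneg h), pow_nonneg hh' 3]
    · nlinarith
    · nlinarith [mul_nonneg ha' (sq_nonneg h), pow_pos (by linarith : 0 < -h) 3]
    · -- a ≥ 0, h < 0, a + h < 0 : -(a+h)^3 - a^3 - 3a^2h - 3ah^2 + (-h)^3 = -2 (a+h)^3
      nlinarith [pow_pos (by linarith : 0 < -(a+h)) 3]
    · -- a<0, h>=0, a+h >= 0 : (a+h)^3 + a^3 + 3a^2h+3ah^2 + h^3 = 2 (a+h)^3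
      nlinarith [pow_nonneg hs' 3]
    · nlinarith [pow_nonneg hh' 3]
    · nlinarith
    · nlinarith [pow_pos (by linarith : 0 < -h) 3]
  · rcases abs_cases a with ⟨ha, ha'⟩ | ⟨ha, ha'⟩ <;>
    rcases abs_cases h with ⟨hh, hh'⟩ | ⟨hh, hh'⟩ <;>
    rcases abs_cases (a + h) with ⟨hs, hs'⟩ | ⟨hs, hs'⟩ <;>
    rw [ha, hh, hs]
    · nlinarith [mul_nonneg ha' (sq_nonneg h), pow_nonneg hh' 3]
    · nlinarith
    · nlinarith [mul_nonneg ha' (sq_nonneg h), pow_pos (by linarith : 0 < -h) 3]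
    · -- a ≥ 0, h < 0, a + h < 0 : -(a+h)^3 - a^3 - 3a^2h - 3ah^2 ≤ (-h)^3
      nlinarith [mul_nonneg (sq_nonneg a) ha', pow_nonneg ha' 3, mul_nonneg ha' (sq_nonneg h), mul_nonneg ha' (sq_nonneg (a + h))]
    · have h1 : 0 < -a := by linarith
      nlinarith [pow_pos h1 3, mul_nonneg (mul_nonneg hh' h1.le) hs']
    · nlinarith [pow_nonneg hh' 3]
    · nlinarith
    · nlinarith [pow_pos (by linarith : 0 < -h) 3]

theorem abs_sq_diff (a b : ℝ) :
    |(|a + b| * (a + b) - |b| * b)| ≤ 2 * (|a| * (|a| + |b|)) := by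
  rw [abs_le]
  constructor
  · rcases abs_cases a with ⟨ha, ha'⟩ | ⟨ha, ha'⟩ <;>
    rcases abs_cases b with ⟨hh, hh'⟩ | ⟨hh, hh'⟩ <;>
    rcases abs_cases (a + b) with ⟨hs, hs'⟩ | ⟨hs, hs'⟩ <;>
    rw [ha, hh, hs] <;> nlinarith [mul_nonneg (abs_nonneg a) (abs_nonneg b), sq_nonneg a, sq_nonneg b, sq_nonneg (a+b), mul_self_nonneg a]
  · rcases abs_cases a with ⟨ha, ha'⟩ | ⟨ha, ha'⟩ <;>
    rcases abs_cases b with ⟨hh, hh'⟩ | ⟨hh, hh'⟩ <;>
    rcases abs_cases (a + b) with ⟨hs, hs'⟩ | ⟨hs, hs'⟩ <;>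
    rw [ha, hh, hs] <;> nlinarith [mul_nonneg (abs_nonneg a) (abs_nonneg b), sq_nonneg a, sq_nonneg b, sq_nonneg (a+b), mul_self_nonneg a]

theorem abs_cube_add_le (a b : ℝ) :
    |a + b| ^ 3 ≤ |a| ^ 3 + |b| ^ 3 + 3 * (|a| * |a| * |b|) + 3 * (|a| * |b| * |b|) := by
  have h := abs_add_le a b
  have h1 : |a + b| ^ 3 ≤ (|a| + |b|) ^ 3 := pow_le_pow_left₀ (abs_nonneg _) h 3
  nlinarith

theorem abs_cube_add_ge (a b : ℝ) :
    |b| ^ 3 - 3 * (|a| * |a| * |b|) - 3 * (|a| * |b| * |b|) ≤ |a + b| ^ 3 := by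
  have h1 := (abs_le.1 (abs_cube_taylor b a)).1
  have h2 : -(|b| * |b| * |a|) ≤ |b| * b * a := by
    have : |(|b| * b * a)| = |b| * |b| * |a| := by rw [abs_mul, abs_mul, abs_abs]
    rw [← this]; exact neg_abs_le _
  have h3 : 0 ≤ |b| * a * a := by
    have := mul_nonneg (abs_nonneg b) (mul_self_nonneg a)
    nlinarith
  have h4 : |b| * a * a = |b| * |a| * |a| := by
    rw [mul_assoc, mul_assoc, abs_mul_abs_self]
  have h5 := abs_cube_lower b a
  have h6 : 0 ≤ |a| ^ 3 := by positivity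
  have h7 : 0 ≤ |a| * |a| * |b| := by positivity
  have h8 : a + b = b + a := add_comm _ _
  rw [h8]
  nlinarith

theorem mul_mul_le_cubes (a b c : ℝ) (ha : 0 ≤ a) (hb : 0 ≤ b) (hc : 0 ≤ c) :
    a * b * c ≤ (a ^ 3 + b ^ 3 + c ^ 3) / 3 := by
  have h : 0 ≤ (a + b + c) * ((a - b) ^ 2 + (b - c) ^ 2 + (c - a) ^ 2) := by positivity
  nlinarith

/-- Coefficient bounds for a cubic polynomial which is small on `[-s, s]`. -/
theorem cubic_coeff (a0 a1 a2 a3 s ε : ℝ) (hs : 0 < s)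
    (h : ∀ t, |t| ≤ s → |a0 + a1 * t + a2 * t ^ 2 + a3 * t ^ 3| ≤ ε) :
    |a0| ≤ ε ∧ |a1| * s ≤ 5 * ε ∧ |a2| * s ^ 2 ≤ 3 * ε ∧ |a3| * s ^ 3 ≤ 4 * ε := by
  have e0 := h 0 (by simpa using hs.le)
  have e1 := h s (by rw [abs_of_pos hs])
  have e2 := h (-s) (by rw [abs_neg, abs_of_pos hs])
  have e3 := h (s / 2) (by rw [abs_of_pos (by linarith)]; linarith)
  have e4 := h (-(s / 2)) (by rw [abs_neg, abs_of_pos (by linarith)]; linarith)
  have hs1 : |a1| * s = |a1 * s| := by rw [abs_mul, abs_of_pos hs]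
  have hs2 : |a2| * s ^ 2 = |a2 * s ^ 2| := by rw [abs_mul, abs_of_pos (pow_pos hs 2)]
  have hs3 : |a3| * s ^ 3 = |a3 * s ^ 3| := by rw [abs_mul, abs_of_pos (pow_pos hs 3)]
  rw [hs1, hs2, hs3]
  rw [abs_le] at e0 e1 e2 e3 e4
  refine ⟨abs_le.2 ⟨by linarith, by linarith⟩, abs_le.2 ⟨?_, ?_⟩, abs_le.2 ⟨?_, ?_⟩,
    abs_le.2 ⟨?_, ?_⟩⟩ <;> nlinarith

theorem cubic_value (a0 a1 a2 a3 s ε : ℝ) (hs : 0 < s)
    (h : ∀ t, |t| ≤ s → |a0 + a1 * t + a2 * t ^ 2 + a3 * t ^ 3| ≤ ε) :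
    |a0 + a1 + a2 + a3| ≤ ε * (1 + 5 / s + 3 / s ^ 2 + 4 / s ^ 3) := by
  obtain ⟨h0, h1, h2, h3⟩ := cubic_coeff a0 a1 a2 a3 s ε hs h
  have h1' : |a1| ≤ 5 * ε / s := by rw [le_div_iff₀ hs]; exact h1
  have h2' : |a2| ≤ 3 * ε / s ^ 2 := by rw [le_div_iff₀ (pow_pos hs 2)]; exact h2
  have h3' : |a3| ≤ 4 * ε / s ^ 3 := by rw [le_div_iff₀ (pow_pos hs 3)]; exact h3
  have h4 : |a0 + a1 + a2 + a3| ≤ |a0| + |a1| + |a2| + |a3| := by
    refine (abs_add_le _ _).trans ?_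
    gcongr
    exact abs_add_three _ _ _
  refine h4.trans ?_
  have : ε * (1 + 5 / s + 3 / s ^ 2 + 4 / s ^ 3)
      = ε + 5 * ε / s + 3 * ε / s ^ 2 + 4 * ε / s ^ 3 := by ring
  rw [this]
  linarith

end Pool.Agent.Lib.MP_b5ab38_an
end

section

set_option autoImplicit false
set_option maxSynthPendingDepth 3

/-!
# Peano expansions, a Baire category argument, Whitney estimates
-/

namespace Pool.Agent.Lib.MP_b5ab38_an

open scoped Topology ENNReal
open Set Filter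

variable {X : Type*} [NormedAddCommGroup X] [NormedSpace ℝ X]

/-- Cubic Peano expansion along every line through `x`. -/
def PE (f : X → ℝ) (x : X) (L : X →L[ℝ] ℝ) (B : X →L[ℝ] X →L[ℝ] ℝ)
    (T : X →L[ℝ] X →L[ℝ] X →L[ℝ] ℝ) : Prop :=
  ∀ h, ∃ K δ, 0 < δ ∧ ∀ t, |t| ≤ δ →
    |f (x + t • h) - f x - t * L h - t ^ 2 * B h h - t ^ 3 * T h h h| ≤ K * t ^ 4

/-- Uniform expansion in a direction. -/
def Good (f : X → ℝ) (m : ℝ) (x h : X) (l b c : ℝ) : Prop :=
  ∀ t, |t| ≤ 1 / m → |f (x + t • h) - f x - t * l - t ^ 2 * b - t ^ 3 * c| ≤ m * t ^ 4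

theorem coeff_unique (g : ℝ → ℝ) (l b c l' b' c' K K' δ δ' : ℝ) (hδ : 0 < δ) (hδ' : 0 < δ')
    (h : ∀ t, |t| ≤ δ → |g t - t * l - t ^ 2 * b - t ^ 3 * c| ≤ K * t ^ 4)
    (h' : ∀ t, |t| ≤ δ' → |g t - t * l' - t ^ 2 * b' - t ^ 3 * c'| ≤ K' * t ^ 4) :
    l = l' ∧ b = b' ∧ c = c' := by
  set s0 := min (min δ δ') 1 with hs0
  have hs0pos : 0 < s0 := by positivity
  set KK := |K| + |K'| with hKK
  have hKK0 : 0 ≤ KK := by positivity
  have main : ∀ s, 0 < s → s ≤ s0 →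
      |l - l'| * s ≤ 5 * (KK * s ^ 4) ∧ |b - b'| * s ^ 2 ≤ 3 * (KK * s ^ 4) ∧
        |c - c'| * s ^ 3 ≤ 4 * (KK * s ^ 4) := by
    intro s hs hs'
    have h0 : ∀ t, |t| ≤ s → |0 + (l - l') * t + (b - b') * t ^ 2 + (c - c') * t ^ 3|
        ≤ KK * s ^ 4 := by
      intro t ht
      have h1 := h t (ht.trans (hs'.trans ((min_le_left _ _).trans (min_le_left _ _))))
      have h2 := h' t (ht.trans (hs'.trans ((min_le_left _ _).trans (min_le_right _ _))))
      have e : 0 + (l - l') * t + (b - b') * t ^ 2 + (c - c') * t ^ 3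
          = (g t - t * l' - t ^ 2 * b' - t ^ 3 * c') - (g t - t * l - t ^ 2 * b - t ^ 3 * c) := by
        ring
      rw [e]
      have h3 : K * t ^ 4 ≤ |K| * t ^ 4 := by
        have := le_abs_self K
        gcongr
      have h4 : K' * t ^ 4 ≤ |K'| * t ^ 4 := by
        have := le_abs_self K'
        gcongr
      have h5 : t ^ 4 ≤ s ^ 4 := by
        have : |t| ^ 4 ≤ s ^ 4 := pow_le_pow_left₀ (abs_nonneg _) ht 4
        have e2 : |t| ^ 4 = t ^ 4 := by
          rw [show (4 : ℕ) = 2 * 2 by norm_num, pow_mul, pow_mul, sq_abs]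
        rwa [e2] at this
      have h6 : KK * t ^ 4 ≤ KK * s ^ 4 := by gcongr
      calc |(g t - t * l' - t ^ 2 * b' - t ^ 3 * c') - (g t - t * l - t ^ 2 * b - t ^ 3 * c)|
          ≤ |(g t - t * l' - t ^ 2 * b' - t ^ 3 * c')| + |(g t - t * l - t ^ 2 * b - t ^ 3 * c)| :=
            abs_sub _ _
        _ ≤ KK * t ^ 4 := by rw [hKK, add_mul]; linarith
        _ ≤ _ := h6
    obtain ⟨_, h1, h2, h3⟩ := cubic_coeff 0 (l - l') (b - b') (c - c') s (KK * s ^ 4) hs h0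
    exact ⟨h1, h2, h3⟩
  have lim : ∀ a A : ℝ, 0 ≤ a → 0 ≤ A → (∀ s, 0 < s → s ≤ s0 → a ≤ A * s) → a = 0 := by
    intro a A ha hA hh
    by_contra hne
    have hpos : 0 < a := lt_of_le_of_ne ha (Ne.symm hne)
    have h1 := hh (min s0 (a / (2 * (A + 1)))) (by positivity) (min_le_left _ _)
    have h2 : A * min s0 (a / (2 * (A + 1))) ≤ A * (a / (2 * (A + 1))) := by
      gcongr; exact min_le_right _ _
    have h3 : A * (a / (2 * (A + 1))) < a := by
      rw [← mul_div_assoc, div_lt_iff₀ (by positivity)]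
      nlinarith
    linarith
  refine ⟨?_, ?_, ?_⟩
  · have := lim |l - l'| (5 * KK) (abs_nonneg _) (by positivity) (fun s hs hs' => by
      have h1 := (main s hs hs').1
      have hs1 : s ≤ 1 := hs'.trans (min_le_right _ _)
      have h2 : |l - l'| * s ≤ (5 * KK * s) * s := by
        refine h1.trans ?_
        have : KK * s ^ 4 ≤ KK * s ^ 2 := by
          have : s ^ 4 ≤ s ^ 2 := pow_le_pow_of_le_one hs.le hs1 (by norm_num)
          gcongr
        nlinarith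
      exact le_of_mul_le_mul_right h2 hs)
    rw [abs_eq_zero] at this; linarith
  · have := lim |b - b'| (3 * KK) (abs_nonneg _) (by positivity) (fun s hs hs' => by
      have h1 := (main s hs hs').2.1
      have hs1 : s ≤ 1 := hs'.trans (min_le_right _ _)
      have h2 : |b - b'| * s ^ 2 ≤ (3 * KK * s) * s ^ 2 := by
        refine h1.trans ?_
        have : KK * s ^ 4 ≤ KK * s ^ 3 := by
          have : s ^ 4 ≤ s ^ 3 := pow_le_pow_of_le_one hs.le hs1 (by norm_num)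
          gcongr
        nlinarith
      exact le_of_mul_le_mul_right h2 (by positivity))
    rw [abs_eq_zero] at this; linarith
  · have := lim |c - c'| (4 * KK) (abs_nonneg _) (by positivity) (fun s hs hs' => by
      have h1 := (main s hs hs').2.2
      have h2 : |c - c'| * s ^ 3 ≤ (4 * KK * s) * s ^ 3 := by
        refine h1.trans (le_of_eq (by ring))
      exact le_of_mul_le_mul_right h2 (by positivity))
    rw [abs_eq_zero] at this; linarith

/-- The closed set of pairs `(x, h)` with a uniform expansion. -/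
def GSet (f : X → ℝ) (m : ℝ) : Set (X × X) :=
  {p | ∃ q : ℝ × ℝ × ℝ, q ∈ Metric.closedBall (0 : ℝ × ℝ × ℝ) m ∧
    Good f m p.1 p.2 q.1 q.2.1 q.2.2}

theorem isClosed_GSet (f : X → ℝ) (hf : Continuous f) (m : ℝ) : IsClosed (GSet f m) := by
  have : CompactSpace (Metric.closedBall (0 : ℝ × ℝ × ℝ) m) :=
    isCompact_iff_compactSpace.1 (isCompact_closedBall _ _)
  set S : Set ((X × X) × (Metric.closedBall (0 : ℝ × ℝ × ℝ) m)) :=
    {p | Good f m p.1.1 p.1.2 p.2.1.1 p.2.1.2.1 p.2.1.2.2} with hS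
  have hSc : IsClosed S := by
    have : S = ⋂ t : ℝ, ⋂ _ : |t| ≤ 1 / m,
        {p : (X × X) × (Metric.closedBall (0 : ℝ × ℝ × ℝ) m) |
          |f (p.1.1 + t • p.1.2) - f p.1.1 - t * p.2.1.1 - t ^ 2 * p.2.1.2.1
            - t ^ 3 * p.2.1.2.2| ≤ m * t ^ 4} := by
      ext p
      simp only [hS, mem_iInter]
      rfl
    rw [this]
    refine isClosed_iInter (fun t => isClosed_iInter (fun _ => isClosed_le ?_ continuous_const))
    fun_prop
  have himg : GSet f m = Prod.fst '' S := by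
    ext p
    constructor
    · rintro ⟨q, hq, hg⟩
      exact ⟨(p, ⟨q, hq⟩), hg, rfl⟩
    · rintro ⟨⟨p', q⟩, hg, rfl⟩
      exact ⟨q.1, q.2, hg⟩
  rw [himg]
  exact isClosedMap_fst_of_compactSpace _ hSc

theorem good_of_mem_GSet {f : X → ℝ} {m : ℝ} (hm : 0 < m) {x h : X} {L : X →L[ℝ] ℝ}
    {B : X →L[ℝ] X →L[ℝ] ℝ} {T : X →L[ℝ] X →L[ℝ] X →L[ℝ] ℝ} (hPE : PE f x L B T)
    (hG : (x, h) ∈ GSet f m) : Good f m x h (L h) (B h h) (T h h h) := by
  obtain ⟨⟨l, b, c⟩, _, hg⟩ := hG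
  obtain ⟨K, δ, hδ, hK⟩ := hPE h
  obtain ⟨rfl, rfl, rfl⟩ := coeff_unique (fun t => f (x + t • h) - f x) (L h) (B h h) (T h h h)
    l b c K m δ (1 / m) hδ (by positivity) hK hg
  exact hg

theorem exists_mem_GSet {f : X → ℝ} {x : X} {L : X →L[ℝ] ℝ}
    {B : X →L[ℝ] X →L[ℝ] ℝ} {T : X →L[ℝ] X →L[ℝ] X →L[ℝ] ℝ} (hPE : PE f x L B T) (h : X) :
    ∃ n : ℕ, (x, h) ∈ GSet f ((n : ℝ) + 1) := by
  obtain ⟨K, δ, hδ, hK⟩ := hPE h
  obtain ⟨n, hn⟩ := exists_nat_ge (max (max |K| (1 / δ)) (max |L h| (max |B h h| |T h h h|)))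
  refine ⟨n, (L h, B h h, T h h h), ?_, ?_⟩
  · rw [mem_closedBall_zero_iff]
    have h1 : |L h| ≤ n := (le_max_left _ _).trans ((le_max_right _ _).trans hn)
    have h2 : |B h h| ≤ n :=
      (le_max_left _ _).trans ((le_max_right _ _).trans ((le_max_right _ _).trans hn))
    have h3 : |T h h h| ≤ n :=
      (le_max_right _ _).trans ((le_max_right _ _).trans ((le_max_right _ _).trans hn))
    rw [Prod.norm_def, Prod.norm_def]
    refine max_le ?_ (max_le ?_ ?_)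
    · show |L h| ≤ _
      linarith
    · show |B h h| ≤ _
      linarith
    · show |T h h h| ≤ _
      linarith
  · intro t ht
    have h1 : |K| ≤ n := (le_max_left _ _).trans ((le_max_left _ _).trans hn)
    have h2 : 1 / δ ≤ n := (le_max_right _ _).trans ((le_max_left _ _).trans hn)
    have h3 : 1 / ((n : ℝ) + 1) ≤ δ := by
      have h4 : 1 / δ ≤ (n : ℝ) + 1 := by linarith
      rw [div_le_iff₀ hδ] at h4
      rw [div_le_iff₀ (by positivity)]
      linarith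
    refine (hK t (ht.trans h3)).trans ?_
    have h5 : K ≤ (n : ℝ) + 1 := by linarith [le_abs_self K]
    have : 0 ≤ t ^ 4 := by positivity
    gcongr

/-- The Baire category argument. -/
theorem exists_uniform [CompleteSpace X] [SecondCountableTopology X] (f : X → ℝ)
    (hf : Continuous f) (S : Set X) (hS : S.Nonempty) (L : X → (X →L[ℝ] ℝ))
    (B : X → (X →L[ℝ] X →L[ℝ] ℝ)) (T : X → (X →L[ℝ] X →L[ℝ] X →L[ℝ] ℝ))
    (hPE : ∀ x ∈ closure S, PE f x (L x) (B x) (T x)) :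
    ∃ (m : ℝ) (h₀ : X) (ρ : ℝ) (x : X) (r : ℝ), 0 < m ∧ 0 < ρ ∧ 0 < r ∧ x ∈ S ∧
      ∀ y ∈ S, ‖y - x‖ < r → ∀ h ∈ Metric.ball h₀ ρ,
        Good f m y h (L y h) (B y h h) (T y h h h) := by
  classical
  set 𝒱 := TopologicalSpace.countableBasis X with h𝒱
  have hcount : 𝒱.Countable := TopologicalSpace.countable_countableBasis X
  have : Countable 𝒱 := hcount.to_subtype
  set C := closure S with hC
  have : CompleteSpace C := (isClosed_closure : IsClosed (closure S)).completeSpace_coe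
  have : Nonempty C := (hS.mono subset_closure).to_subtype
  set A : ℕ × 𝒱 → Set C := fun p =>
    {x : C | ∀ h ∈ (p.2 : Set X), ((x : X), h) ∈ GSet f ((p.1 : ℝ) + 1)} with hA
  have hAclosed : ∀ p, IsClosed (A p) := by
    intro p
    have : A p = ⋂ h : X, ⋂ _ : h ∈ (p.2 : Set X),
        {x : C | ((x : X), h) ∈ GSet f ((p.1 : ℝ) + 1)} := by
      ext x
      simp only [hA, mem_iInter]
      rfl
    rw [this]
    refine isClosed_iInter (fun h => isClosed_iInter (fun _ => ?_))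
    exact (isClosed_GSet f hf _).preimage (by fun_prop)
  have hAcover : ⋃ p, A p = univ := by
    rw [eq_univ_iff_forall]
    intro x
    have hx := hPE x.1 x.2
    have h1 : ∀ n : ℕ, IsClosed {h : X | ((x : X), h) ∈ GSet f ((n : ℝ) + 1)} := fun n =>
      (isClosed_GSet f hf _).preimage (by fun_prop)
    have h2 : ⋃ n : ℕ, {h : X | ((x : X), h) ∈ GSet f ((n : ℝ) + 1)} = univ := by
      rw [eq_univ_iff_forall]
      intro h
      obtain ⟨n, hn⟩ := exists_mem_GSet hx h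
      exact mem_iUnion.2 ⟨n, hn⟩
    obtain ⟨n, hn⟩ := nonempty_interior_of_iUnion_of_closed h1 h2
    obtain ⟨h₀, hh₀⟩ := hn
    obtain ⟨V, hV, hh₀V, hVsub⟩ := (TopologicalSpace.isBasis_countableBasis X).exists_subset_of_mem_open
      hh₀ isOpen_interior
    refine mem_iUnion.2 ⟨(n, ⟨V, hV⟩), fun h hh => ?_⟩
    exact (interior_subset (hVsub hh) : h ∈ {h : X | ((x : X), h) ∈ GSet f ((n : ℝ) + 1)})
  obtain ⟨⟨n, V, hV⟩, hne⟩ := nonempty_interior_of_iUnion_of_closed hAclosed hAcover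
  obtain ⟨c, hc⟩ := hne
  have hopen : IsOpen (interior (A (n, ⟨V, hV⟩))) := isOpen_interior
  obtain ⟨W, hW, hWeq⟩ := isOpen_induced_iff.1 hopen
  have hcW : (c : X) ∈ W := by
    have : c ∈ Subtype.val ⁻¹' W := by rw [hWeq]; exact hc
    exact this
  obtain ⟨x, hxW, hxS⟩ := mem_closure_iff.1 c.2 W hW hcW
  obtain ⟨r, hr, hrW⟩ := Metric.isOpen_iff.1 hW x hxW
  have hVopen : IsOpen V := TopologicalSpace.isOpen_of_mem_countableBasis hV
  have hVne : V.Nonempty := TopologicalSpace.nonempty_of_mem_countableBasis hV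
  obtain ⟨h₀, hh₀⟩ := hVne
  obtain ⟨ρ, hρ, hρV⟩ := Metric.isOpen_iff.1 hVopen h₀ hh₀
  refine ⟨(n : ℝ) + 1, h₀, ρ, x, r, by positivity, hρ, hr, hxS, fun y hy hyr h hh => ?_⟩
  have hyW : y ∈ W := hrW (by rw [Metric.mem_ball, dist_eq_norm]; exact hyr)
  have hyC : y ∈ C := subset_closure hy
  have hyA : (⟨y, hyC⟩ : C) ∈ A (n, ⟨V, hV⟩) := by
    have : (⟨y, hyC⟩ : C) ∈ Subtype.val ⁻¹' W := hyW
    rw [hWeq] at this
    exact interior_subset this
  exact good_of_mem_GSet (by positivity) (hPE y hyC) (hyA h (hρV hh))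

/-- Bounds for a cubic polynomial that is small on a ball. -/
theorem poly_bound (a : ℝ) (l : X →L[ℝ] ℝ) (b : X →L[ℝ] X →L[ℝ] ℝ)
    (c : X →L[ℝ] X →L[ℝ] X →L[ℝ] ℝ) (h₀ : X) (ρ ε s : ℝ) (hρ : 0 < ρ)
    (hs : s = ρ / (‖h₀‖ + 1))
    (h : ∀ z, ‖z - h₀‖ ≤ ρ → |a + l z + b z z + c z z z| ≤ ε) (w : X) (hw : ‖w‖ ≤ 1) :
    |l w| ≤ 5 * (ε * (1 + 5 / s + 3 / s ^ 2 + 4 / s ^ 3)) ∧
      |b w w| ≤ 3 * (ε * (1 + 5 / s + 3 / s ^ 2 + 4 / s ^ 3)) := by
  have hspos : 0 < s := by rw [hs]; positivity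
  have step1 : ∀ z : X, ‖z‖ ≤ 1 →
      |a + l z + b z z + c z z z| ≤ ε * (1 + 5 / s + 3 / s ^ 2 + 4 / s ^ 3) := by
    intro z hz
    set k := z - h₀ with hk
    have hk' : z = h₀ + k := by rw [hk]; abel
    have h1 := cubic_value (a + l h₀ + b h₀ h₀ + c h₀ h₀ h₀)
      (l k + b h₀ k + b k h₀ + c h₀ h₀ k + c h₀ k h₀ + c k h₀ h₀)
      (b k k + c h₀ k k + c k h₀ k + c k k h₀) (c k k k) s ε hspos (fun t ht => by
        have h2 := h (h₀ + t • k) (by
          rw [add_sub_cancel_left, norm_smul, Real.norm_eq_abs]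
          have h3 : ‖k‖ ≤ ‖h₀‖ + 1 := by
            rw [hk]
            exact (norm_sub_le _ _).trans (by linarith)
          calc |t| * ‖k‖ ≤ s * (‖h₀‖ + 1) := by gcongr
            _ = ρ := by rw [hs]; field_simp)
        refine le_trans (le_of_eq ?_) h2
        congr 1
        simp only [map_add, map_smul, _root_.add_apply, _root_.smul_apply, smul_eq_mul]
        ring)
    refine le_trans (le_of_eq ?_) h1
    congr 1
    rw [hk']
    simp only [map_add, _root_.add_apply]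
    ring
  have h2 := cubic_coeff a (l w) (b w w) (c w w w) 1
    (ε * (1 + 5 / s + 3 / s ^ 2 + 4 / s ^ 3)) one_pos (fun t ht => by
      have h3 := step1 (t • w) (by
        rw [norm_smul, Real.norm_eq_abs]
        nlinarith [norm_nonneg w, abs_nonneg t])
      refine le_trans (le_of_eq ?_) h3
      congr 1
      simp only [map_smul, _root_.smul_apply, smul_eq_mul]
      ring)
  obtain ⟨_, h3, h4, _⟩ := h2
  rw [mul_one] at h3
  rw [one_pow, mul_one] at h4
  exact ⟨h3, h4⟩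

/-- Whitney type estimates. -/
theorem whitney (f : X → ℝ) (L : X → (X →L[ℝ] ℝ))
    (B : X → (X →L[ℝ] X →L[ℝ] ℝ)) (T : X → (X →L[ℝ] X →L[ℝ] X →L[ℝ] ℝ))
    (m : ℝ) (hm : 0 < m) (h₀ : X) (ρ : ℝ) (hρ : 0 < ρ) :
    ∃ C s₀ : ℝ, 0 < C ∧ 0 < s₀ ∧ ∀ x y : X,
      (∀ h ∈ Metric.ball h₀ ρ, Good f m x h (L x h) (B x h h) (T x h h h)) →
      (∀ h ∈ Metric.ball h₀ ρ, Good f m y h (L y h) (B y h h) (T y h h h)) →
      (∀ a b, B x a b = B x b a) → (∀ a b c, T x a b c = T x b a c) →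
      (∀ a b c, T x a b c = T x a c b) →
      ‖y - x‖ ≤ s₀ →
      (∀ w, |L y w - L x w - 2 * B x (y - x) w - 3 * T x (y - x) (y - x) w|
        ≤ C * ‖y - x‖ ^ 3 * ‖w‖) ∧
      (∀ w, |B y w w - B x w w - 3 * T x (y - x) w w| ≤ C * ‖y - x‖ ^ 2 * ‖w‖ ^ 2) := by
  set s := (ρ / 4) / (‖h₀‖ + 1) with hs
  have hspos : 0 < s := by positivity
  set Q := 1 + 5 / s + 3 / s ^ 2 + 4 / s ^ 3 with hQ
  have hQpos : 0 < Q := by positivity
  set C := 10 * m * Q * (2 / ρ) ^ 3 + 10 * m * Q * (2 / ρ) ^ 2 with hC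
  have hCpos : 0 < C := by positivity
  refine ⟨C, ρ / (2 * m), hCpos, by positivity, ?_⟩
  intro x y hx hy hBs hT1 hT2 hxy
  set d := y - x with hd
  by_cases hd0 : d = 0
  · have hyx : y = x := by rwa [hd, sub_eq_zero] at hd0
    subst hyx
    rw [hd0]
    constructor
    · intro w; simp
    · intro w; simp
  have hdpos : 0 < ‖d‖ := norm_pos_iff.2 hd0
  set t := 2 * ‖d‖ / ρ with ht
  have htpos : 0 < t := by positivity
  have htm : t ≤ 1 / m := by
    rw [ht, div_le_div_iff₀ hρ hm]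
    rw [le_div_iff₀ (by positivity)] at hxy
    linarith
  have habs : |t| ≤ 1 / m := by rw [abs_of_pos htpos]; exact htm
  have hty : y = x + d := by rw [hd]; abel
  set a0 : ℝ := f y - (f x + L x d + B x d d + T x d d d) with ha0
  set l0 : X →L[ℝ] ℝ := L y - L x - (2 : ℝ) • B x d - (3 : ℝ) • T x d d with hl0
  set b0 : X →L[ℝ] X →L[ℝ] ℝ := B y - B x - (3 : ℝ) • T x d with hb0
  set c0 : X →L[ℝ] X →L[ℝ] X →L[ℝ] ℝ := T y - T x with hc0
  have hpoly : ∀ z, ‖z - h₀‖ ≤ ρ / 4 →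
      |a0 + (t • l0) z + (t ^ 2 • b0) z z + (t ^ 3 • c0) z z z| ≤ 2 * m * t ^ 4 := by
    intro z hz
    have hz1 : z ∈ Metric.ball h₀ ρ := by
      rw [Metric.mem_ball, dist_eq_norm]; linarith
    have hz2 : z + t⁻¹ • d ∈ Metric.ball h₀ ρ := by
      rw [Metric.mem_ball, dist_eq_norm]
      have e1 : z + t⁻¹ • d - h₀ = (z - h₀) + t⁻¹ • d := by abel
      have e2 : ‖t⁻¹ • d‖ = ρ / 2 := by
        rw [norm_smul, Real.norm_eq_abs, abs_of_pos (by positivity), ht]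
        field_simp
      rw [e1]
      calc ‖(z - h₀) + t⁻¹ • d‖ ≤ ‖z - h₀‖ + ‖t⁻¹ • d‖ := norm_add_le _ _
        _ < ρ := by rw [e2]; linarith
    have h1 := hy z hz1 t habs
    have h2 := hx (z + t⁻¹ • d) hz2 t habs
    have e3 : x + t • (z + t⁻¹ • d) = y + t • z := by
      rw [smul_add, smul_smul, mul_inv_cancel₀ htpos.ne', one_smul, hty]; abel
    rw [e3] at h2
    have e4 : a0 + (t • l0) z + (t ^ 2 • b0) z z + (t ^ 3 • c0) z z z
        = (f (y + t • z) - f x - t * L x (z + t⁻¹ • d)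
            - t ^ 2 * B x (z + t⁻¹ • d) (z + t⁻¹ • d)
            - t ^ 3 * T x (z + t⁻¹ • d) (z + t⁻¹ • d) (z + t⁻¹ • d))
          - (f (y + t • z) - f y - t * L y z - t ^ 2 * B y z z - t ^ 3 * T y z z z) := by
      simp only [ha0, hl0, hb0, hc0, map_add, map_smul, _root_.add_apply, _root_.sub_apply,
        _root_.smul_apply, smul_eq_mul]
      rw [hBs z d, hT1 z d d, hT2 d z d, hT2 z z d, hT1 z d z]
      field_simp
      ring
    rw [e4]
    refine (abs_sub _ _).trans ?_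
    linarith
  have key := poly_bound a0 (t • l0) (t ^ 2 • b0) (t ^ 3 • c0) h₀ (ρ / 4) (2 * m * t ^ 4) s
    (by positivity) hs hpoly
  have hl : ∀ w, ‖w‖ ≤ 1 → |l0 w| ≤ C * ‖d‖ ^ 3 := by
    intro w hw
    obtain ⟨h1, _⟩ := key w hw
    rw [_root_.smul_apply, smul_eq_mul, abs_mul, abs_of_pos htpos] at h1
    have h2 : t * |l0 w| ≤ t * (10 * m * Q * t ^ 3) := by
      refine h1.trans (le_of_eq ?_)
      rw [← hQ]; ring
    have h3 := le_of_mul_le_mul_left h2 htpos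
    refine h3.trans ?_
    have e : 10 * m * Q * t ^ 3 = 10 * m * Q * (2 / ρ) ^ 3 * ‖d‖ ^ 3 := by
      rw [ht]; ring
    rw [e]
    gcongr
    rw [hC]
    have : 0 ≤ 10 * m * Q * (2 / ρ) ^ 2 := by positivity
    linarith
  have hb : ∀ w, ‖w‖ ≤ 1 → |b0 w w| ≤ C * ‖d‖ ^ 2 := by
    intro w hw
    obtain ⟨_, h1⟩ := key w hw
    rw [_root_.smul_apply, _root_.smul_apply, smul_eq_mul, abs_mul, abs_of_pos (by positivity)] at h1
    have h2 : t ^ 2 * |b0 w w| ≤ t ^ 2 * (10 * m * Q * t ^ 2) := by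
      refine h1.trans ?_
      rw [← hQ]
      have : 0 ≤ m * Q * t ^ 4 := by positivity
      nlinarith
    have h3 := le_of_mul_le_mul_left h2 (by positivity)
    refine h3.trans ?_
    have e : 10 * m * Q * t ^ 2 = 10 * m * Q * (2 / ρ) ^ 2 * ‖d‖ ^ 2 := by
      rw [ht]; ring
    rw [e]
    gcongr
    rw [hC]
    have : 0 ≤ 10 * m * Q * (2 / ρ) ^ 3 := by positivity
    linarith
  constructor
  · intro w
    have e1 : L y w - L x w - 2 * B x d w - 3 * T x d d w = l0 w := by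
      simp only [hl0, _root_.sub_apply, _root_.smul_apply, smul_eq_mul]
    rw [e1]
    by_cases hw : w = 0
    · subst hw; simp
    have hwpos : 0 < ‖w‖ := norm_pos_iff.2 hw
    have h1 := hl (‖w‖⁻¹ • w) (by rw [norm_smul, norm_inv, norm_norm, inv_mul_cancel₀ hwpos.ne'])
    rw [map_smul, smul_eq_mul, abs_mul, abs_of_pos (by positivity)] at h1
    have h2 : |l0 w| = ‖w‖ * (‖w‖⁻¹ * |l0 w|) := by field_simp
    rw [h2]
    calc ‖w‖ * (‖w‖⁻¹ * |l0 w|) ≤ ‖w‖ * (C * ‖d‖ ^ 3) := mul_le_mul_of_nonneg_left h1 hwpos.le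
      _ = _ := by ring
  · intro w
    have e1 : B y w w - B x w w - 3 * T x d w w = b0 w w := by
      simp only [hb0, _root_.sub_apply, _root_.smul_apply, smul_eq_mul]
    rw [e1]
    by_cases hw : w = 0
    · subst hw; simp
    have hwpos : 0 < ‖w‖ := norm_pos_iff.2 hw
    have h1 := hb (‖w‖⁻¹ • w) (by rw [norm_smul, norm_inv, norm_norm, inv_mul_cancel₀ hwpos.ne'])
    rw [map_smul b0, _root_.smul_apply, map_smul (b0 w), smul_eq_mul, smul_eq_mul, ← mul_assoc,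
      abs_mul, abs_of_pos (by positivity)] at h1
    have h2 : |b0 w w| = ‖w‖ ^ 2 * (‖w‖⁻¹ * ‖w‖⁻¹ * |b0 w w|) := by field_simp
    rw [h2]
    calc ‖w‖ ^ 2 * (‖w‖⁻¹ * ‖w‖⁻¹ * |b0 w w|) ≤ ‖w‖ ^ 2 * (C * ‖d‖ ^ 2) :=
          mul_le_mul_of_nonneg_left h1 (by positivity)
      _ = _ := by ring

end Pool.Agent.Lib.MP_b5ab38_an
end

section

set_option autoImplicit false

/-!
# The space `ℓ_3`
-/

namespace Pool.Agent.Lib.MP_b5ab38_an

open scoped Topology ENNReal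
open Set Filter

/-- The Banach space `ℓ_3`. -/
abbrev X3 := lp (fun _ : ℕ => ℝ) 3

theorem summable_cube (x : X3) : Summable fun i => |x i| ^ 3 := by
  have := (lp.memℓp x).summable (by norm_num)
  simpa using this

theorem hasSum_cube (x : X3) : HasSum (fun i => |x i| ^ 3) (‖x‖ ^ 3) := by
  have h : ‖x‖ ^ (3 : ℝ≥0∞).toReal = ∑' i, ‖x i‖ ^ (3 : ℝ≥0∞).toReal :=
    lp.norm_rpow_eq_tsum (by norm_num) x
  have h' : ‖x‖ ^ 3 = ∑' i, |x i| ^ 3 := by simpa using h
  rw [h']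
  exact (summable_cube x).hasSum

theorem memlp_of_summable_cube (a : ℕ → ℝ) (h : Summable fun i => |a i| ^ 3) :
    Memℓp a 3 := memℓp_gen (by simpa using h)

theorem summable_triple (a b c : X3) : Summable fun i => |a i| * |b i| * |c i| := by
  refine Summable.of_nonneg_of_le (fun i => by positivity)
    (fun i => mul_mul_le_cubes _ _ _ (abs_nonneg _) (abs_nonneg _) (abs_nonneg _)) ?_
  exact (((summable_cube a).add (summable_cube b)).add (summable_cube c)).div_const 3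

theorem tsum_triple_le (a b c : X3) : ∑' i, |a i| * |b i| * |c i| ≤ ‖a‖ * ‖b‖ * ‖c‖ := by
  by_cases ha : a = 0
  · subst ha; simp
  by_cases hb : b = 0
  · subst hb; simp
  by_cases hc : c = 0
  · subst hc; simp
  have hA : 0 < ‖a‖ := norm_pos_iff.2 ha
  have hB : 0 < ‖b‖ := norm_pos_iff.2 hb
  have hC : 0 < ‖c‖ := norm_pos_iff.2 hc
  have hs : HasSum (fun i => ‖a‖ * ‖b‖ * ‖c‖ / 3 * (|a i| ^ 3 / ‖a‖ ^ 3 + |b i| ^ 3 / ‖b‖ ^ 3
      + |c i| ^ 3 / ‖c‖ ^ 3)) (‖a‖ * ‖b‖ * ‖c‖ / 3 * (‖a‖ ^ 3 / ‖a‖ ^ 3 + ‖b‖ ^ 3 / ‖b‖ ^ 3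
      + ‖c‖ ^ 3 / ‖c‖ ^ 3)) :=
    ((((hasSum_cube a).div_const _).add ((hasSum_cube b).div_const _)).add
      ((hasSum_cube c).div_const _)).mul_left _
  have hval : ‖a‖ * ‖b‖ * ‖c‖ / 3 * (‖a‖ ^ 3 / ‖a‖ ^ 3 + ‖b‖ ^ 3 / ‖b‖ ^ 3
      + ‖c‖ ^ 3 / ‖c‖ ^ 3) = ‖a‖ * ‖b‖ * ‖c‖ := by
    rw [div_self (by positivity), div_self (by positivity), div_self (by positivity)]; ring
  rw [hval] at hs
  refine hasSum_le (fun i => ?_) (summable_triple a b c).hasSum hs
  have h := mul_mul_le_cubes (|a i| / ‖a‖) (|b i| / ‖b‖) (|c i| / ‖c‖) (by positivity)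
    (by positivity) (by positivity)
  have e : |a i| * |b i| * |c i|
      = ‖a‖ * ‖b‖ * ‖c‖ * (|a i| / ‖a‖ * (|b i| / ‖b‖) * (|c i| / ‖c‖)) := by
    field_simp
  rw [e]
  calc ‖a‖ * ‖b‖ * ‖c‖ * (|a i| / ‖a‖ * (|b i| / ‖b‖) * (|c i| / ‖c‖))
      ≤ ‖a‖ * ‖b‖ * ‖c‖ * (((|a i| / ‖a‖) ^ 3 + (|b i| / ‖b‖) ^ 3 + (|c i| / ‖c‖) ^ 3) / 3) := by
        gcongr
    _ = _ := by rw [div_pow, div_pow, div_pow]; ring

theorem summable_mul3 (a b c : X3) : Summable fun i => a i * b i * c i := by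
  refine (summable_triple a b c).of_norm_bounded (fun i => ?_)
  rw [Real.norm_eq_abs, abs_mul, abs_mul]

theorem abs_tsum_mul3_le (a b c : X3) : |∑' i, a i * b i * c i| ≤ ‖a‖ * ‖b‖ * ‖c‖ := by
  refine le_trans ?_ (tsum_triple_le a b c)
  have h : Summable fun i => ‖a i * b i * c i‖ := (summable_mul3 a b c).norm
  have h2 := norm_tsum_le_tsum_norm h
  rw [Real.norm_eq_abs] at h2
  refine h2.trans (le_of_eq ?_)
  congr 1
  funext i
  rw [Real.norm_eq_abs, abs_mul, abs_mul]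

/-- The trilinear form in its last variable. -/
noncomputable def M1 (a b : X3) : X3 →L[ℝ] ℝ :=
  LinearMap.mkContinuous
    { toFun := fun c => ∑' i, a i * b i * c i
      map_add' := fun c d => by
        rw [← (summable_mul3 a b c).tsum_add (summable_mul3 a b d)]
        congr 1; funext i
        show a i * b i * (c i + d i) = _
        ring
      map_smul' := fun r c => by
        rw [RingHom.id_apply, smul_eq_mul, ← (summable_mul3 a b c).tsum_mul_left]
        congr 1; funext i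
        show a i * b i * (r * c i) = _
        ring }
    (‖a‖ * ‖b‖) (fun c => by
      show ‖∑' i, a i * b i * c i‖ ≤ _
      rw [Real.norm_eq_abs]
      exact abs_tsum_mul3_le a b c)

theorem M1_apply (a b c : X3) : M1 a b c = ∑' i, a i * b i * c i := rfl

theorem norm_M1_le (a b : X3) : ‖M1 a b‖ ≤ ‖a‖ * ‖b‖ :=
  LinearMap.mkContinuous_norm_le _ (by positivity) _

/-- The trilinear form in its last two variables. -/
noncomputable def M2 (a : X3) : X3 →L[ℝ] X3 →L[ℝ] ℝ :=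
  LinearMap.mkContinuous
    { toFun := fun b => M1 a b
      map_add' := fun c d => by
        ext v
        rw [_root_.add_apply, M1_apply, M1_apply, M1_apply,
          ← (summable_mul3 a c v).tsum_add (summable_mul3 a d v)]
        congr 1; funext i
        show a i * (c i + d i) * v i = _
        ring
      map_smul' := fun r c => by
        ext v
        rw [RingHom.id_apply, _root_.smul_apply, smul_eq_mul, M1_apply, M1_apply,
          ← (summable_mul3 a c v).tsum_mul_left]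
        congr 1; funext i
        show a i * (r * c i) * v i = _
        ring }
    ‖a‖ (fun b => norm_M1_le a b)

theorem M2_apply (a b c : X3) : M2 a b c = ∑' i, a i * b i * c i := rfl

theorem norm_M2_le (a : X3) : ‖M2 a‖ ≤ ‖a‖ :=
  LinearMap.mkContinuous_norm_le _ (by positivity) _

/-- The trilinear form `M(a,b,c) = ∑ aᵢ bᵢ cᵢ` on `ℓ_3`. -/
noncomputable def M : X3 →L[ℝ] X3 →L[ℝ] X3 →L[ℝ] ℝ :=
  LinearMap.mkContinuous
    { toFun := fun a => M2 a
      map_add' := fun c d => by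
        ext u v
        rw [_root_.add_apply, _root_.add_apply, M2_apply, M2_apply, M2_apply,
          ← (summable_mul3 c u v).tsum_add (summable_mul3 d u v)]
        congr 1; funext i
        show (c i + d i) * u i * v i = _
        ring
      map_smul' := fun r c => by
        ext u v
        rw [RingHom.id_apply, _root_.smul_apply, _root_.smul_apply, smul_eq_mul, M2_apply, M2_apply,
          ← (summable_mul3 c u v).tsum_mul_left]
        congr 1; funext i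
        show (r * c i) * u i * v i = _
        ring }
    1 (fun b => by simpa using norm_M2_le b)

theorem M_apply (a b c : X3) : M a b c = ∑' i, a i * b i * c i := rfl

theorem hasSum_M (a b c : X3) : HasSum (fun i => a i * b i * c i) (M a b c) :=
  (summable_mul3 a b c).hasSum

theorem abs_M_le (a b c : X3) : |M a b c| ≤ ‖a‖ * ‖b‖ * ‖c‖ := abs_tsum_mul3_le a b c

/-- Coordinatewise absolute value. -/
noncomputable def absX (x : X3) : X3 :=
  ⟨fun i => |x i|, memlp_of_summable_cube _ (by simpa using summable_cube x)⟩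

@[simp] theorem absX_apply (x : X3) (i : ℕ) : absX x i = |x i| := rfl

theorem norm_absX (x : X3) : ‖absX x‖ = ‖x‖ := by
  have h1 := hasSum_cube (absX x)
  have h2 := hasSum_cube x
  simp only [absX_apply, abs_abs] at h1
  have h3 := h1.unique h2
  exact (pow_left_inj₀ (norm_nonneg _) (norm_nonneg _) (by norm_num)).1 h3

theorem cube_lower (z v : X3) :
    ‖z‖ ^ 3 + 3 * M (absX z) z v + ‖v‖ ^ 3 / 4 ≤ ‖z + v‖ ^ 3 := by
  refine hasSum_le (fun i => ?_) (((hasSum_cube z).add ((hasSum_M (absX z) z v).mul_left 3)).add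
    ((hasSum_cube v).div_const 4)) (hasSum_cube (z + v))
  exact abs_cube_lower (z i) (v i)

theorem cube_taylor_le (z v : X3) :
    ‖z + v‖ ^ 3 ≤ ‖z‖ ^ 3 + 3 * M (absX z) z v + 3 * M (absX z) v v + ‖v‖ ^ 3 := by
  refine hasSum_le (fun i => ?_) (hasSum_cube (z + v)) ((((hasSum_cube z).add
    ((hasSum_M (absX z) z v).mul_left 3)).add ((hasSum_M (absX z) v v).mul_left 3)).add
    (hasSum_cube v))
  have := (abs_le.1 (abs_cube_taylor (z i) (v i))).2
  show |z i + v i| ^ 3 ≤ |z i| ^ 3 + 3 * (|z i| * z i * v i) + 3 * (|z i| * v i * v i) + |v i| ^ 3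
  linarith

theorem cube_taylor_ge (z v : X3) :
    ‖z‖ ^ 3 + 3 * M (absX z) z v + 3 * M (absX z) v v - ‖v‖ ^ 3 ≤ ‖z + v‖ ^ 3 := by
  refine hasSum_le (fun i => ?_) ((((hasSum_cube z).add
    ((hasSum_M (absX z) z v).mul_left 3)).add ((hasSum_M (absX z) v v).mul_left 3)).sub
    (hasSum_cube v)) (hasSum_cube (z + v))
  have := (abs_le.1 (abs_cube_taylor (z i) (v i))).1
  show |z i| ^ 3 + 3 * (|z i| * z i * v i) + 3 * (|z i| * v i * v i) - |v i| ^ 3 ≤ |z i + v i| ^ 3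
  linarith

theorem cube_add_le (U u : X3) :
    ‖U + u‖ ^ 3 ≤ ‖U‖ ^ 3 + ‖u‖ ^ 3 + 3 * M (absX U) (absX U) (absX u)
      + 3 * M (absX U) (absX u) (absX u) := by
  refine hasSum_le (fun i => ?_) (hasSum_cube (U + u)) ((((hasSum_cube U).add
    (hasSum_cube u)).add ((hasSum_M (absX U) (absX U) (absX u)).mul_left 3)).add
    ((hasSum_M (absX U) (absX u) (absX u)).mul_left 3))
  exact abs_cube_add_le (U i) (u i)

theorem cube_add_ge (U u : X3) :
    ‖u‖ ^ 3 - 3 * M (absX U) (absX U) (absX u) - 3 * M (absX U) (absX u) (absX u)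
      ≤ ‖U + u‖ ^ 3 := by
  refine hasSum_le (fun i => ?_) ((((hasSum_cube u)).sub
    ((hasSum_M (absX U) (absX U) (absX u)).mul_left 3)).sub
    ((hasSum_M (absX U) (absX u) (absX u)).mul_left 3)) (hasSum_cube (U + u))
  exact abs_cube_add_ge (U i) (u i)

/-- `|J(U+u)(v) - J(u)(v)| ≤ 2 M(|U|,|U|,|v|) + 2 M(|U|,|u|,|v|)`. -/
theorem J_diff (U u v : X3) :
    |M (absX (U + u)) (U + u) v - M (absX u) u v|
      ≤ 2 * M (absX U) (absX U) (absX v) + 2 * M (absX U) (absX u) (absX v) := by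
  have key : ∀ i, |(absX (U + u) i * (U + u) i * v i - absX u i * u i * v i)|
      ≤ 2 * (absX U i * absX U i * absX v i) + 2 * (absX U i * absX u i * absX v i) := by
    intro i
    have := abs_sq_diff (U i) (u i)
    have e : absX (U + u) i * (U + u) i * v i - absX u i * u i * v i
        = (|U i + u i| * (U i + u i) - |u i| * u i) * v i := by
      show |U i + u i| * (U i + u i) * v i - |u i| * u i * v i = _
      ring
    rw [e, abs_mul]
    simp only [absX_apply]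
    calc |(|U i + u i| * (U i + u i) - |u i| * u i)| * |v i|
        ≤ (2 * (|U i| * (|U i| + |u i|))) * |v i| := by gcongr
      _ = _ := by ring
  rw [abs_le]
  constructor
  · refine hasSum_le (fun i => ?_) (((hasSum_M (absX U) (absX U) (absX v)).mul_left 2).add
      ((hasSum_M (absX U) (absX u) (absX v)).mul_left 2)).neg
      ((hasSum_M (absX (U + u)) (U + u) v).sub (hasSum_M (absX u) u v))
    exact (abs_le.1 (key i)).1
  · refine hasSum_le (fun i => ?_) ((hasSum_M (absX (U + u)) (U + u) v).sub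
      (hasSum_M (absX u) u v)) (((hasSum_M (absX U) (absX U) (absX v)).mul_left 2).add
      ((hasSum_M (absX U) (absX u) (absX v)).mul_left 2))
    exact (abs_le.1 (key i)).2

/-- `G(U+u)(v,v) ≥ G(u)(v,v) - M(|U|,|v|,|v|)`. -/
theorem G_diff (U u v : X3) :
    M (absX u) v v - M (absX U) (absX v) (absX v) ≤ M (absX (U + u)) v v := by
  refine hasSum_le (fun i => ?_) ((hasSum_M (absX u) v v).sub
    (hasSum_M (absX U) (absX v) (absX v))) (hasSum_M (absX (U + u)) v v)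
  show |u i| * v i * v i - |U i| * |v i| * |v i| ≤ |U i + u i| * v i * v i
  have h : |u i| ≤ |U i| + |U i + u i| := by
    have : u i = -(U i) + (U i + u i) := by ring
    calc |u i| = |(-(U i) + (U i + u i))| := by rw [← this]
      _ ≤ |(-(U i))| + |U i + u i| := abs_add_le _ _
      _ = _ := by rw [abs_neg]
  have h2 : |v i| * |v i| = v i * v i := abs_mul_abs_self _
  have h3 : 0 ≤ v i * v i := mul_self_nonneg _
  have e1 : |U i| * |v i| * |v i| = |U i| * (v i * v i) := by rw [mul_assoc, h2]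
  rw [e1]
  nlinarith

/-- `M(|a|,a,v) ≤ M(|v|,a,a)`. -/
theorem J_le_G (a v : X3) : M (absX a) a v ≤ M (absX v) a a := by
  refine hasSum_le (fun i => ?_) (hasSum_M (absX a) a v) (hasSum_M (absX v) a a)
  show |a i| * a i * v i ≤ |v i| * a i * a i
  have h : |a i| * a i * v i ≤ |(|a i| * a i * v i)| := le_abs_self _
  rw [abs_mul, abs_mul, abs_abs] at h
  have h2 : |a i| * |a i| = a i * a i := abs_mul_abs_self _
  calc |a i| * a i * v i ≤ |a i| * |a i| * |v i| := h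
    _ = _ := by rw [h2]; ring

theorem M_nonneg (a b c : X3) : 0 ≤ M (absX a) (absX b) (absX c) :=
  hasSum_nonneg_of_nonneg' a b c
where
  hasSum_nonneg_of_nonneg' (a b c : X3) : 0 ≤ M (absX a) (absX b) (absX c) := by
    rw [M_apply]
    exact tsum_nonneg (fun i => mul_nonneg (mul_nonneg (abs_nonneg _) (abs_nonneg _))
      (abs_nonneg _))

end Pool.Agent.Lib.MP_b5ab38_an
end
end

section

section

set_option autoImplicit false
set_option maxSynthPendingDepth 3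

/-!
# From fourth order Gateaux differentiability to Peano expansions
-/

namespace Pool.Agent.Lib.MP_b5ab38_an

open scoped Topology ENNReal
open Set Filter

section

variable {X : Type*} [NormedAddCommGroup X] [NormedSpace ℝ X]

/-- The filter used in the definition. -/
theorem gfilter_le (k : ℕ) : (if k = 0 then 𝓝[≠] (0 : ℝ) else 𝓝[>] 0) ≤ 𝓝 0 := by
  split_ifs <;> exact nhdsWithin_le_nhds

theorem gfilter_neBot (k : ℕ) : NeBot (if k = 0 then 𝓝[≠] (0 : ℝ) else 𝓝[>] 0) := by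
  split_ifs <;> infer_instance

theorem pos_le_gfilter (k : ℕ) : 𝓝[>] (0 : ℝ) ≤ (if k = 0 then 𝓝[≠] (0 : ℝ) else 𝓝[>] 0) := by
  split_ifs
  · exact nhdsWithin_mono _ (fun t ht => ne_of_gt ht)
  · exact le_rfl

theorem tendsto_line (x v : X) : Tendsto (fun t : ℝ => x + t • v) (𝓝 0) (𝓝 x) := by
  have h : Continuous fun t : ℝ => x + t • v := by fun_prop
  have h2 := h.tendsto 0
  simpa using h2

theorem IsGateauxDeriv.unique {f : X → ℝ} : ∀ {k : ℕ} {x : X}
    {A A' : ContinuousMultilinearMap ℝ (fun _ : Fin k => X) ℝ},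
    IsGateauxDeriv f k x A → IsGateauxDeriv f k x A' → A = A' := by
  intro k
  induction k with
  | zero =>
    intro x A A' h h'
    ext v
    rw [h v, h' v]
  | succ k ih =>
    intro x A A' h h'
    obtain ⟨⟨D, hD, hlim⟩, _⟩ := h
    obtain ⟨⟨D', hD', hlim'⟩, _⟩ := h'
    have heq : ∀ᶠ y in 𝓝 x, D y = D' y := by
      filter_upwards [hD, hD'] with y h1 h2 using ih h1 h2
    have hx : D x = D' x := heq.self_of_nhds
    ext v
    have h1 := hlim v
    have h2 := hlim' v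
    have := gfilter_neBot k
    refine tendsto_nhds_unique_of_eventuallyEq h1 h2 ?_
    have h3 : ∀ᶠ t in (if k = 0 then 𝓝[≠] (0 : ℝ) else 𝓝[>] 0),
        D (x + t • v (Fin.last k)) = D' (x + t • v (Fin.last k)) :=
      gfilter_le k ((tendsto_line x (v (Fin.last k))).eventually heq)
    filter_upwards [h3] with t ht
    rw [ht, hx]

open Classical in
/-- The `k`-th Gateaux derivative (junk value `0`). -/
noncomputable def gd (f : X → ℝ) (k : ℕ) (x : X) :
    ContinuousMultilinearMap ℝ (fun _ : Fin k => X) ℝ :=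
  if h : GateauxDiffAt f k x then h.choose else 0

theorem gd_spec {f : X → ℝ} {k : ℕ} {x : X} (h : GateauxDiffAt f k x) :
    IsGateauxDeriv f k x (gd f k x) := by
  rw [gd, dif_pos h]
  exact h.choose_spec

theorem gd_eq {f : X → ℝ} {k : ℕ} {x : X} {A : ContinuousMultilinearMap ℝ (fun _ : Fin k => X) ℝ}
    (h : IsGateauxDeriv f k x A) : gd f k x = A :=
  (gd_spec ⟨A, h⟩).unique h

theorem GateauxDiffAt.eventually {f : X → ℝ} {k : ℕ} {x : X} (h : GateauxDiffAt f (k + 1) x) :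
    ∀ᶠ y in 𝓝 x, GateauxDiffAt f k y := by
  obtain ⟨A, ⟨D, hD, _⟩, _⟩ := h
  filter_upwards [hD] with y hy using ⟨D y, hy⟩

theorem GateauxDiffAt.of_succ {f : X → ℝ} {k : ℕ} {x : X} (h : GateauxDiffAt f (k + 1) x) :
    GateauxDiffAt f k x := h.eventually.self_of_nhds

/-- The right derivative of `gd f k` along lines. -/
theorem gd_right {f : X → ℝ} {k : ℕ} {x : X} (h : GateauxDiffAt f (k + 1) x)
    (v : Fin (k + 1) → X) :
    Tendsto (fun t : ℝ => t⁻¹ * (gd f k (x + t • v (Fin.last k)) (fun i => v i.castSucc)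
      - gd f k x (fun i => v i.castSucc))) (𝓝[>] 0) (𝓝 (gd f (k + 1) x v)) := by
  obtain ⟨⟨D, hD, hlim⟩, _⟩ := gd_spec h
  have heq : ∀ᶠ y in 𝓝 x, gd f k y = D y := by
    filter_upwards [hD] with y hy using gd_eq hy
  have hx : gd f k x = D x := heq.self_of_nhds
  have h1 := (hlim v).mono_left (pos_le_gfilter k)
  refine h1.congr' ?_
  have h3 : ∀ᶠ t in 𝓝[>] (0 : ℝ), gd f k (x + t • v (Fin.last k)) = D (x + t • v (Fin.last k)) :=
    nhdsWithin_le_nhds ((tendsto_line x (v (Fin.last k))).eventually heq)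
  filter_upwards [h3] with t ht
  rw [ht, hx]

theorem gd_symm {f : X → ℝ} {k : ℕ} {x : X} (h : GateauxDiffAt f (k + 1) x)
    (σ : Equiv.Perm (Fin (k + 1))) (v : Fin (k + 1) → X) :
    gd f (k + 1) x (fun i => v (σ i)) = gd f (k + 1) x v := (gd_spec h).2 σ v

/-- The two-sided derivative of `gd f k` along the line in direction `v`. -/
theorem gd_hasDerivAt {f : X → ℝ} {k : ℕ} {x v : X} {s : ℝ}
    (h : GateauxDiffAt f (k + 1) (x + s • v)) :
    HasDerivAt (fun t : ℝ => gd f k (x + t • v) (fun _ => v))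
      (gd f (k + 1) (x + s • v) (fun _ => v)) s := by
  set y := x + s • v with hy
  rw [hasDerivAt_iff_tendsto_slope_zero]
  have e : ∀ t : ℝ, x + (s + t) • v = y + t • v := fun t => by rw [hy, add_smul]; abel
  simp only [e, smul_eq_mul, ← hy]
  have hpos := gd_right h (fun _ => v)
  -- the left limit
  set w : Fin (k + 1) → X := Function.update (fun _ => v) (Fin.last k) (-v) with hw
  have hwlast : w (Fin.last k) = -v := by rw [hw, Function.update_self]
  have hwinit : (fun i : Fin k => w i.castSucc) = fun _ => v := by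
    funext i
    rw [hw, Function.update_of_ne (Fin.castSucc_lt_last i).ne]
  have hneg0 := gd_right h w
  rw [hwinit, hwlast] at hneg0
  have hval : gd f (k + 1) y w = -(gd f (k + 1) y (fun _ => v)) := by
    have h1 := (gd f (k + 1) y).map_update_smul (fun _ => v) (Fin.last k) (-1 : ℝ) v
    rw [neg_one_smul, Function.update_eq_self (Fin.last k) (fun _ : Fin (k+1) => v)] at h1
    rw [hw, h1, neg_one_smul]
  rw [hval] at hneg0
  have hneg : Tendsto (fun t : ℝ => t⁻¹ * (gd f k (y + t • v) (fun _ => v)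
      - gd f k y (fun _ => v))) (𝓝[<] 0) (𝓝 (gd f (k + 1) y (fun _ => v))) := by
    have h1 : Tendsto (fun t : ℝ => -t) (𝓝[<] 0) (𝓝[>] 0) := by
      have h2 := tendsto_neg_nhdsLT (a := (0 : ℝ))
      rwa [neg_zero] at h2
    have h3 := (hneg0.comp h1).neg
    rw [neg_neg] at h3
    refine h3.congr (fun t => ?_)
    simp only [Function.comp_apply]
    rw [smul_neg, neg_smul, neg_neg, inv_neg]
    ring
  rw [← Iio_union_Ioi, nhdsWithin_union]
  exact hneg.sup hpos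

end

/-- One-variable Taylor expansion with fourth order Peano bound. -/
theorem taylor4 (φ0 φ1 φ2 φ3 : ℝ → ℝ) (A δ : ℝ) (hδ : 0 < δ)
    (h0 : ∀ t, |t| < δ → HasDerivAt φ0 (φ1 t) t)
    (h1 : ∀ t, |t| < δ → HasDerivAt φ1 (φ2 t) t)
    (h2 : ∀ t, |t| < δ → HasDerivAt φ2 (φ3 t) t)
    (h3 : HasDerivAt φ3 A 0) :
    ∃ K η, 0 < η ∧ ∀ t, |t| ≤ η →
      |φ0 t - φ0 0 - t * φ1 0 - t ^ 2 * (φ2 0 / 2) - t ^ 3 * (φ3 0 / 6)| ≤ K * t ^ 4 := by
  -- bound for `φ3`
  obtain ⟨η1, hη1, hb3⟩ : ∃ η1, 0 < η1 ∧ ∀ t, |t| ≤ η1 → |φ3 t - φ3 0| ≤ (|A| + 1) * |t| := by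
    have h4 := (hasDerivAt_iff_isLittleO.1 h3).def (show (0 : ℝ) < 1 by norm_num)
    rw [Metric.eventually_nhds_iff] at h4
    obtain ⟨ε, hε, h5⟩ := h4
    refine ⟨ε / 2, by positivity, fun t ht => ?_⟩
    have h6 := h5 (y := t) (by rw [Real.dist_eq, sub_zero]; linarith)
    rw [sub_zero, Real.norm_eq_abs, Real.norm_eq_abs, one_mul, smul_eq_mul] at h6
    calc |φ3 t - φ3 0| = |(φ3 t - φ3 0 - t * A) + t * A| := by ring_nf
      _ ≤ |φ3 t - φ3 0 - t * A| + |t * A| := abs_add_le _ _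
      _ ≤ |t| + |t| * |A| := by rw [abs_mul]; linarith
      _ = _ := by ring
  set K : ℝ := |A| + 1 with hK
  have hKpos : 0 < K := by positivity
  set η : ℝ := min η1 (δ / 2) with hη
  have hηpos : 0 < η := by positivity
  -- general integration step
  have step : ∀ (ψ ψ' : ℝ → ℝ) (n : ℕ), ψ 0 = 0 →
      (∀ t, |t| ≤ η → HasDerivAt ψ (ψ' t) t) → (∀ t, |t| ≤ η → |ψ' t| ≤ K * |t| ^ n) →
      ∀ t, |t| ≤ η → |ψ t| ≤ K * |t| ^ (n + 1) := by
    intro ψ ψ' n hψ0 hd hb t ht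
    have hconv : Convex ℝ (Icc (-|t|) |t|) := convex_Icc _ _
    have h4 := hconv.norm_image_sub_le_of_norm_hasDerivWithin_le (f := ψ) (f' := ψ')
      (C := K * |t| ^ n) (x := 0) (y := t)
      (fun s hs => (hd s ((abs_le.2 hs).trans ht)).hasDerivWithinAt)
      (fun s hs => by
        have hs' : |s| ≤ |t| := abs_le.2 hs
        rw [Real.norm_eq_abs]
        refine (hb s (hs'.trans ht)).trans ?_
        gcongr)
      ⟨by have := abs_nonneg t; linarith, abs_nonneg t⟩ ⟨neg_abs_le t, le_abs_self t⟩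
    rw [hψ0, sub_zero, sub_zero, Real.norm_eq_abs, Real.norm_eq_abs] at h4
    refine h4.trans (le_of_eq ?_)
    ring
  have hηδ : ∀ t, |t| ≤ η → |t| < δ := fun t ht => by
    have : η ≤ δ / 2 := min_le_right _ _
    linarith
  have s3 : ∀ t, |t| ≤ η → |φ3 t - φ3 0| ≤ K * |t| ^ 1 := fun t ht => by
    rw [pow_one]; exact hb3 t (ht.trans (min_le_left _ _))
  have s2 := step (fun t => φ2 t - φ2 0 - t * φ3 0) (fun t => φ3 t - φ3 0) 1 (by simp)
    (fun t ht => by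
      have := ((h2 t (hηδ t ht)).sub_const (φ2 0)).sub ((hasDerivAt_id t).mul_const (φ3 0))
      refine this.congr_deriv ?_
      ring) s3
  have s1 := step (fun t => φ1 t - φ1 0 - t * φ2 0 - t ^ 2 * (φ3 0 / 2))
    (fun t => φ2 t - φ2 0 - t * φ3 0) 2 (by simp)
    (fun t ht => by
      have := (((h1 t (hηδ t ht)).sub_const (φ1 0)).sub ((hasDerivAt_id t).mul_const (φ2 0))).sub
        ((hasDerivAt_pow 2 t).mul_const (φ3 0 / 2))
      refine this.congr_deriv ?_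
      simp only [Nat.cast_ofNat]
      ring) s2
  have s0 := step (fun t => φ0 t - φ0 0 - t * φ1 0 - t ^ 2 * (φ2 0 / 2) - t ^ 3 * (φ3 0 / 6))
    (fun t => φ1 t - φ1 0 - t * φ2 0 - t ^ 2 * (φ3 0 / 2)) 3 (by simp)
    (fun t ht => by
      have := ((((h0 t (hηδ t ht)).sub_const (φ0 0)).sub
        ((hasDerivAt_id t).mul_const (φ1 0))).sub
        ((hasDerivAt_pow 2 t).mul_const (φ2 0 / 2))).sub ((hasDerivAt_pow 3 t).mul_const (φ3 0 / 6))
      refine this.congr_deriv ?_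
      simp only [Nat.cast_ofNat]
      ring) s1
  refine ⟨K, η, hηpos, fun t ht => ?_⟩
  have h5 := s0 t ht
  have h4eq : |t| ^ 4 = t ^ 4 := by
    rw [show (4 : ℕ) = 2 * 2 by norm_num, pow_mul, pow_mul, sq_abs]
  rw [← h4eq]
  exact h5

section

variable {X : Type*} [NormedAddCommGroup X] [NormedSpace ℝ X]

/-- Curried form of a continuous linear form on `Fin 1 → X`. -/
noncomputable def cur1 (A : ContinuousMultilinearMap ℝ (fun _ : Fin 1 => X) ℝ) : X →L[ℝ] ℝ :=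
  continuousMultilinearCurryFin1 ℝ X ℝ A

theorem cur1_apply (A : ContinuousMultilinearMap ℝ (fun _ : Fin 1 => X) ℝ) (v : X) :
    cur1 A v = A (fun _ => v) := by
  rw [cur1, continuousMultilinearCurryFin1_apply]
  congr 1

/-- Curried form of a continuous bilinear form. -/
noncomputable def cur2 (A : ContinuousMultilinearMap ℝ (fun _ : Fin 2 => X) ℝ) :
    X →L[ℝ] X →L[ℝ] ℝ :=
  ((continuousMultilinearCurryFin1 ℝ X ℝ).toContinuousLinearEquiv :
    ContinuousMultilinearMap ℝ (fun _ : Fin 1 => X) ℝ →L[ℝ] (X →L[ℝ] ℝ)).comp A.curryLeft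

theorem cur2_apply (A : ContinuousMultilinearMap ℝ (fun _ : Fin 2 => X) ℝ) (v : X) :
    cur2 A v v = A (fun _ => v) := by
  show continuousMultilinearCurryFin1 ℝ X ℝ (A.curryLeft v) v = _
  rw [continuousMultilinearCurryFin1_apply, ContinuousMultilinearMap.curryLeft_apply]
  congr 1
  funext i
  fin_cases i <;> rfl

/-- `cur2` as a continuous linear map. -/
noncomputable def cur2L : ContinuousMultilinearMap ℝ (fun _ : Fin 2 => X) ℝ →L[ℝ]
    (X →L[ℝ] X →L[ℝ] ℝ) :=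
  (ContinuousLinearMap.compL ℝ X (ContinuousMultilinearMap ℝ (fun _ : Fin 1 => X) ℝ) (X →L[ℝ] ℝ)
    ((continuousMultilinearCurryFin1 ℝ X ℝ).toContinuousLinearEquiv :
      ContinuousMultilinearMap ℝ (fun _ : Fin 1 => X) ℝ →L[ℝ] (X →L[ℝ] ℝ))).comp
  ((continuousMultilinearCurryLeftEquiv ℝ (fun _ : Fin 2 => X) ℝ).toContinuousLinearEquiv :
    ContinuousMultilinearMap ℝ (fun _ : Fin 2 => X) ℝ →L[ℝ]
      (X →L[ℝ] ContinuousMultilinearMap ℝ (fun _ : Fin 1 => X) ℝ))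

theorem cur2L_apply (A : ContinuousMultilinearMap ℝ (fun _ : Fin 2 => X) ℝ) :
    cur2L A = cur2 A := rfl

/-- Curried form of a continuous trilinear form. -/
noncomputable def cur3 (A : ContinuousMultilinearMap ℝ (fun _ : Fin 3 => X) ℝ) :
    X →L[ℝ] X →L[ℝ] X →L[ℝ] ℝ := cur2L.comp A.curryLeft

theorem cur3_apply (A : ContinuousMultilinearMap ℝ (fun _ : Fin 3 => X) ℝ) (v : X) :
    cur3 A v v v = A (fun _ => v) := by
  show cur2 (A.curryLeft v) v v = _
  rw [cur2_apply, ContinuousMultilinearMap.curryLeft_apply]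
  congr 1
  funext i
  fin_cases i <;> rfl

/-- Fourth order Gateaux differentiability gives cubic Peano expansions along lines. -/
theorem PE_of_gateaux {f : X → ℝ} {x : X} (h : GateauxDiffAt f 4 x) : ∃ L B T, PE f x L B T := by
  refine ⟨cur1 (gd f 1 x), (1 / 2 : ℝ) • cur2 (gd f 2 x), (1 / 6 : ℝ) • cur3 (gd f 3 x), ?_⟩
  intro v
  have hev3 : ∀ᶠ y in 𝓝 x, GateauxDiffAt f 3 y := h.eventually
  have hev : ∀ᶠ t in 𝓝 (0 : ℝ), GateauxDiffAt f 3 (x + t • v) := (tendsto_line x v).eventually hev3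
  obtain ⟨δ, hδ, hδ'⟩ := Metric.eventually_nhds_iff.1 hev
  have h3t : ∀ t, |t| < δ → GateauxDiffAt f 3 (x + t • v) := fun t ht =>
    hδ' (by rw [Real.dist_eq, sub_zero]; exact ht)
  have d0 : ∀ t, |t| < δ → HasDerivAt (fun t : ℝ => gd f 0 (x + t • v) (fun _ => v))
      (gd f 1 (x + t • v) (fun _ => v)) t := fun t ht => gd_hasDerivAt (h3t t ht).of_succ.of_succ
  have d1 : ∀ t, |t| < δ → HasDerivAt (fun t : ℝ => gd f 1 (x + t • v) (fun _ => v))
      (gd f 2 (x + t • v) (fun _ => v)) t := fun t ht => gd_hasDerivAt (h3t t ht).of_succ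
  have d2 : ∀ t, |t| < δ → HasDerivAt (fun t : ℝ => gd f 2 (x + t • v) (fun _ => v))
      (gd f 3 (x + t • v) (fun _ => v)) t := fun t ht => gd_hasDerivAt (h3t t ht)
  have h4 : GateauxDiffAt f 4 (x + (0 : ℝ) • v) := by rw [zero_smul, add_zero]; exact h
  have d3 : HasDerivAt (fun t : ℝ => gd f 3 (x + t • v) (fun _ => v))
      (gd f 4 (x + (0 : ℝ) • v) (fun _ => v)) 0 := gd_hasDerivAt h4
  obtain ⟨K, η, hη, hK⟩ := taylor4 _ _ _ _ _ δ hδ d0 d1 d2 d3
  have hf0 : ∀ y, GateauxDiffAt f 0 y := fun y =>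
    ⟨ContinuousMultilinearMap.constOfIsEmpty ℝ _ (f y), fun _ => rfl⟩
  have hgd0 : ∀ y, gd f 0 y (fun _ => v) = f y := fun y => gd_spec (hf0 y) _
  refine ⟨K, η, hη, fun t ht => ?_⟩
  have h5 := hK t ht
  simp only [hgd0, zero_smul, add_zero] at h5
  rw [cur1_apply, _root_.smul_apply, _root_.smul_apply, _root_.smul_apply, _root_.smul_apply,
    _root_.smul_apply, cur2_apply, cur3_apply, smul_eq_mul, smul_eq_mul]
  refine le_trans (le_of_eq ?_) h5
  congr 1
  ring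

end

end Pool.Agent.Lib.MP_b5ab38_an
end

section

set_option autoImplicit false

/-!
# Coordinatewise null sequences in `ℓ_3`
-/

namespace Pool.Agent.Lib.MP_b5ab38_an

open scoped Topology ENNReal
open Set Filter

/-- Bounded and coordinatewise null along `l`. -/
structure Null {ι : Type*} (l : Filter ι) (v : ι → X3) : Prop where
  bdd : ∃ R, ∀ n, ‖v n‖ ≤ R
  coord : ∀ i, Tendsto (fun n => v n i) l (𝓝 0)

variable {ι : Type*} {l : Filter ι}

theorem Null.neg {v : ι → X3} (h : Null l v) : Null l (fun n => -(v n)) := by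
  refine ⟨?_, fun i => ?_⟩
  · obtain ⟨R, hR⟩ := h.bdd
    exact ⟨R, fun n => by rw [norm_neg]; exact hR n⟩
  · have := (h.coord i).neg
    rw [neg_zero] at this
    exact this

theorem Null.abs {v : ι → X3} (h : Null l v) : Null l (fun n => absX (v n)) := by
  refine ⟨?_, fun i => ?_⟩
  · obtain ⟨R, hR⟩ := h.bdd
    exact ⟨R, fun n => by rw [norm_absX]; exact hR n⟩
  · have := (h.coord i).abs
    rw [abs_zero] at this
    exact this

theorem M_single (i : ℕ) (c : ℝ) (a v : X3) :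
    M (lp.single 3 i c) a v = c * a i * v i := by
  rw [M_apply, tsum_eq_single i]
  · simp
  · intro j hj
    have : (lp.single 3 i c : X3) j = 0 := by
      rw [lp.single_apply, Pi.single_apply, if_neg hj]
    rw [this]; ring

theorem tendsto_M (U : X3) {a v : ι → X3} (ha : ∃ R, ∀ n, ‖a n‖ ≤ R) (hv : Null l v) :
    Tendsto (fun n => M U (a n) (v n)) l (𝓝 0) := by
  obtain ⟨Ra, hRa⟩ := ha
  obtain ⟨Rv, hRv⟩ := hv.bdd
  rw [Metric.tendsto_nhds]
  intro ε hε
  set D : ℝ := |Ra| * |Rv| + 1 with hD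
  have hDpos : 0 < D := by positivity
  have hsum := lp.hasSum_single (E := fun _ : ℕ => ℝ) (p := 3) (by norm_num) U
  have h1 : ∀ᶠ s : Finset ℕ in atTop, dist (∑ i ∈ s, lp.single 3 i (U i)) U < ε / (2 * D) :=
    (Metric.tendsto_nhds.1 hsum) _ (by positivity)
  obtain ⟨s, hs⟩ := h1.exists
  have h2 : Tendsto (fun n => ∑ i ∈ s, U i * a n i * v n i) l (𝓝 0) := by
    rw [← Finset.sum_const_zero (s := s)]
    refine tendsto_finsetSum s (fun i _ => ?_)
    have h3 := hv.coord i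
    have h4 : ∀ n, |U i * a n i| ≤ |U i| * |Ra| := by
      intro n
      rw [abs_mul]
      have h5 : ‖a n i‖ ≤ ‖a n‖ := lp.norm_apply_le_norm (by norm_num : (3 : ℝ≥0∞) ≠ 0) (a n) i
      have h6 : |a n i| ≤ |Ra| := h5.trans ((hRa n).trans (le_abs_self _))
      exact mul_le_mul_of_nonneg_left h6 (abs_nonneg _)
    have h6 : Tendsto (fun n => (|U i| * |Ra|) * |v n i|) l (𝓝 0) := by
      have := (h3.abs).const_mul (|U i| * |Ra|)
      simpa using this
    refine squeeze_zero_norm (fun n => ?_) h6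
    rw [Real.norm_eq_abs, abs_mul]
    exact mul_le_mul_of_nonneg_right (h4 n) (abs_nonneg _)
  have h3 := (Metric.tendsto_nhds.1 h2) (ε / 2) (by positivity)
  filter_upwards [h3] with n hn
  rw [Real.dist_eq, sub_zero] at hn ⊢
  have e : M U (a n) (v n) = M (U - ∑ i ∈ s, lp.single 3 i (U i)) (a n) (v n)
      + ∑ i ∈ s, U i * a n i * v n i := by
    rw [map_sub, map_sum]
    rw [_root_.sub_apply, _root_.sub_apply]
    have : (∑ i ∈ s, M (lp.single 3 i (U i))) (a n) (v n) = ∑ i ∈ s, U i * a n i * v n i := by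
      rw [_root_.sum_apply, _root_.sum_apply]
      exact Finset.sum_congr rfl (fun i _ => M_single i (U i) (a n) (v n))
    rw [this]; ring
  rw [e]
  have h4 : |M (U - ∑ i ∈ s, lp.single 3 i (U i)) (a n) (v n)| ≤ ε / (2 * D) * (|Ra| * |Rv|) := by
    refine (abs_M_le _ _ _).trans ?_
    rw [mul_assoc]
    have h5 : ‖U - ∑ i ∈ s, lp.single 3 i (U i)‖ ≤ ε / (2 * D) := by
      rw [← dist_eq_norm, dist_comm]; exact hs.le
    have h6 : ‖a n‖ ≤ |Ra| := (hRa n).trans (le_abs_self _)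
    have h7 : ‖v n‖ ≤ |Rv| := (hRv n).trans (le_abs_self _)
    gcongr
  have h5 : ε / (2 * D) * (|Ra| * |Rv|) ≤ ε / 2 := by
    have : ε / (2 * D) * (|Ra| * |Rv|) ≤ ε / (2 * D) * D := by
      gcongr
      linarith
    refine this.trans (le_of_eq ?_)
    field_simp
  calc |M (U - ∑ i ∈ s, lp.single 3 i (U i)) (a n) (v n) + ∑ i ∈ s, U i * a n i * v n i|
      ≤ |M (U - ∑ i ∈ s, lp.single 3 i (U i)) (a n) (v n)| + |∑ i ∈ s, U i * a n i * v n i| :=
        abs_add_le _ _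
    _ < ε / 2 + ε / 2 := by linarith
    _ = ε := by ring

theorem tendsto_M_abs₁ (U : X3) {v : ι → X3} (hv : Null l v) :
    Tendsto (fun n => M (absX U) (absX U) (absX (v n))) l (𝓝 0) :=
  tendsto_M (absX U) (a := fun _ => absX U) ⟨_, fun _ => le_rfl⟩ hv.abs

theorem tendsto_M_abs₂ (U : X3) {a v : ι → X3} (ha : ∃ R, ∀ n, ‖a n‖ ≤ R) (hv : Null l v) :
    Tendsto (fun n => M (absX U) (absX (a n)) (absX (v n))) l (𝓝 0) :=
  tendsto_M (absX U) (a := fun n => absX (a n))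
    (by obtain ⟨R, hR⟩ := ha; exact ⟨R, fun n => by rw [norm_absX]; exact hR n⟩) hv.abs

theorem eventually_cube_add (U : X3) {v : ι → X3} (hv : Null l v) :
    ∀ᶠ n in l, ‖U + v n‖ ^ 3 ≤ ‖U‖ ^ 3 + ‖v n‖ ^ 3 + 1 := by
  have h1 := (tendsto_M_abs₁ U hv).const_mul 3
  have h2 := (tendsto_M_abs₂ U hv.bdd hv).const_mul 3
  have h3 := h1.add h2
  rw [mul_zero, add_zero] at h3
  have h4 := h3.eventually (gt_mem_nhds (zero_lt_one))
  filter_upwards [h4] with n hn
  have := cube_add_le U (v n)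
  linarith

/-- Pitt type lemma: bounded bilinear forms on `ℓ_3` are jointly sequentially null. -/
theorem tendsto_bilin (β : X3 →L[ℝ] X3 →L[ℝ] ℝ) {u v : ι → X3} (hu : Null l u) (hv : Null l v) :
    Tendsto (fun n => β (u n) (v n)) l (𝓝 0) := by
  by_contra hcon
  obtain ⟨R1, hR1⟩ := hu.bdd
  obtain ⟨R2, hR2⟩ := hv.bdd
  set R : ℝ := max |R1| |R2| with hR
  have hRu : ∀ n, ‖u n‖ ≤ R := fun n => (hR1 n).trans ((le_abs_self _).trans (le_max_left _ _))
  have hRv : ∀ n, ‖v n‖ ≤ R := fun n => (hR2 n).trans ((le_abs_self _).trans (le_max_right _ _))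
  have hR0 : 0 ≤ R := (abs_nonneg _).trans (le_max_left _ _)
  rw [Metric.tendsto_nhds] at hcon
  push Not at hcon
  obtain ⟨ε, hε, hfreq⟩ := hcon
  have claim : ∀ N : ℕ, ∃ U V : X3, ‖U‖ ^ 3 ≤ (R ^ 3 + 1) * N ∧ ‖V‖ ^ 3 ≤ (R ^ 3 + 1) * N ∧
      ε * N ≤ β U V := by
    intro N
    induction N with
    | zero => exact ⟨0, 0, by simp, by simp, by simp⟩
    | succ N ih =>
      obtain ⟨U, V, hU, hV, hUV⟩ := ih
      obtain ⟨n, hn, h1, h2, h3, h4⟩ := (hfreq.and_eventually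
        ((eventually_cube_add U hu).and ((eventually_cube_add U hu.neg).and
          ((eventually_cube_add V hv).and (eventually_cube_add V hv.neg))))).exists
      rw [Real.dist_eq, sub_zero] at hn
      -- choose the sign of `u n`
      obtain ⟨u', hu'1, hu'2, hu'3⟩ : ∃ u' : X3, (‖U + u'‖ ^ 3 ≤ ‖U‖ ^ 3 + ‖u n‖ ^ 3 + 1) ∧
          (‖U - u'‖ ^ 3 ≤ ‖U‖ ^ 3 + ‖u n‖ ^ 3 + 1) ∧ ε ≤ β u' (v n) := by
        rw [norm_neg] at h2
        rcases abs_cases (β (u n) (v n)) with ⟨he, _⟩ | ⟨he, _⟩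
        · refine ⟨u n, h1, ?_, by rw [← he]; exact hn⟩
          rw [sub_eq_add_neg]; exact h2
        · refine ⟨-(u n), h2, ?_, ?_⟩
          · rw [sub_neg_eq_add]; exact h1
          · rw [map_neg, _root_.neg_apply, ← he]; exact hn
      have hun : ‖u n‖ ^ 3 ≤ R ^ 3 := pow_le_pow_left₀ (norm_nonneg _) (hRu n) 3
      have hvn : ‖v n‖ ^ 3 ≤ R ^ 3 := pow_le_pow_left₀ (norm_nonneg _) (hRv n) 3
      rw [norm_neg] at h4
      push_cast
      rcases le_total 0 (β U (v n) + β u' V) with hs | hs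
      · refine ⟨U + u', V + v n, by linarith, by linarith, ?_⟩
        have e : β (U + u') (V + v n) = β U V + (β U (v n) + β u' V) + β u' (v n) := by
          rw [map_add β, _root_.add_apply, map_add, map_add]; ring
        rw [e]; linarith
      · refine ⟨U - u', V - v n, by linarith, ?_, ?_⟩
        · rw [sub_eq_add_neg]; linarith
        · have e : β (U - u') (V - v n) = β U V - (β U (v n) + β u' V) + β u' (v n) := by
            rw [map_sub β, _root_.sub_apply, map_sub, map_sub]; ring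
          rw [e]; linarith
  -- contradiction
  have hbound : ∀ N : ℕ, 0 < N → ε ^ 3 * N ≤ ‖β‖ ^ 3 * (R ^ 3 + 1) ^ 2 := by
    intro N hN
    obtain ⟨U, V, hU, hV, hUV⟩ := claim N
    have hNpos : (0 : ℝ) < N := by exact_mod_cast hN
    have h1 : ε * N ≤ ‖β‖ * ‖U‖ * ‖V‖ :=
      hUV.trans ((le_abs_self _).trans (by
        have := β.le_opNorm₂ U V
        rwa [Real.norm_eq_abs] at this))
    have h2 : (ε * N) ^ 3 ≤ (‖β‖ * ‖U‖ * ‖V‖) ^ 3 :=
      pow_le_pow_left₀ (by positivity) h1 3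
    have h3 : (‖β‖ * ‖U‖ * ‖V‖) ^ 3 ≤ ‖β‖ ^ 3 * ((R ^ 3 + 1) * N) * ((R ^ 3 + 1) * N) := by
      rw [mul_pow, mul_pow]
      gcongr
    have h4 : ε ^ 3 * N * (N : ℝ) ^ 2 ≤ ‖β‖ ^ 3 * (R ^ 3 + 1) ^ 2 * (N : ℝ) ^ 2 := by
      calc ε ^ 3 * N * (N : ℝ) ^ 2 = (ε * N) ^ 3 := by ring
        _ ≤ _ := h2.trans h3
        _ = _ := by ring
    exact le_of_mul_le_mul_right h4 (by positivity)
  obtain ⟨N, hN⟩ := exists_nat_gt ((‖β‖ ^ 3 * (R ^ 3 + 1) ^ 2) / ε ^ 3)
  have hN' : ‖β‖ ^ 3 * (R ^ 3 + 1) ^ 2 < ε ^ 3 * N := by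
    rw [div_lt_iff₀ (by positivity)] at hN
    linarith
  have hNpos : 0 < N := by
    rcases Nat.eq_zero_or_pos N with h | h
    · exfalso
      subst h
      have : 0 ≤ ‖β‖ ^ 3 * (R ^ 3 + 1) ^ 2 := by positivity
      simp at hN'
      linarith
    · exact h
  exact absurd (hbound N hNpos) (not_le.2 hN')

theorem tendsto_functional (L : X3 →L[ℝ] ℝ) {v : ι → X3} (hv : Null l v) :
    Tendsto (fun n => L (v n)) l (𝓝 0) := by
  have h := tendsto_bilin (L.smulRight L) hv hv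
  have h2 : Tendsto (fun n => L (v n) * L (v n)) l (𝓝 0) := by
    refine h.congr (fun n => ?_)
    simp
  have h3 : Tendsto (fun n => Real.sqrt (L (v n) * L (v n))) l (𝓝 0) := by
    have := (Real.continuous_sqrt.tendsto 0).comp h2
    rw [Real.sqrt_zero] at this
    exact this
  have h4 : Tendsto (fun n => |L (v n)|) l (𝓝 0) := by
    refine h3.congr (fun n => ?_)
    rw [Real.sqrt_mul_self_eq_abs]
  exact (tendsto_zero_iff_abs_tendsto_zero _).2 h4

/-- Bounded families have coordinatewise limits along ultrafilters. -/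
theorem exists_weak_limit (l : Ultrafilter ι) (z : ι → X3) (R : ℝ) (hz : ∀ n, ‖z n‖ ≤ R) :
    ∃ w : X3, ‖w‖ ≤ R ∧ ∀ i, Tendsto (fun n => z n i) l (𝓝 (w i)) := by
  have h1 : ∀ i, ∃ c : ℝ, Tendsto (fun n => z n i) l (𝓝 c) := by
    intro i
    have hK : IsCompact (Icc (-R) R) := isCompact_Icc
    have hmem : Icc (-R) R ∈ (l.map (fun n => z n i)) := by
      refine Filter.mem_map.2 (Filter.univ_mem' (fun n => ?_))
      have h5 : ‖z n i‖ ≤ ‖z n‖ := lp.norm_apply_le_norm (by norm_num : (3 : ℝ≥0∞) ≠ 0) (z n) i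
      exact abs_le.1 (h5.trans (hz n))
    obtain ⟨c, _, hc⟩ := hK.ultrafilter_le_nhds' _ hmem
    exact ⟨c, hc⟩
  choose c hc using h1
  have hbdd : Bornology.IsBounded (Set.range z) :=
    (Metric.isBounded_iff_subset_closedBall 0).2 ⟨R, by
      rintro _ ⟨n, rfl⟩
      rw [mem_closedBall_zero_iff]; exact hz n⟩
  have htend : Tendsto (id fun n => z n : ι → ∀ _ : ℕ, ℝ) l (𝓝 c) := tendsto_pi_nhds.2 hc
  have hmem : Memℓp c 3 := lp.memℓp_of_tendsto (F := z) hbdd htend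
  refine ⟨⟨c, hmem⟩, ?_, hc⟩
  exact lp.norm_le_of_tendsto (Eventually.of_forall hz) htend

theorem null_sub {l : Filter ι} {z : ι → X3} {w : X3} (R : ℝ) (hz : ∀ n, ‖z n‖ ≤ R)
    (hw : ∀ i, Tendsto (fun n => z n i) l (𝓝 (w i))) : Null l (fun n => z n - w) := by
  refine ⟨⟨R + ‖w‖, fun n => (norm_sub_le _ _).trans (by have := hz n; linarith)⟩, fun i => ?_⟩
  have := (hw i).sub_const (w i)
  rw [sub_self] at this
  exact this

end Pool.Agent.Lib.MP_b5ab38_an
end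
end
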